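import Mathlib

/-!
# Conjugation of operators, skew operators
-/

set_option linter.unusedSectionVars false

namespace Pool.Agent.Y132.EP

open Module Finset Function

variable {K : Type} [Field K] {Γ : Type} [Group Γ]

theorem ginv {V : Type} [AddCommGroup V] [Module K V] (σ : Γ →* (V →ₗ[K] V)) (g : Γ) (x : V) :
    σ g (σ g⁻¹ x) = x := by
  rw [← Module.End.mul_apply, ← map_mul, mul_inv_cancel, map_one]
  rfl

theorem ginv' {V : Type} [AddCommGroup V] [Module K V] (σ : Γ →* (V →ₗ[K] V)) (g : Γ) (x : V) :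
    σ g⁻¹ (σ g x) = x := by
  rw [← Module.End.mul_apply, ← map_mul, inv_mul_cancel, map_one]
  rfl

/-- Conjugation of operators. -/
def cj {V : Type} [AddCommGroup V] [Module K V] (σ : Γ →* (V →ₗ[K] V)) (g : Γ)
    (A : V →ₗ[K] V) : V →ₗ[K] V := σ g ∘ₗ A ∘ₗ σ g⁻¹

theorem cj_apply {V : Type} [AddCommGroup V] [Module K V] (σ : Γ →* (V →ₗ[K] V)) (g : Γ)
    (A : V →ₗ[K] V) (x : V) : cj σ g A x = σ g (A (σ g⁻¹ x)) := rfl

theorem cj_add {V : Type} [AddCommGroup V] [Module K V] (σ : Γ →* (V →ₗ[K] V)) (g : Γ)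
    (A A' : V →ₗ[K] V) : cj σ g (A + A') = cj σ g A + cj σ g A' := by
  ext x
  simp [cj_apply]

theorem cj_smul {V : Type} [AddCommGroup V] [Module K V] (σ : Γ →* (V →ₗ[K] V)) (g : Γ)
    (r : K) (A : V →ₗ[K] V) : cj σ g (r • A) = r • cj σ g A := by
  ext x
  simp [cj_apply]

theorem cj_sub {V : Type} [AddCommGroup V] [Module K V] (σ : Γ →* (V →ₗ[K] V)) (g : Γ)
    (A A' : V →ₗ[K] V) : cj σ g (A - A') = cj σ g A - cj σ g A' := by
  ext x
  simp [cj_apply]

theorem cj_zero {V : Type} [AddCommGroup V] [Module K V] (σ : Γ →* (V →ₗ[K] V)) (g : Γ) :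
    cj σ g (0 : V →ₗ[K] V) = 0 := by
  ext x
  simp [cj_apply]

theorem cj_inj {V : Type} [AddCommGroup V] [Module K V] (σ : Γ →* (V →ₗ[K] V)) (g : Γ)
    {A : V →ₗ[K] V} (h : cj σ g A = 0) : A = 0 := by
  ext x
  have h1 := congrArg (fun f => σ g⁻¹ (f (σ g x))) h
  simp only [cj_apply, LinearMap.zero_apply, map_zero, ginv'] at h1
  exact h1

/-- The skew operators. -/
def sk {V : Type} [AddCommGroup V] [Module K V] (B : V →ₗ[K] V →ₗ[K] K) :
    Submodule K (V →ₗ[K] V) where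
  carrier := {A | ∀ x y, B (A x) y + B x (A y) = 0}
  zero_mem' := fun x y => by simp
  add_mem' := fun {A A'} hA hA' x y => by
    have h1 := hA x y
    have h2 := hA' x y
    simp only [LinearMap.add_apply, map_add]
    linear_combination h1 + h2
  smul_mem' := fun r A hA x y => by
    have h1 := hA x y
    simp only [LinearMap.smul_apply, map_smul, smul_eq_mul]
    linear_combination r * h1

theorem mem_sk {V : Type} [AddCommGroup V] [Module K V] {B : V →ₗ[K] V →ₗ[K] K}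
    {A : V →ₗ[K] V} : A ∈ sk B ↔ ∀ x y, B (A x) y + B x (A y) = 0 := Iff.rfl

end Pool.Agent.Y132.EP
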