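import Mathlib
import Pool.Agent.TH118.SG.Pair
import Pool.Agent.Y132.EP.Base

/-!
# Operators compatible with all semi-equivariant multilinear maps
-/

set_option linter.unusedSectionVars false

namespace Pool.Agent.Y132.EP

open Module Finset Function Pool.Agent.TH118.SG

variable {K : Type} [Field K] {I : Type} {T : I → Type} [∀ i, AddCommGroup (T i)]
  [∀ i, Module K (T i)] {E : Type} [AddCommGroup E] [Module K E] {Γ : Type} [Group Γ]

/-- `h` is multiplied by a power of the character on a subgroup of finite index. -/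
def TateMap (χ : Γ →* Kˣ) (ρ : ∀ i, Γ →* (T i →ₗ[K] T i)) (τ : Γ →* (E →ₗ[K] E)) {n : ℕ}
    (c : Fin n → I) (a : ℤ) (h : MultilinearMap K (fun s => T (c s)) E) : Prop :=
  ∃ Δ : Subgroup Γ, Δ.FiniteIndex ∧ ∀ g ∈ Δ, ∀ v : ∀ s, T (c s),
    h (fun s => ρ (c s) g (v s)) = ((χ g ^ a : Kˣ) : K) • τ g (h v)

/-- The triples `(A, D, y)` which are compatible with all semi-equivariant maps. -/
def GG (χ : Γ →* Kˣ) (w : I → ℕ) (B : ∀ i, T i →ₗ[K] T i →ₗ[K] K)
    (ρ : ∀ i, Γ →* (T i →ₗ[K] T i)) (τ : Γ →* (E →ₗ[K] E)) :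
    Submodule K ((∀ i, T i →ₗ[K] T i) × (E →ₗ[K] E) × K) where
  carrier := {p | (∀ i x y, B i (p.1 i x) y + B i x (p.1 i y) = (w i : K) * p.2.2 * B i x y) ∧
    ∀ (n : ℕ) (c : Fin n → I) (a : ℤ) (h : MultilinearMap K (fun s => T (c s)) E),
      TateMap χ ρ τ c a h → ∀ v, ∑ s, h (update v s (p.1 (c s) (v s))) =
        p.2.1 (h v) + ((a : K) * p.2.2) • h v}
  zero_mem' := by
    refine ⟨fun i x y => by simp, fun n c a h _ v => ?_⟩
    simp only [Prod.fst_zero, Prod.snd_zero, Pi.zero_apply, LinearMap.zero_apply,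
      mul_zero, zero_smul, add_zero]
    refine Finset.sum_eq_zero fun j _ => ?_
    exact h.map_coord_zero j (by simp)
  add_mem' := by
    rintro p q ⟨hp, hp'⟩ ⟨hq, hq'⟩
    refine ⟨fun i x y => ?_, fun n c a h hh v => ?_⟩
    · have h1 := hp i x y
      have h2 := hq i x y
      simp only [Prod.fst_add, Prod.snd_add, Pi.add_apply, LinearMap.add_apply, map_add]
      linear_combination h1 + h2
    · have h1 := hp' n c a h hh v
      have h2 := hq' n c a h hh v
      simp only [Prod.fst_add, Prod.snd_add, Pi.add_apply, LinearMap.add_apply,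
        MultilinearMap.map_update_add, Finset.sum_add_distrib]
      rw [h1, h2, mul_add, add_smul]
      abel
  smul_mem' := by
    rintro r p ⟨hp, hp'⟩
    refine ⟨fun i x y => ?_, fun n c a h hh v => ?_⟩
    · have h1 := hp i x y
      simp only [Prod.smul_fst, Prod.smul_snd, Pi.smul_apply, LinearMap.smul_apply, map_smul,
        smul_eq_mul]
      linear_combination r * h1
    · have h1 := hp' n c a h hh v
      simp only [Prod.smul_fst, Prod.smul_snd, Pi.smul_apply, LinearMap.smul_apply,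
        MultilinearMap.map_update_smul, smul_eq_mul]
      rw [← Finset.smul_sum, h1, smul_add, smul_smul]
      congr 2
      ring

variable {χ : Γ →* Kˣ} {w : I → ℕ} {B : ∀ i, T i →ₗ[K] T i →ₗ[K] K}
  {ρ : ∀ i, Γ →* (T i →ₗ[K] T i)} {τ : Γ →* (E →ₗ[K] E)}

theorem mem_GG {p : (∀ i, T i →ₗ[K] T i) × (E →ₗ[K] E) × K} : p ∈ GG χ w B ρ τ ↔
    (∀ i x y, B i (p.1 i x) y + B i x (p.1 i y) = (w i : K) * p.2.2 * B i x y) ∧
    ∀ (n : ℕ) (c : Fin n → I) (a : ℤ) (h : MultilinearMap K (fun s => T (c s)) E),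
      TateMap χ ρ τ c a h → ∀ v, ∑ s, h (update v s (p.1 (c s) (v s))) =
        p.2.1 (h v) + ((a : K) * p.2.2) • h v := Iff.rfl

theorem tateMap_twist {n : ℕ} {c : Fin n → I} {a : ℤ}
    {h : MultilinearMap K (fun s => T (c s)) E} (hh : TateMap χ ρ τ c a h) (γ : Γ) :
    TateMap χ ρ τ c a ((τ γ⁻¹).compMultilinearMap (h.compLinearMap fun s => ρ (c s) γ)) := by
  obtain ⟨Δ, hΔ, h1⟩ := hh
  refine ⟨Δ.comap (MulAut.conj γ).toMonoidHom, ?_, fun g hg v => ?_⟩
  · exact ⟨by
      rw [Subgroup.index_comap_of_surjective]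
      · exact hΔ.index_ne_zero
      · exact (MulAut.conj γ).surjective⟩
  · have hg' : γ * g * γ⁻¹ ∈ Δ := hg
    have h2 := h1 _ hg' (fun s => ρ (c s) γ (v s))
    change τ γ⁻¹ (h fun s => ρ (c s) γ (ρ (c s) g (v s))) =
      ((χ g ^ a : Kˣ) : K) • τ g (τ γ⁻¹ (h fun s => ρ (c s) γ (v s)))
    have h3 : (fun s => ρ (c s) γ (ρ (c s) g (v s))) =
        fun s => ρ (c s) (γ * g * γ⁻¹) (ρ (c s) γ (v s)) := by
      funext s
      rw [← Module.End.mul_apply, ← Module.End.mul_apply, ← map_mul, ← map_mul,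
        inv_mul_cancel_right]
    have h4 : χ (γ * g * γ⁻¹) = χ g := by
      rw [map_mul, map_mul, map_inv, mul_comm (χ γ), mul_inv_cancel_right]
    rw [h3, h2, h4, map_smul, ← Module.End.mul_apply, ← Module.End.mul_apply, ← map_mul,
      ← map_mul]
    congr 3
    group

/-- The space is stable under the group. -/
theorem GG_conj (hB : ∀ i g x y, B i (ρ i g x) (ρ i g y) = (χ g : K) ^ w i * B i x y)
    {p : (∀ i, T i →ₗ[K] T i) × (E →ₗ[K] E) × K} (hp : p ∈ GG χ w B ρ τ) (γ : Γ) :
    ((fun i => cj (ρ i) γ (p.1 i), cj τ γ p.2.1, p.2.2) :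
      (∀ i, T i →ₗ[K] T i) × (E →ₗ[K] E) × K) ∈ GG χ w B ρ τ := by
  obtain ⟨h1, h2⟩ := mem_GG.1 hp
  refine mem_GG.2 ⟨fun i x y => ?_, fun n c a h hh v => ?_⟩
  · have e1 := h1 i (ρ i γ⁻¹ x) (ρ i γ⁻¹ y)
    have e2 := hB i γ (p.1 i (ρ i γ⁻¹ x)) (ρ i γ⁻¹ y)
    have e3 := hB i γ (ρ i γ⁻¹ x) (p.1 i (ρ i γ⁻¹ y))
    have e4 := hB i γ (ρ i γ⁻¹ x) (ρ i γ⁻¹ y)
    rw [ginv] at e2 e3
    rw [ginv, ginv] at e4
    simp only [cj_apply]
    rw [e2, e3, e4]
    linear_combination (χ γ : K) ^ w i * e1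
  · have e1 := h2 n c a _ (tateMap_twist hh γ) (fun s => ρ (c s) γ⁻¹ (v s))
    have e2 : ∀ v', ((τ γ⁻¹).compMultilinearMap (h.compLinearMap fun s => ρ (c s) γ)) v' =
        τ γ⁻¹ (h fun s => ρ (c s) γ (v' s)) := fun _ => rfl
    simp only [e2] at e1
    have e3 : ∀ s, (fun s' => ρ (c s') γ (update (fun s => ρ (c s) γ⁻¹ (v s)) s
        (p.1 (c s) (ρ (c s) γ⁻¹ (v s))) s')) =
        update v s (cj (ρ (c s)) γ (p.1 (c s)) (v s)) := by
      intro s
      funext s'
      by_cases hs : s' = s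
      · subst hs
        rw [update_self, update_self]
        rfl
      · rw [update_of_ne hs, update_of_ne hs, ginv]
    have e4 : (fun s => ρ (c s) γ (ρ (c s) γ⁻¹ (v s))) = v := funext fun s => ginv _ _ _
    simp only [e3, e4] at e1
    rw [← map_sum] at e1
    have e5 := congrArg (τ γ) e1
    rw [ginv, map_add, map_smul, ginv] at e5
    exact e5

section logs

variable [CharZero K] [IsAlgClosed K] [Fintype I] [DecidableEq I]
  [∀ i, FiniteDimensional K (T i)] [FiniteDimensional K E]

open Pool.Agent.TH125.Gal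

/-- generalized eigenvectors of a product of operators -/
theorem gen_pi {F : ∀ i, T i →ₗ[K] T i} {β : K} {x : ∀ i, T i}
    (hx : x ∈ Module.End.maxGenEigenspace
      (LinearMap.pi fun i => F i ∘ₗ LinearMap.proj i : (∀ i, T i) →ₗ[K] (∀ i, T i)) β) (i : I) :
    x i ∈ Module.End.maxGenEigenspace (F i) β := by
  obtain ⟨n, hn⟩ := mem_gen.1 hx
  refine mem_gen.2 ⟨n, ?_⟩
  have h1 : ∀ (n : ℕ) (x : ∀ i, T i), (((LinearMap.pi fun i => F i ∘ₗ LinearMap.proj i :
      (∀ i, T i) →ₗ[K] (∀ i, T i)) - algebraMap K (End K (∀ i, T i)) β) ^ n) x i =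
      ((F i - algebraMap K (End K (T i)) β) ^ n) (x i) := by
    intro n
    induction n with
    | zero => intro x; rfl
    | succ n ih =>
      intro x
      rw [pow_succ, Module.End.mul_apply, ih, pow_succ, Module.End.mul_apply]
      rfl
  rw [← h1, hn]
  rfl

/-- The logarithm of an element. -/
theorem log_mem (hB : ∀ i g x y, B i (ρ i g x) (ρ i g y) = (χ g : K) ^ w i * B i x y)
    (θ : Additive Kˣ →+ K) (F : Γ) {Y : ∀ i, T i →ₗ[K] T i}
    (hY : ∀ i β, ∀ x ∈ Module.End.maxGenEigenspace (ρ i F) β, Y i x = ext0 θ β • x)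
    {D : E →ₗ[K] E} (hD : ∀ β, ∀ x ∈ Module.End.maxGenEigenspace (τ F) β, D x = ext0 θ β • x) :
    ((Y, D, ext0 θ (χ F)) : (∀ i, T i →ₗ[K] T i) × (E →ₗ[K] E) × K) ∈ GG χ w B ρ τ := by
  have hinj : ∀ i, Function.Injective (ρ i F) := fun i x y h => by
    have h1 := congrArg (ρ i F⁻¹) h
    rwa [ginv', ginv'] at h1
  have scal : ∀ (V : Type) [AddCommGroup V] [Module K V] (m : K) (f : End K V) (β : K) (z : V),
      z ≠ 0 → z ∈ Module.End.maxGenEigenspace (m • f) β → m ≠ 0 →
        z ∈ Module.End.maxGenEigenspace f (m⁻¹ * β) := by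
    intro V _ _ m f β z _ hz hm
    obtain ⟨n, hn⟩ := mem_gen.1 hz
    refine mem_gen.2 ⟨n, ?_⟩
    have e1 : f - algebraMap K (End K V) (m⁻¹ * β) = m⁻¹ • (m • f - algebraMap K (End K V) β) := by
      rw [smul_sub, smul_smul, inv_mul_cancel₀ hm, one_smul, map_mul, Algebra.smul_def m⁻¹
        (algebraMap K (End K V) β)]
    rw [e1, smul_pow, LinearMap.smul_apply, hn, smul_zero]
  refine mem_GG.2 ⟨fun i x y => ?_, fun n c a h hh v => ?_⟩
  · set μ : K := (χ F : K) ^ w i with hμ
    have hμ0 : μ ≠ 0 := pow_ne_zero _ (Units.ne_zero _)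
    have h1 := deriv_op θ (ρ i F) (hinj i) (μ • (1 : End K K)) (hY i)
      (Y' := ext0 θ μ • (1 : End K K)) (fun β z hz => ?_) (h := bm (B i)) (M := 1) one_pos
      (fun v => ?_) ![x, y]
    · rw [Fin.sum_univ_two] at h1
      have h2 : ext0 θ μ = (w i : K) * ext0 θ (χ F) := by
        rcases Nat.eq_zero_or_pos (w i) with h0 | h0
        · rw [hμ, h0, pow_zero, ext0_one, Nat.cast_zero, zero_mul]
        · rw [hμ, ext0_pow θ _ h0]
      rw [← h2]
      simpa [bm] using h1
    · by_cases hz0 : z = 0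
      · rw [hz0, map_zero, smul_zero]
      · have h2 : μ = β := by
          obtain ⟨n, hn⟩ := mem_gen.1 hz
          have h3 : ∀ n : ℕ, ((μ • (1 : End K K) - algebraMap K (End K K) β) ^ n) z =
              (μ - β) ^ n * z := by
            intro n
            induction n with
            | zero => simp
            | succ n ih =>
              rw [pow_succ', Module.End.mul_apply, ih, LinearMap.sub_apply, LinearMap.smul_apply,
                Module.End.one_apply, Module.algebraMap_end_apply, smul_eq_mul, smul_eq_mul]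
              ring
          rw [h3] at hn
          have h4 := (mul_eq_zero.1 hn).resolve_right hz0
          exact sub_eq_zero.1 (eq_zero_of_pow_eq_zero h4)
        rw [← h2, LinearMap.smul_apply, Module.End.one_apply]
    · rw [pow_one, pow_one]
      change B i (ρ i F (v 0)) (ρ i F (v 1)) = μ • B i (v 0) (v 1)
      rw [hB, smul_eq_mul]
  · obtain ⟨Δ, hΔ, h1⟩ := hh
    obtain ⟨M, hM, hFM⟩ := exists_pow hΔ F
    set Fp : (∀ i, T i) →ₗ[K] (∀ i, T i) := LinearMap.pi fun i => ρ i F ∘ₗ LinearMap.proj i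
      with hFp
    set Yp : (∀ i, T i) →ₗ[K] (∀ i, T i) := LinearMap.pi fun i => Y i ∘ₗ LinearMap.proj i
      with hYp
    set m : K := ((χ F ^ a : Kˣ) : K) with hm
    have hm0 : m ≠ 0 := Units.ne_zero _
    have hpow : ∀ (M : ℕ) (x : ∀ i, T i) (i : I), (Fp ^ M) x i = (ρ i F ^ M) (x i) := by
      intro M
      induction M with
      | zero => intro x i; rfl
      | succ M ih =>
        intro x i
        rw [pow_succ, Module.End.mul_apply, ih, pow_succ, Module.End.mul_apply]
        rfl
    obtain ⟨V0, hV0⟩ : ∃ V0 : Fin n → ∀ i, T i, ∀ s, V0 s (c s) = v s :=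
      ⟨fun s i => if hi : c s = i then hi ▸ v s else 0, fun s => by simp⟩
    have h2 := deriv_op (S := Fin n) θ Fp (fun x y hxy => funext fun i => hinj i (congrFun hxy i))
      (m • τ F) (Y := Yp) (fun β x hx => funext fun i => hY i β _ (gen_pi hx i))
      (Y' := D + ext0 θ m • (1 : End K E)) (fun β z hz => ?_)
      (h := h.compLinearMap fun s => LinearMap.proj (c s)) (M := M) hM (fun v => ?_)
      V0
    · have e2 : ∀ v', (h.compLinearMap fun s => LinearMap.proj (c s)) v' =
          h fun s => (v' s : ∀ i, T i) (c s) := fun _ => rfl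
      simp only [e2] at h2
      have e3 : ∀ s, (fun s' => (update V0 s (Yp (V0 s)) s' : ∀ i, T i) (c s')) =
          update v s (Y (c s) (v s)) := by
        intro s
        funext s'
        by_cases hs : s' = s
        · subst hs
          rw [update_self, update_self]
          change Y (c s') (V0 s' (c s')) = _
          rw [hV0]
        · rw [update_of_ne hs, update_of_ne hs]
          exact hV0 s'
      rw [Finset.sum_congr rfl fun s _ => by rw [e3 s]] at h2
      rw [h2]
      have e4 : (fun s => V0 s (c s)) = v := funext hV0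
      rw [e4, LinearMap.add_apply, LinearMap.smul_apply, Module.End.one_apply]
      congr 2
      -- the logarithm of the power
      rw [hm]
      have e5 : ext0 θ ((χ F ^ a : Kˣ) : K) = θ (Additive.ofMul (χ F ^ a)) := by
        rw [ext0_ne θ (Units.ne_zero _)]
        congr 2
        exact Units.ext rfl
      have e6 : ext0 θ ((χ F : Kˣ) : K) = θ (Additive.ofMul (χ F)) := by
        rw [ext0_ne θ (Units.ne_zero _)]
        congr 2
        exact Units.ext rfl
      rw [e5, e6, ofMul_zpow, map_zsmul, zsmul_eq_mul]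
    · by_cases hz0 : z = 0
      · rw [hz0, map_zero, smul_zero]
      · by_cases hβ : β = 0
        · exfalso
          subst hβ
          obtain ⟨n, hn⟩ := mem_gen.1 (scal E m (τ F) 0 z hz0 hz hm0)
          rw [mul_zero, map_zero, sub_zero] at hn
          have h3 : ∀ n : ℕ, ∀ x : E, (τ F ^ n) x = 0 → x = 0 := by
            intro n
            induction n with
            | zero => intro x hx; exact hx
            | succ n ih =>
              intro x hx
              rw [pow_succ, Module.End.mul_apply] at hx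
              have h4 := ih _ hx
              have h5 := congrArg (τ F⁻¹) h4
              rwa [ginv', map_zero] at h5
          exact hz0 (h3 n z hn)
        · rw [LinearMap.add_apply, hD _ _ (scal E m (τ F) β z hz0 hz hm0), LinearMap.smul_apply,
            Module.End.one_apply, ← add_smul]
          congr 1
          have h3 : β = m * (m⁻¹ * β) := by
            rw [← mul_assoc, mul_inv_cancel₀ hm0, one_mul]
          conv_rhs => rw [h3]
          rw [ext0_mul θ hm0 (mul_ne_zero (inv_ne_zero hm0) hβ), add_comm]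
    · have h3 := h1 _ hFM (fun s => v s (c s))
      have e2 : ∀ v', (h.compLinearMap fun s => LinearMap.proj (c s)) v' =
          h fun s => (v' s : ∀ i, T i) (c s) := fun _ => rfl
      rw [e2, e2]
      simp only [hpow]
      simp only [map_pow] at h3
      rw [h3, smul_pow, LinearMap.smul_apply]
      congr 1
      rw [hm, ← Units.val_pow_eq_pow_val, ← zpow_natCast, ← zpow_natCast, ← zpow_mul, ← zpow_mul,
        mul_comm]

end logs

end Pool.Agent.Y132.EP
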