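import Mathlib
import Pool.Agent.Y132.EP.Core

/-!
# The components of the compatible operators
-/

set_option linter.unusedSectionVars false

namespace Pool.Agent.Y132.EP

open Module Finset Function Pool.Agent.TH118.SG

variable {K : Type} [Field K] {I : Type} {T : I → Type} [∀ i, AddCommGroup (T i)]
  [∀ i, Module K (T i)] {E : Type} [AddCommGroup E] [Module K E] {Γ : Type} [Group Γ]

/-- The hypotheses on the family: the form is multiplied by a power of the character, the adjoint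
representations (on the skew operators) are irreducible, without invariants and pairwise not
isomorphic, and some element is hyperbolic. -/
structure AdFam (χ : Γ →* Kˣ) (w : I → ℕ) (B : ∀ i, T i →ₗ[K] T i →ₗ[K] K)
    (ρ : ∀ i, Γ →* (T i →ₗ[K] T i)) : Prop where
  form : ∀ i g x y, B i (ρ i g x) (ρ i g y) = (χ g : K) ^ w i * B i x y
  irr : ∀ i, ∀ U ≤ sk (B i), (∀ g, ∀ A ∈ U, cj (ρ i) g A ∈ U) → U = ⊥ ∨ U = sk (B i)
  inv : ∀ i, ∀ A ∈ sk (B i), (∀ g, cj (ρ i) g A = A) → A = 0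
  iso : ∀ i j, i ≠ j → ¬∃ f : sk (B i) ≃ₗ[K] sk (B j), ∀ g (A A' : sk (B i)),
    (A' : T i →ₗ[K] T i) = cj (ρ i) g A → (f A' : T j →ₗ[K] T j) = cj (ρ j) g (f A)
  hyp : ∀ i, ∃ F : Γ, ∃ x y : T i, x ≠ 0 ∧ y ≠ 0 ∧ ∃ a b : K, ρ i F x = a • x ∧
    ρ i F y = b • y ∧ ∀ k : ℕ, 0 < k → a ^ k ≠ b ^ k

variable {χ : Γ →* Kˣ} {w : I → ℕ} {B : ∀ i, T i →ₗ[K] T i →ₗ[K] K}
  {ρ : ∀ i, Γ →* (T i →ₗ[K] T i)} {τ : Γ →* (E →ₗ[K] E)}

theorem sk_cj (h : AdFam χ w B ρ) {i : I} {A : T i →ₗ[K] T i} (hA : A ∈ sk (B i)) (g : Γ) :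
    cj (ρ i) g A ∈ sk (B i) := by
  intro x y
  have e1 := hA (ρ i g⁻¹ x) (ρ i g⁻¹ y)
  have e2 := h.form i g (A (ρ i g⁻¹ x)) (ρ i g⁻¹ y)
  have e3 := h.form i g (ρ i g⁻¹ x) (A (ρ i g⁻¹ y))
  rw [ginv] at e2 e3
  rw [cj_apply, cj_apply, e2, e3, ← mul_add, e1, mul_zero]

/-- The compatible operators with trivial last component: the first components are skew. -/
theorem skew_of_GG {p : (∀ i, T i →ₗ[K] T i) × (E →ₗ[K] E) × K} (hp : p ∈ GG χ w B ρ τ)
    (h0 : p.2.2 = 0) (i : I) : p.1 i ∈ sk (B i) := by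
  intro x y
  rw [hp.1 i x y, h0, mul_zero, zero_mul]

section

variable [CharZero K] [IsAlgClosed K] [Fintype I] [DecidableEq I]
  [∀ i, FiniteDimensional K (T i)] [FiniteDimensional K E]

/-- There is a compatible tuple with nonzero skew component. -/
theorem exists_start (h : AdFam χ w B ρ) (τ : Γ →* (E →ₗ[K] E)) (i : I) :
    ∃ p ∈ GG χ w B ρ τ, p.2.2 = 0 ∧ p.1 i ≠ 0 := by
  obtain ⟨F, u, v, hu0, hv0, al, be, hu, hv, hab⟩ := h.hyp i
  have hinj : Function.Injective (ρ i F) := fun x y hxy => by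
    have h1 := congrArg (ρ i F⁻¹) hxy
    rwa [ginv', ginv'] at h1
  have hal : al ≠ 0 := by
    rintro rfl
    rw [zero_smul] at hu
    exact hu0 (hinj (by rw [hu, map_zero]))
  have hbe : be ≠ 0 := by
    rintro rfl
    rw [zero_smul] at hv
    exact hv0 (hinj (by rw [hv, map_zero]))
  obtain ⟨θ, hθ⟩ := Pool.Agent.TH118.CR.exists_add (Units.mk0 al hal * (Units.mk0 be hbe)⁻¹)
    (fun k hk h => hab k hk (by
      rw [mul_pow, inv_pow, mul_inv_eq_one] at h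
      exact congrArg Units.val h))
  have hθ' : ext0 θ al ≠ ext0 θ be := by
    intro h
    apply hθ
    rw [ofMul_mul, ofMul_inv, map_add, map_neg, ← ext0_ne θ hal, ← ext0_ne θ hbe, h,
      add_neg_cancel]
  choose Y hY using fun j => exists_op (ρ j F) (ext0 θ)
  obtain ⟨D, hD⟩ := exists_op (τ F) (ext0 θ)
  have hp := log_mem h.form θ F hY hD
  set p : (∀ i, T i →ₗ[K] T i) × (E →ₗ[K] E) × K := (Y, D, ext0 θ (χ F)) with hpdef
  by_contra hcon
  push Not at hcon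
  -- the component is invariant
  have h1 : ∀ g, cj (ρ i) g (Y i) = Y i := by
    intro g
    have h2 := Submodule.sub_mem _ (GG_conj h.form hp g) hp
    have h3 := hcon _ h2 (by simp [hpdef])
    exact sub_eq_zero.1 h3
  -- subtract a scalar
  set y : K := ext0 θ (χ F) with hy
  have h2 : Y i - ((w i : K) * y / 2) • (LinearMap.id : T i →ₗ[K] T i) ∈ sk (B i) := by
    intro a b
    have h3 := hp.1 i a b
    simp only [LinearMap.sub_apply, LinearMap.smul_apply, LinearMap.id_apply, map_sub, map_smul,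
      smul_eq_mul]
    linear_combination h3
  have h3 := h.inv i _ h2 (fun g => by
    rw [cj_sub, h1, cj_smul]
    congr 2
    ext x
    rw [cj_apply, LinearMap.id_apply, LinearMap.id_apply, ginv])
  have h4 : ∀ x, Y i x = ((w i : K) * y / 2) • x := by
    intro x
    have h5 := congrArg (fun f => f x) h3
    simp only [LinearMap.sub_apply, LinearMap.smul_apply, LinearMap.id_apply,
      LinearMap.zero_apply] at h5
    exact sub_eq_zero.1 h5
  apply hθ'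
  have hgen : ∀ (w : T i) (α : K), ρ i F w = α • w →
      w ∈ Module.End.maxGenEigenspace (ρ i F) α := by
    intro w α h
    refine mem_gen.2 ⟨1, ?_⟩
    rw [pow_one, LinearMap.sub_apply, h, Module.algebraMap_end_apply, sub_self]
  have h5 := hY i al u (hgen u al hu)
  have h6 := hY i be v (hgen v be hv)
  rw [h4] at h5 h6
  have h7 : ((w i : K) * y / 2) = ext0 θ al := by
    have h8 : ((w i : K) * y / 2 - ext0 θ al) • u = 0 := by rw [sub_smul, h5, sub_self]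
    exact sub_eq_zero.1 ((smul_eq_zero.1 h8).resolve_right hu0)
  have h8 : ((w i : K) * y / 2) = ext0 θ be := by
    have h9 : ((w i : K) * y / 2 - ext0 θ be) • v = 0 := by rw [sub_smul, h6, sub_self]
    exact sub_eq_zero.1 ((smul_eq_zero.1 h9).resolve_right hv0)
  rw [← h7, ← h8]

/-- The elements supported in a set, as a submodule. -/
def GS (χ : Γ →* Kˣ) (w : I → ℕ) (B : ∀ i, T i →ₗ[K] T i →ₗ[K] K)
    (ρ : ∀ i, Γ →* (T i →ₗ[K] T i)) (τ : Γ →* (E →ₗ[K] E)) (Φ : Set I) :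
    Submodule K ((∀ i, T i →ₗ[K] T i) × (E →ₗ[K] E) × K) where
  carrier := {p | p ∈ GG χ w B ρ τ ∧ p.2.2 = 0 ∧ ∀ j, j ∉ Φ → p.1 j = 0}
  zero_mem' := ⟨Submodule.zero_mem _, rfl, fun _ _ => rfl⟩
  add_mem' := by
    rintro p q ⟨hp, hp0, hp'⟩ ⟨hq, hq0, hq'⟩
    refine ⟨Submodule.add_mem _ hp hq, ?_, fun j hj => ?_⟩
    · change p.2.2 + q.2.2 = 0
      rw [hp0, hq0, add_zero]
    · change p.1 j + q.1 j = 0
      rw [hp' j hj, hq' j hj, add_zero]
  smul_mem' := by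
    rintro r p ⟨hp, hp0, hp'⟩
    refine ⟨Submodule.smul_mem _ r hp, ?_, fun j hj => ?_⟩
    · change r * p.2.2 = 0
      rw [hp0, mul_zero]
    · change r • p.1 j = 0
      rw [hp' j hj, smul_zero]

theorem GS_conj (h : AdFam χ w B ρ) {Φ : Set I}
    {p : (∀ i, T i →ₗ[K] T i) × (E →ₗ[K] E) × K} (hp : p ∈ GS χ w B ρ τ Φ) (γ : Γ) :
    ((fun i => cj (ρ i) γ (p.1 i), cj τ γ p.2.1, p.2.2) :
      (∀ i, T i →ₗ[K] T i) × (E →ₗ[K] E) × K) ∈ GS χ w B ρ τ Φ := by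
  obtain ⟨h1, h2, h3⟩ := hp
  refine ⟨GG_conj h.form h1 γ, h2, fun j hj => ?_⟩
  change cj (ρ j) γ (p.1 j) = 0
  rw [h3 j hj, cj_zero]

/-- Every skew operator is a component. -/
theorem full_comp (h : AdFam χ w B ρ) {P : Submodule K ((∀ i, T i →ₗ[K] T i) ×
    (E →ₗ[K] E) × K)} (hP : P ≤ GG χ w B ρ τ) (hP0 : ∀ p ∈ P, p.2.2 = 0)
    (hst : ∀ p ∈ P, ∀ γ : Γ, ((fun i => cj (ρ i) γ (p.1 i), cj τ γ p.2.1, p.2.2) :
      (∀ i, T i →ₗ[K] T i) × (E →ₗ[K] E) × K) ∈ P) {i : I} (hne : ∃ p ∈ P, p.1 i ≠ 0)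
    {A : T i →ₗ[K] T i} (hA : A ∈ sk (B i)) : ∃ p ∈ P, p.1 i = A := by
  let U : Submodule K (T i →ₗ[K] T i) :=
    P.map (LinearMap.proj i ∘ₗ LinearMap.fst K (∀ i, T i →ₗ[K] T i) ((E →ₗ[K] E) × K))
  have hU : ∀ A, A ∈ U ↔ ∃ p ∈ P, p.1 i = A := fun A => Iff.rfl
  have h1 : U ≤ sk (B i) := by
    intro A hA
    obtain ⟨p, hp, rfl⟩ := (hU A).1 hA
    exact skew_of_GG (hP hp) (hP0 p hp) i
  rcases h.irr i U h1 (fun g A hA => by
    obtain ⟨p, hp, rfl⟩ := (hU A).1 hA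
    exact (hU _).2 ⟨_, hst p hp g, rfl⟩) with h2 | h2
  · exfalso
    obtain ⟨p, hp, hpi⟩ := hne
    apply hpi
    have h3 : p.1 i ∈ U := (hU _).2 ⟨p, hp, rfl⟩
    rwa [h2, Submodule.mem_bot] at h3
  · exact (hU A).1 (h2 ▸ hA)

/-- **The components are independent.** -/
theorem exists_single (h : AdFam χ w B ρ) (τ : Γ →* (E →ₗ[K] E)) (i : I) {A : T i →ₗ[K] T i}
    (hA : A ∈ sk (B i)) : ∃ D : E →ₗ[K] E, ((Pi.single i A, D, 0) :
      (∀ i, T i →ₗ[K] T i) × (E →ₗ[K] E) × K) ∈ GG χ w B ρ τ := by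
  classical
  -- a minimal support
  have hex : ∃ N : ℕ, ∃ Φ : Finset I, Φ.card = N ∧
      ∃ p ∈ GS χ w B ρ τ (Φ : Set I), p.1 i ≠ 0 := by
    obtain ⟨p, hp, hp0, hpi⟩ := exists_start h τ i
    exact ⟨_, univ, rfl, p, ⟨hp, hp0, fun j hj => absurd (mem_coe.2 (mem_univ j)) hj⟩, hpi⟩
  obtain ⟨Φ, hΦ, p, hp, hpi⟩ := Nat.find_spec hex
  have hmin : ∀ j ∈ Φ, ∀ q ∈ GS χ w B ρ τ (Φ : Set I), q.1 j = 0 → q.1 i = 0 := by
    intro j hj q hq hqj
    by_contra hqi
    refine Nat.find_min hex (m := (Φ.erase j).card) ?_ ⟨Φ.erase j, rfl, q, ⟨hq.1, hq.2.1, ?_⟩, hqi⟩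
    · rw [← hΦ]
      exact Finset.card_erase_lt_of_mem hj
    · intro l hl
      by_cases hlj : l = j
      · rw [hlj, hqj]
      · exact hq.2.2 l fun hl' => hl (by
          rw [mem_coe, mem_erase]
          exact ⟨hlj, hl'⟩)
  have hiΦ : i ∈ Φ := by
    by_contra hi
    exact hpi (hp.2.2 i (by simpa using hi))
  have hst : ∀ p ∈ GS χ w B ρ τ (Φ : Set I), ∀ γ : Γ,
      ((fun i => cj (ρ i) γ (p.1 i), cj τ γ p.2.1, p.2.2) :
      (∀ i, T i →ₗ[K] T i) × (E →ₗ[K] E) × K) ∈ GS χ w B ρ τ (Φ : Set I) :=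
    fun p hp γ => GS_conj h hp γ
  -- the support is `{i}`
  have hΦi : ∀ j ∈ Φ, j = i := by
    intro j hj
    by_contra hji
    have hstar : ∀ q ∈ GS χ w B ρ τ (Φ : Set I), q.1 i = 0 → q.1 j = 0 := by
      intro q₀ hq₀ hq₀i
      by_contra hq₀j
      let P := GS χ w B ρ τ (Φ : Set I) ⊓ LinearMap.ker
        (LinearMap.proj i ∘ₗ LinearMap.fst K (∀ i, T i →ₗ[K] T i) ((E →ₗ[K] E) × K))
      have hPm : ∀ q, q ∈ P ↔ q ∈ GS χ w B ρ τ (Φ : Set I) ∧ q.1 i = 0 := fun q => Iff.rfl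
      obtain ⟨q, hq, hqj⟩ := full_comp h (i := j) (P := P)
        (fun q hq => ((hPm q).1 hq).1.1) (fun q hq => ((hPm q).1 hq).1.2.1)
        (fun q hq γ => (hPm _).2 ⟨hst q ((hPm q).1 hq).1 γ, by
          change cj (ρ i) γ (q.1 i) = 0
          rw [((hPm q).1 hq).2, cj_zero]⟩) ⟨q₀, (hPm _).2 ⟨hq₀, hq₀i⟩, hq₀j⟩
        (skew_of_GG hp.1 hp.2.1 j)
      obtain ⟨hq1, hq2⟩ := (hPm q).1 hq
      have h1 := hmin j hj (p - q) (Submodule.sub_mem _ hp hq1) (by
        change p.1 j - q.1 j = 0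
        rw [hqj, sub_self])
      apply hpi
      have h2 : p.1 i - q.1 i = 0 := h1
      rwa [hq2, sub_zero] at h2
    have hpj : p.1 j ≠ 0 := fun hpj => hpi (hmin j hj p hp hpj)
    have hfi : ∀ A : sk (B i), ∃ q ∈ GS χ w B ρ τ (Φ : Set I), q.1 i = A := fun A =>
      full_comp h (P := GS χ w B ρ τ (Φ : Set I)) (fun q hq => hq.1) (fun q hq => hq.2.1) hst
        ⟨p, hp, hpi⟩ A.2
    have hfj : ∀ A : sk (B j), ∃ q ∈ GS χ w B ρ τ (Φ : Set I), q.1 j = A := fun A =>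
      full_comp h (P := GS χ w B ρ τ (Φ : Set I)) (fun q hq => hq.1) (fun q hq => hq.2.1) hst
        ⟨p, hp, hpj⟩ A.2
    choose q hq hqi using hfi
    have huniq : ∀ r ∈ GS χ w B ρ τ (Φ : Set I), ∀ r' ∈ GS χ w B ρ τ (Φ : Set I),
        r.1 i = r'.1 i → r.1 j = r'.1 j := by
      intro r hr r' hr' hrr
      have h1 := hstar (r - r') (Submodule.sub_mem _ hr hr') (by
        change r.1 i - r'.1 i = 0
        rw [hrr, sub_self])
      exact sub_eq_zero.1 h1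
    have huniq' : ∀ r ∈ GS χ w B ρ τ (Φ : Set I), ∀ r' ∈ GS χ w B ρ τ (Φ : Set I),
        r.1 j = r'.1 j → r.1 i = r'.1 i := by
      intro r hr r' hr' hrr
      have h1 := hmin j hj (r - r') (Submodule.sub_mem _ hr hr') (by
        change r.1 j - r'.1 j = 0
        rw [hrr, sub_self])
      exact sub_eq_zero.1 h1
    let f : sk (B i) →ₗ[K] sk (B j) :=
      { toFun := fun A => ⟨(q A).1 j, skew_of_GG (hq A).1 (hq A).2.1 j⟩
        map_add' := fun A A' => Subtype.ext (huniq _ (hq _) (q A + q A')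
          (Submodule.add_mem _ (hq A) (hq A')) (by
            rw [hqi]
            change (A : T i →ₗ[K] T i) + A' = (q A).1 i + (q A').1 i
            rw [hqi, hqi]))
        map_smul' := fun r A => Subtype.ext (huniq _ (hq _) (r • q A)
          (Submodule.smul_mem _ r (hq A)) (by
            rw [hqi]
            change r • (A : T i →ₗ[K] T i) = r • (q A).1 i
            rw [hqi])) }
    have hf : ∀ A, (f A : T j →ₗ[K] T j) = (q A).1 j := fun A => rfl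
    have hbij : Function.Bijective f := by
      constructor
      · intro A A' hAA
        have h1 := congrArg Subtype.val hAA
        have h2 := huniq' _ (hq A) _ (hq A') h1
        rw [hqi, hqi] at h2
        exact Subtype.ext h2
      · intro A
        obtain ⟨r, hr, hrj⟩ := hfj A
        refine ⟨⟨r.1 i, skew_of_GG hr.1 hr.2.1 i⟩, Subtype.ext ?_⟩
        rw [hf, huniq _ (hq _) r hr (hqi _), hrj]
    refine h.iso i j (Ne.symm hji) ⟨LinearEquiv.ofBijective f hbij, fun g A A' hAA => ?_⟩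
    change (q A').1 j = cj (ρ j) g ((q A).1 j)
    exact huniq _ (hq A') _ (hst _ (hq A) g) (by
      rw [hqi, hAA]
      change _ = cj (ρ i) g ((q A).1 i)
      rw [hqi])
  obtain ⟨q, hq, hqi⟩ := full_comp h (P := GS χ w B ρ τ (Φ : Set I)) (fun q hq => hq.1)
    (fun q hq => hq.2.1) hst ⟨p, hp, hpi⟩ hA
  refine ⟨q.2.1, ?_⟩
  have h1 : q = (Pi.single i A, q.2.1, 0) := by
    refine Prod.ext (funext fun j => ?_) (Prod.ext rfl hq.2.1)
    by_cases hj : j = i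
    · subst hj
      rw [hqi]
      simp
    · have h2 := hq.2.2 j fun hj' => hj (hΦi j hj')
      rw [h2]
      simp [Pi.single_eq_of_ne hj]
  rw [← h1]
  exact hq.1

end

end Pool.Agent.Y132.EP
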