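import Mathlib

/-!
# Weights of symmetric functions on words in two letters
-/

set_option linter.unusedSectionVars false

namespace Pool.Agent.Y132.EP

open Module Finset Function

section indep

variable {K : Type} [Field K] [CharZero K] {E : Type} [AddCommGroup E] [Module K E]
  {I : Type} {A : Type}

/-- Joint eigenvectors for different eigenvalues are linearly independent. -/
theorem joint_indep (D : I → (E →ₗ[K] E)) (lam : A → I → ℤ) (hlam : Function.Injective lam)
    (v : A → E) (hv0 : ∀ a, v a ≠ 0) (hv : ∀ a i, D i (v a) = (lam a i : K) • v a) :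
    LinearIndependent K v := by
  classical
  have key : ∀ (a : A) (S : Finset A), a ∉ S → ∃ P : E →ₗ[K] E, (∀ b ∈ S, P (v b) = 0) ∧
      (∃ x : K, x ≠ 0 ∧ P (v a) = x • v a) ∧ ∀ b, ∃ x : K, P (v b) = x • v b := by
    intro a S
    induction S using Finset.induction_on with
    | empty =>
      intro _
      exact ⟨LinearMap.id, fun b hb => absurd hb (Finset.notMem_empty b),
        ⟨1, one_ne_zero, by simp⟩, fun b => ⟨1, by simp⟩⟩
    | insert a' S ha' ih =>
      intro haS
      obtain ⟨P, h1, ⟨x, hx, h2⟩, h3⟩ := ih fun h => haS (Finset.mem_insert_of_mem h)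
      have hne : a ≠ a' := fun h => haS (h ▸ Finset.mem_insert_self _ _)
      obtain ⟨i, hi⟩ : ∃ i, lam a i ≠ lam a' i := by
        by_contra hcon
        push Not at hcon
        exact hne (hlam (funext hcon))
      refine ⟨(D i - (lam a' i : K) • LinearMap.id) ∘ₗ P, ?_, ?_, ?_⟩
      · intro b hb
        rcases Finset.mem_insert.1 hb with rfl | hb
        · obtain ⟨y, hy⟩ := h3 b
          rw [LinearMap.comp_apply, hy, map_smul, LinearMap.sub_apply, hv]
          simp
        · rw [LinearMap.comp_apply, h1 b hb, map_zero]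
      · refine ⟨x * ((lam a i : K) - (lam a' i : K)), mul_ne_zero hx ?_, ?_⟩
        · rw [sub_ne_zero]
          exact_mod_cast hi
        · rw [LinearMap.comp_apply, h2, map_smul, LinearMap.sub_apply, hv, LinearMap.smul_apply,
            LinearMap.id_apply, ← sub_smul, smul_smul]
      · intro b
        obtain ⟨y, hy⟩ := h3 b
        refine ⟨y * ((lam b i : K) - (lam a' i : K)), ?_⟩
        rw [LinearMap.comp_apply, hy, map_smul, LinearMap.sub_apply, hv, LinearMap.smul_apply,
          LinearMap.id_apply, ← sub_smul, smul_smul]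
  rw [linearIndependent_iff']
  intro S r hr a ha
  obtain ⟨P, h1, ⟨x, hx, h2⟩, -⟩ := key a (S.erase a) (Finset.notMem_erase a S)
  have h3 := congrArg P hr
  rw [map_sum, map_zero, Finset.sum_eq_single a] at h3
  · rw [map_smul, h2, smul_smul] at h3
    exact (mul_eq_zero.1 ((smul_eq_zero.1 h3).resolve_right (hv0 a))).resolve_right hx
  · intro b hb hba
    rw [map_smul, h1 b (Finset.mem_erase.2 ⟨hba, hb⟩), smul_zero]
  · intro h
    exact absurd ha h

theorem card_le_of_joint [Fintype A] {U : Submodule K E} [FiniteDimensional K U]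
    (D : I → (E →ₗ[K] E)) (lam : A → I → ℤ) (hlam : Function.Injective lam)
    (v : A → E) (hv0 : ∀ a, v a ≠ 0) (hv : ∀ a i, D i (v a) = (lam a i : K) • v a)
    (hU : ∀ a, v a ∈ U) : Fintype.card A ≤ finrank K U := by
  have h1 := joint_indep D lam hlam v hv0 hv
  have h2 : LinearIndependent K fun a => (⟨v a, hU a⟩ : U) :=
    LinearIndependent.of_comp U.subtype h1
  exact h2.fintype_card_le_finrank

end indep

section words

variable {K : Type} [Field K] [CharZero K] {E : Type} [AddCommGroup E] [Module K E]
  {I : Type} [DecidableEq I] {Λ : Type} [Fintype Λ] [DecidableEq Λ]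

/-- The function is invariant under the transpositions of positions of the same colour. -/
def Sy (c : Λ → I) (F : (Λ → Fin 2) → E) : Prop :=
  ∀ p q, c p = c q → ∀ J, F (J ∘ Equiv.swap p q) = F J

/-- the weight -/
def wt (c : Λ → I) (J : Λ → Fin 2) (i : I) : ℤ :=
  ∑ s, if c s = i then (if J s = 0 then 1 else -1) else 0

/-- The operators `De i`, `Df i`, `Dh i` act on the values of `F` like the standard basis of the
Lie algebra `sl(2)` at the positions of colour `i`. -/
structure SlAct (c : Λ → I) (F : (Λ → Fin 2) → E) (De Df Dh : I → (E →ₗ[K] E)) : Prop where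
  e : ∀ i J, De i (F J) = ∑ s, if c s = i ∧ J s = 1 then F (update J s 0) else 0
  f : ∀ i J, Df i (F J) = ∑ s, if c s = i ∧ J s = 0 then F (update J s 1) else 0
  h : ∀ i J, Dh i (F J) = (wt c J i : K) • F J

variable {c : Λ → I} {F : (Λ → Fin 2) → E} {De Df Dh : I → (E →ₗ[K] E)}

theorem swap_update {J : Λ → Fin 2} {s s' : Λ} {x y : Fin 2} (hxy : x ≠ y) (hs : J s = x)
    (hs' : J s' = y) : update (update J s y) s' x = J ∘ Equiv.swap s s' := by
  have hne : s ≠ s' := by
    rintro rfl
    exact hxy (hs.symm.trans hs')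
  funext l
  rw [Function.comp_apply]
  by_cases h1 : l = s'
  · rw [h1, update_self, Equiv.swap_apply_right, hs]
  · rw [update_of_ne h1]
    by_cases h2 : l = s
    · rw [h2, update_self, Equiv.swap_apply_left, hs']
    · rw [update_of_ne h2, Equiv.swap_apply_of_ne_of_ne h2 h1]

theorem step_down (hF : Sy c F) (hD : SlAct (K := K) c F De Df Dh) {J : Λ → Fin 2} (hJ : F J ≠ 0)
    {s : Λ} (hs : J s = 1) : F (update J s 0) ≠ 0 := by
  intro h0
  have h1 := hD.f (c s) (update J s 0)
  rw [h0, map_zero] at h1
  have h2 : ∀ s', (if c s' = c s ∧ update J s 0 s' = 0 then F (update (update J s 0) s' 1)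
      else 0) = (if c s' = c s ∧ update J s 0 s' = 0 then (1 : K) else 0) • F J := by
    intro s'
    by_cases h3 : c s' = c s ∧ update J s 0 s' = 0
    · rw [if_pos h3, if_pos h3, one_smul]
      by_cases h4 : s' = s
      · subst h4
        congr 1
        rw [update_idem]
        conv_rhs => rw [← update_eq_self s' J]
        rw [hs]
      · have h5 := h3.2
        rw [update_of_ne h4] at h5
        rw [swap_update (x := 1) (y := 0) (by decide) hs h5]
        exact hF s s' h3.1.symm J
    · rw [if_neg h3, if_neg h3, zero_smul]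
  rw [Finset.sum_congr rfl fun s' _ => h2 s', ← Finset.sum_smul] at h1
  have h3 := (smul_eq_zero.1 h1.symm).resolve_right hJ
  rw [Finset.sum_boole] at h3
  have h4 : s ∈ univ.filter fun s' => c s' = c s ∧ update J s 0 s' = 0 := by
    rw [Finset.mem_filter]
    exact ⟨mem_univ _, rfl, update_self _ _ _⟩
  have h5 := Finset.card_pos.2 ⟨s, h4⟩
  have h6 : (univ.filter fun s' => c s' = c s ∧ update J s 0 s' = 0).card = 0 := by
    exact_mod_cast h3
  omega

theorem step_up (hF : Sy c F) (hD : SlAct (K := K) c F De Df Dh) {J : Λ → Fin 2} (hJ : F J ≠ 0)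
    {s : Λ} (hs : J s = 0) : F (update J s 1) ≠ 0 := by
  intro h0
  have h1 := hD.e (c s) (update J s 1)
  rw [h0, map_zero] at h1
  have h2 : ∀ s', (if c s' = c s ∧ update J s 1 s' = 1 then F (update (update J s 1) s' 0)
      else 0) = (if c s' = c s ∧ update J s 1 s' = 1 then (1 : K) else 0) • F J := by
    intro s'
    by_cases h3 : c s' = c s ∧ update J s 1 s' = 1
    · rw [if_pos h3, if_pos h3, one_smul]
      by_cases h4 : s' = s
      · subst h4
        congr 1
        rw [update_idem]
        conv_rhs => rw [← update_eq_self s' J]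
        rw [hs]
      · have h5 := h3.2
        rw [update_of_ne h4] at h5
        rw [swap_update (x := 0) (y := 1) (by decide) hs h5]
        exact hF s s' h3.1.symm J
    · rw [if_neg h3, if_neg h3, zero_smul]
  rw [Finset.sum_congr rfl fun s' _ => h2 s', ← Finset.sum_smul] at h1
  have h3 := (smul_eq_zero.1 h1.symm).resolve_right hJ
  rw [Finset.sum_boole] at h3
  have h4 : s ∈ univ.filter fun s' => c s' = c s ∧ update J s 1 s' = 1 := by
    rw [Finset.mem_filter]
    exact ⟨mem_univ _, rfl, update_self _ _ _⟩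
  have h5 := Finset.card_pos.2 ⟨s, h4⟩
  have h6 : (univ.filter fun s' => c s' = c s ∧ update J s 1 s' = 1).card = 0 := by
    exact_mod_cast h3
  omega

/-- All values of a symmetric function are different from zero, or all are zero. -/
theorem all_ne (hF : Sy c F) (hD : SlAct (K := K) c F De Df Dh) {J : Λ → Fin 2} (hJ : F J ≠ 0)
    (J' : Λ → Fin 2) : F J' ≠ 0 := by
  have h1 : ∀ S : Finset Λ, F (S.piecewise J' J) ≠ 0 := by
    intro S
    induction S using Finset.induction_on with
    | empty => rwa [Finset.piecewise_empty]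
    | insert s S hs ih =>
      rw [Finset.piecewise_insert]
      by_cases h2 : S.piecewise J' J s = J' s
      · rw [← h2, update_eq_self]
        exact ih
      · have h4 : J' s = 0 ∨ J' s = 1 := by
          have := (J' s).isLt
          rcases (by omega : (J' s).val = 0 ∨ (J' s).val = 1) with h | h
          · exact Or.inl (Fin.ext h)
          · exact Or.inr (Fin.ext h)
        have h5 : S.piecewise J' J s = 0 ∨ S.piecewise J' J s = 1 := by
          have := (S.piecewise J' J s).isLt
          rcases (by omega : (S.piecewise J' J s).val = 0 ∨ (S.piecewise J' J s).val = 1) with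
            h | h
          · exact Or.inl (Fin.ext h)
          · exact Or.inr (Fin.ext h)
        rcases h4 with h4 | h4
        · rw [h4]
          refine step_down hF hD ih (h5.resolve_left fun h => h2 (h.trans h4.symm))
        · rw [h4]
          refine step_up hF hD ih (h5.resolve_right fun h => h2 (h.trans h4.symm))
  have h2 := h1 univ
  rwa [Finset.piecewise_univ] at h2

theorem wt_eq (J : Λ → Fin 2) (i : I) : wt c J i = ((univ.filter fun s => c s = i).card : ℤ) -
    2 * ((univ.filter fun s => c s = i ∧ J s = 1).card : ℤ) := by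
  have h1 : ∀ s, (if c s = i then (if J s = 0 then (1 : ℤ) else -1) else 0) =
      (if c s = i then 1 else 0) - 2 * (if c s = i ∧ J s = 1 then 1 else 0) := by
    intro s
    by_cases h2 : c s = i
    · by_cases h3 : J s = 0
      · have h4 : ¬(c s = i ∧ J s = 1) := fun h => by
          rw [h3] at h
          exact absurd h.2 (by decide)
        rw [if_pos h2, if_pos h3, if_pos h2, if_neg h4]
        norm_num
      · have h4 : J s = 1 := by
          have := (J s).isLt
          rcases (by omega : (J s).val = 0 ∨ (J s).val = 1) with h | h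
          · exact absurd (Fin.ext h) h3
          · exact Fin.ext h
        rw [if_pos h2, if_neg h3, if_pos h2, if_pos ⟨h2, h4⟩]
        norm_num
    · rw [if_neg h2, if_neg h2, if_neg fun h => h2 h.1]
      norm_num
  rw [wt, Finset.sum_congr rfl fun s _ => h1 s, Finset.sum_sub_distrib, Finset.sum_boole,
    ← Finset.mul_sum, Finset.sum_boole]

/-- **The number of weights of a symmetric function.** -/
theorem prod_le [Fintype I] {U : Submodule K E} [FiniteDimensional K U] (hF : Sy c F)
    (hD : SlAct (K := K) c F De Df Dh) {J : Λ → Fin 2} (hJ : F J ≠ 0) (hU : ∀ J, F J ∈ U) :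
    ∏ i, ((univ.filter fun s => c s = i).card + 1) ≤ finrank K U := by
  classical
  have hsub : ∀ (k : ∀ i : I, Fin ((univ.filter fun s => c s = i).card + 1)) (i : I),
      ∃ S : Finset Λ, S ⊆ (univ.filter fun s => c s = i) ∧ S.card = (k i : ℕ) := fun k i =>
    Finset.exists_subset_card_eq (Nat.lt_succ_iff.1 (k i).2)
  choose S hS hSc using hsub
  let Jk : (∀ i : I, Fin ((univ.filter fun s => c s = i).card + 1)) → Λ → Fin 2 :=
    fun k s => if s ∈ S k (c s) then 1 else 0
  have h1 : ∀ k i, (univ.filter fun s => c s = i ∧ Jk k s = 1) = S k i := by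
    intro k i
    ext s
    rw [Finset.mem_filter]
    constructor
    · rintro ⟨-, rfl, h⟩
      by_contra hcon
      rw [show Jk k s = 0 from if_neg hcon] at h
      exact absurd h (by decide)
    · intro hs
      have h2 : c s = i := (Finset.mem_filter.1 (hS k i hs)).2
      subst h2
      exact ⟨mem_univ _, rfl, if_pos hs⟩
  have h2 := card_le_of_joint (K := K) (U := U) Dh
    (fun k : (∀ i : I, Fin ((univ.filter fun s => c s = i).card + 1)) => wt c (Jk k))
    (fun k k' hk => by
      funext i
      have h3 := congrFun hk i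
      beta_reduce at h3
      rw [wt_eq, wt_eq, h1, h1, hSc, hSc] at h3
      apply Fin.ext
      omega) (fun k => F (Jk k)) (fun k => all_ne hF hD hJ _) (fun k i => hD.h i _)
    (fun k => hU _)
  refine le_trans (le_of_eq ?_) h2
  rw [Fintype.card_pi]
  exact Finset.prod_congr rfl fun i _ => (Fintype.card_fin _).symm

end words

section families

variable {K : Type} [Field K] [CharZero K] {E : Type} [AddCommGroup E] [Module K E]
  [FiniteDimensional K E] {I : Type} [DecidableEq I] [Fintype I]

/-- **The number of colours.** Every colour is involved in a nonzero symmetric function with values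
in the space `E`, on which the operators act. -/
theorem colours_le (De Df Dh : I → (E →ₗ[K] E))
    (hex : ∀ i : I, ∃ (n : ℕ) (c : Fin n → I) (F : (Fin n → Fin 2) → E), Sy c F ∧
      SlAct (K := K) c F De Df Dh ∧ (∃ J, F J ≠ 0) ∧ ∃ s, c s = i) :
    2 * Fintype.card I ≤ finrank K E := by
  classical
  choose n c F hF hD hJ hi using hex
  -- the supports
  let Φ : I → Finset I := fun i => univ.image (c i)
  have hΦ : ∀ i, i ∈ Φ i := fun i => by
    obtain ⟨s, hs⟩ := hi i
    exact Finset.mem_image.2 ⟨s, mem_univ _, hs⟩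
  let 𝒮 : Finset (Finset I) := univ.image Φ
  have hrep : ∀ Ψ : 𝒮, ∃ i, Φ i = Ψ := fun Ψ => by
    obtain ⟨i, -, h⟩ := Finset.mem_image.1 Ψ.2
    exact ⟨i, h⟩
  choose r hr using hrep
  -- the words
  let Jw : ∀ (Ψ : 𝒮) (S : Finset I), Fin (n (r Ψ)) → Fin 2 := fun Ψ S s =>
    if c (r Ψ) s ∈ S then 1 else 0
  have hwt : ∀ (Ψ : 𝒮) (S : Finset I) (j : I), wt (c (r Ψ)) (Jw Ψ S) j =
      (if j ∈ S then -1 else 1) * ((univ.filter fun s => c (r Ψ) s = j).card : ℤ) := by
    intro Ψ S j
    rw [wt_eq]
    by_cases hj : j ∈ S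
    · have h1 : (univ.filter fun s => c (r Ψ) s = j ∧ Jw Ψ S s = 1) =
          univ.filter fun s => c (r Ψ) s = j := by
        refine Finset.filter_congr fun s _ => ⟨fun h => h.1, fun h => ⟨h, ?_⟩⟩
        change (if c (r Ψ) s ∈ S then (1 : Fin 2) else 0) = 1
        rw [h, if_pos hj]
      rw [h1, if_pos hj]
      ring
    · have h1 : (univ.filter fun s => c (r Ψ) s = j ∧ Jw Ψ S s = 1) = ∅ := by
        refine Finset.filter_eq_empty_iff.2 fun s _ h => ?_
        have h2 : (if c (r Ψ) s ∈ S then (1 : Fin 2) else 0) = 1 := h.2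
        rw [h.1, if_neg hj] at h2
        exact absurd h2 (by decide)
      rw [h1, if_neg hj]
      simp
  have hpos : ∀ (Ψ : 𝒮) (j : I), (univ.filter fun s => c (r Ψ) s = j).card ≠ 0 ↔
      j ∈ (Ψ : Finset I) := by
    intro Ψ j
    rw [← hr Ψ, Finset.card_ne_zero, Finset.mem_image]
    constructor
    · rintro ⟨s, hs⟩
      exact ⟨s, mem_univ _, (Finset.mem_filter.1 hs).2⟩
    · rintro ⟨s, -, hs⟩
      exact ⟨s, Finset.mem_filter.2 ⟨mem_univ _, hs⟩⟩
  -- the index set
  let A : Type := Σ Ψ : 𝒮, (Ψ : Finset I).powerset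
  have hA : Fintype.card A = ∑ Ψ : 𝒮, 2 ^ (Ψ : Finset I).card := by
    rw [Fintype.card_sigma]
    refine Finset.sum_congr rfl fun Ψ _ => ?_
    rw [Fintype.card_coe, Finset.card_powerset]
  have h1 := card_le_of_joint (K := K) (U := (⊤ : Submodule K E)) Dh
    (fun a : A => wt (c (r a.1)) (Jw a.1 a.2.1))
    (fun a b hab => by
      obtain ⟨Ψ, S, hS⟩ := a
      obtain ⟨Ψ', S', hS'⟩ := b
      have h2 : ∀ j, (if j ∈ S then (-1 : ℤ) else 1) *
          ((univ.filter fun s => c (r Ψ) s = j).card : ℤ) =
          (if j ∈ S' then (-1 : ℤ) else 1) *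
          ((univ.filter fun s => c (r Ψ') s = j).card : ℤ) := fun j => by
        rw [← hwt, ← hwt]
        exact congrFun hab j
      have h3 : Ψ = Ψ' := by
        apply Subtype.ext
        ext j
        rw [← hpos Ψ, ← hpos Ψ', not_iff_not]
        have h4 := h2 j
        constructor
        · intro h5
          rw [h5, Nat.cast_zero, mul_zero] at h4
          have h6 : (if j ∈ S' then (-1 : ℤ) else 1) ≠ 0 := by split_ifs <;> norm_num
          exact_mod_cast (mul_eq_zero.1 h4.symm).resolve_left h6
        · intro h5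
          rw [h5, Nat.cast_zero, mul_zero] at h4
          have h6 : (if j ∈ S then (-1 : ℤ) else 1) ≠ 0 := by split_ifs <;> norm_num
          exact_mod_cast (mul_eq_zero.1 h4).resolve_left h6
      subst h3
      have h4 : S = S' := by
        ext j
        by_cases hj : j ∈ (Ψ : Finset I)
        · have h5 := h2 j
          have h6 : ((univ.filter fun s => c (r Ψ) s = j).card : ℤ) ≠ 0 := by
            exact_mod_cast (hpos Ψ j).2 hj
          have h7 := mul_right_cancel₀ h6 h5
          by_cases h8 : j ∈ S <;> by_cases h9 : j ∈ S'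
          · simp [h8, h9]
          · rw [if_pos h8, if_neg h9] at h7
            norm_num at h7
          · rw [if_neg h8, if_pos h9] at h7
            norm_num at h7
          · simp [h8, h9]
        · have h5 : j ∉ S := fun h => hj (Finset.mem_powerset.1 hS h)
          have h6 : j ∉ S' := fun h => hj (Finset.mem_powerset.1 hS' h)
          simp [h5, h6]
      subst h4
      rfl)
    (fun a => F (r a.1) (Jw a.1 a.2.1))
    (fun a => by
      obtain ⟨J, hJ'⟩ := hJ (r a.1)
      exact all_ne (hF _) (hD _) hJ' _)
    (fun a i => (hD _).h i _) (fun a => Submodule.mem_top)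
  rw [finrank_top, hA] at h1
  refine le_trans ?_ h1
  have h2 : (univ : Finset I) = 𝒮.biUnion id := by
    ext j
    simp only [Finset.mem_univ, Finset.mem_biUnion, id, true_iff]
    exact ⟨Φ j, Finset.mem_image_of_mem _ (mem_univ _), hΦ j⟩
  have h3 : Fintype.card I ≤ ∑ Ψ ∈ 𝒮, Ψ.card := by
    rw [← Finset.card_univ, h2]
    exact Finset.card_biUnion_le
  have h4 : ∀ m : ℕ, 2 * m ≤ 2 ^ m := by
    intro m
    induction m with
    | zero => norm_num
    | succ m ih =>
      rcases Nat.eq_zero_or_pos m with rfl | hm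
      · norm_num
      · rw [pow_succ]
        omega
  calc 2 * Fintype.card I ≤ 2 * ∑ Ψ ∈ 𝒮, Ψ.card := Nat.mul_le_mul_left 2 h3
    _ = ∑ Ψ ∈ 𝒮, 2 * Ψ.card := by rw [Finset.mul_sum]
    _ ≤ ∑ Ψ ∈ 𝒮, 2 ^ Ψ.card := Finset.sum_le_sum fun Ψ _ => h4 _
    _ = ∑ Ψ : 𝒮, 2 ^ (Ψ : Finset I).card := by
      rw [← Finset.sum_coe_sort 𝒮 fun Ψ => 2 ^ Ψ.card]

end families

end Pool.Agent.Y132.EP
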