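import Pool.Agent.Y132.EP.Asm2

/-!
# The Tate conjecture for subproducts
-/

open CategoryTheory AlgebraicGeometry Finset Function

set_option linter.unusedSectionVars false

universe u v w

namespace Pool.Agent.Y132.EP

open Pool.Agent.H914 Pool.Agent.H914.VarClass Pool.Agent.H914.VarClass.Obj
  Pool.Agent.H914.WeilCohomology Pool.Agent.H281R3.HT Pool.Agent.W552 Pool.Agent.TH125.Gal

variable {k : Type u} [Field k] {𝒱 : VarClass k} {ops : CycleOps 𝒱}
  {W : WeilCohomology.{u, v} ops} {Γ : Type w} [Group Γ] {ι : Type} {Λ : Type}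
  {χ : Γ →* W.Kˣ} {X : ι → DG W Γ} {c : Λ → ι} {Z : DG W Γ}

/-- Equivariant morphisms in both directions which are inverse on the cohomology. -/
def EqIso (A B : DG W Γ) : Prop :=
  ∃ (r : A.X ⟶ B.X) (s : B.X ⟶ A.X), (∀ g y, A.act g (W.map r y) = W.map r (B.act g y)) ∧
    ∀ y, W.map s (W.map r y) = y

theorem EqIso.tate {A B : DG W Γ} (h : EqIso A B) (hT : TateConjecture χ A.toGVar) :
    TateConjecture χ B.toGVar := by
  obtain ⟨r, s, h1, h2⟩ := h
  intro j b hb ⟨Δ, hΔ, hact⟩
  have h3 := hT j (W.map r b) (W.map_mem _ hb) ⟨Δ, hΔ, fun g hg => by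
    rw [h1, hact g hg, map_smul]⟩
  have h4 : W.map s (W.map r b) ∈ algSpan W B.X :=
    algSpan_map s (Submodule.span_mono (Set.subset_iUnion _ j) h3)
  rw [h2] at h4
  exact algSpan_gr h4 hb

theorem EqIso.refl (A : DG W Γ) : EqIso A A :=
  ⟨𝟙 _, 𝟙 _, fun g y => by rw [W.map_id, W.map_id], fun y => by rw [W.map_id, W.map_id]⟩

theorem EqIso.trans {A B C : DG W Γ} (h : EqIso A B) (h' : EqIso B C) : EqIso A C := by
  obtain ⟨r, s, h1, h2⟩ := h
  obtain ⟨r', s', h1', h2'⟩ := h'
  refine ⟨r ≫ r', s' ≫ s, fun g y => ?_, fun y => ?_⟩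
  · rw [W.map_comp, W.map_comp, h1, h1']
  · rw [W.map_comp, W.map_comp, h2, h2']

theorem EqIso.cons (C : DG W Γ) {A B : DG W Γ} (h : EqIso A B) :
    EqIso (C.prod A) (C.prod B) := by
  obtain ⟨r, s, h1, h2⟩ := h
  refine ⟨idm C.X r, idm C.X s, fun g y => ?_, fun y => ?_⟩
  · refine W.kunneth_induction (p := fun y => (C.prod A).act g (W.map (idm C.X r) y) =
      W.map (idm C.X r) ((C.prod B).act g y)) ?_ ?_ y
    · intro a b ha hb
      rw [map_add, map_add, ha, hb, map_add, map_add]
    · intro i j a _ b _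
      rw [map_idm, DG.act_ext, DG.act_ext, map_idm, h1]
  · refine W.kunneth_induction (p := fun y => W.map (idm C.X s) (W.map (idm C.X r) y) = y)
      ?_ ?_ y
    · intro a b ha hb
      rw [map_add, map_add, ha, hb]
    · intro i j a _ b _
      rw [map_idm, map_idm, h2]

theorem map_exm' (A A' B : 𝒱.Obj) (a : W.H A') (a' : W.H A) (b : W.H B) :
    W.map (exm A' A B) (W.map (snd A (A'.prod B)) (W.map (fst A' B) a) *
        (W.map (fst A (A'.prod B)) a' * W.map (snd A (A'.prod B)) (W.map (snd A' B) b))) =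
      W.map (fst A' (A.prod B)) a * W.map (snd A' (A.prod B))
      (W.map (fst A B) a' * W.map (snd A B) b) := by
  rw [map_mul, map_mul, map_mul, ← W.map_comp, ← W.map_comp, ← W.map_comp, ← W.map_comp,
    ← W.map_comp, exm, Obj.lift_fst, Obj.lift_snd, Obj.lift_fst, Obj.lift_snd, W.map_comp,
    W.map_comp]

theorem EqIso.exch (A A' B : DG W Γ) :
    EqIso (A.prod (A'.prod B)) (A'.prod (A.prod B)) := by
  refine ⟨exm A.X A'.X B.X, exm A'.X A.X B.X, fun g y => ?_, fun y => ?_⟩
  · refine W.kunneth_induction (p := fun y => (A.prod (A'.prod B)).act g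
      (W.map (exm A.X A'.X B.X) y) =
      W.map (exm A.X A'.X B.X) ((A'.prod (A.prod B)).act g y)) ?_ ?_ y
    · intro a b ha hb
      rw [map_add, map_add, ha, hb, map_add, map_add]
    · intro i j a _ w _
      refine W.kunneth_induction (p := fun w => (A.prod (A'.prod B)).act g
        (W.map (exm A.X A'.X B.X) (W.map (fst A'.X (A.X.prod B.X)) a *
          W.map (snd A'.X (A.X.prod B.X)) w)) =
        W.map (exm A.X A'.X B.X) ((A'.prod (A.prod B)).act g (W.map (fst A'.X (A.X.prod B.X)) a *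
          W.map (snd A'.X (A.X.prod B.X)) w))) ?_ ?_ w
      · intro w w' hw hw'
        rw [map_add, mul_add, map_add, map_add, map_add, map_add, hw, hw']
      · intro i' j' a' _ b _
        have e1 := DG.act_ext A' (A.prod B) g a (W.map (fst A.X B.X) a' * W.map (snd A.X B.X) b)
        have e2 := DG.act_ext A B g a' b
        rw [e2] at e1
        refine Eq.trans ?_ (congrArg (W.map (exm A.X A'.X B.X)) e1.symm)
        rw [map_exm, map_exm, map_mul, map_mul]
        have e3 : ∀ z, (A.prod (A'.prod B)).act g (W.map (snd A.X (A'.X.prod B.X)) z) =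
            W.map (snd A.X (A'.X.prod B.X)) ((A'.prod B).act g z) :=
          fun z => DG.act_snd A (A'.prod B) g z
        have e4 : ∀ z, (A.prod (A'.prod B)).act g (W.map (fst A.X (A'.X.prod B.X)) z) =
            W.map (fst A.X (A'.X.prod B.X)) (A.act g z) :=
          fun z => DG.act_fst A (A'.prod B) g z
        rw [e3, e3, e4, DG.act_fst, DG.act_snd]
  · refine W.kunneth_induction (p := fun y => W.map (exm A'.X A.X B.X)
      (W.map (exm A.X A'.X B.X) y) = y) ?_ ?_ y
    · intro a b ha hb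
      rw [map_add, map_add, ha, hb]
    · intro i j a _ w _
      refine W.kunneth_induction (p := fun w => W.map (exm A'.X A.X B.X)
        (W.map (exm A.X A'.X B.X) (W.map (fst A'.X (A.X.prod B.X)) a *
          W.map (snd A'.X (A.X.prod B.X)) w)) = W.map (fst A'.X (A.X.prod B.X)) a *
          W.map (snd A'.X (A.X.prod B.X)) w) ?_ ?_ w
      · intro w w' hw hw'
        rw [map_add, mul_add, map_add, map_add, hw, hw']
      · intro i' j' a' _ b _
        rw [map_exm, map_exm']

theorem EqIso.perm {l l' : List Λ} (h : l.Perm l') : EqIso (tow X Z c l) (tow X Z c l') := by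
  induction h with
  | nil => exact EqIso.refl _
  | cons s _ ih => exact ih.cons (X (c s))
  | swap s t l => exact EqIso.exch _ _ _
  | trans _ _ ih1 ih2 => exact ih1.trans ih2

/-- The Tate conjecture for a product implies it for the second factor. -/
theorem tate_drop {A B : DG W Γ} (hDX : HomEqNum W A.X) (h1 : (1 : W.H A.X) ≠ 0)
    (hT : TateConjecture χ (A.prod B).toGVar) : TateConjecture χ B.toGVar := by
  intro j b hb ⟨Δ, hΔ, hact⟩
  have h2 := hT j (W.map (snd A.X B.X) b) (W.map_mem _ hb) ⟨Δ, hΔ, fun g hg => by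
    rw [DG.act_snd, hact g hg, map_smul]⟩
  obtain ⟨a, ha, ha0⟩ := exists_pt hDX h1
  have h3 : W.push (snd A.X B.X) (W.map (fst A.X B.X) a * W.map (snd A.X B.X) b) ∈
      algSpan W B.X :=
    algSpan_push _ (algSpan_mul (algSpan_map _ (alg_mem ha))
      (Submodule.span_mono (Set.subset_iUnion _ j) h2))
  rw [W.push_snd] at h3
  have h4 := Submodule.smul_mem _ (W.tr A.X a)⁻¹ h3
  rw [smul_smul, inv_mul_cancel₀ ha0, one_smul] at h4
  exact algSpan_gr h4 hb

theorem tate_append (hDX : ∀ i, HomEqNum W (X i).X) (h1 : ∀ i, (1 : W.H (X i).X) ≠ 0)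
    {l l' : List Λ} (hT : TateConjecture χ (tow X Z c (l ++ l')).toGVar) :
    TateConjecture χ (tow X Z c l').toGVar := by
  induction l with
  | nil => exact hT
  | cons s l ih => exact ih (tate_drop (hDX (c s)) (h1 (c s)) hT)

/-- **The Tate conjecture for a product implies it for all subproducts.** -/
theorem tate_sublist (hDX : ∀ i, HomEqNum W (X i).X) (h1 : ∀ i, (1 : W.H (X i).X) ≠ 0)
    {l l' : List Λ} (h : l'.Sublist l) (hT : TateConjecture χ (tow X Z c l).toGVar) :
    TateConjecture χ (tow X Z c l').toGVar := by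
  obtain ⟨l'', hl⟩ := h.exists_perm_append
  exact tate_append hDX h1 ((EqIso.perm (hl.trans List.perm_append_comm)).tate hT)

end Pool.Agent.Y132.EP
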