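import Pool.Agent.Y132.EP.Tow

/-!
# Classes on products given by functions on words
-/

open CategoryTheory AlgebraicGeometry Finset Function

set_option linter.unusedSectionVars false

universe u v w

namespace Pool.Agent.Y132.EP

open Pool.Agent.H914 Pool.Agent.H914.VarClass Pool.Agent.H914.VarClass.Obj
  Pool.Agent.H914.WeilCohomology Pool.Agent.H281R3.HT Pool.Agent.W552 Pool.Agent.TH125.Gal

/-- replacing the letter at the position `s` -/
def upd {Λ : Type} [DecidableEq Λ] {E : Type*} (s : Λ) (b : Fin 2) (G : (Λ → Fin 2) → E) :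
    (Λ → Fin 2) → E := fun J => G (update J s b)

section words

variable {K : Type*} [Field K] {E E' : Type*} [AddCommGroup E] [Module K E] [AddCommGroup E']
  [Module K E'] {Λ : Type} [DecidableEq Λ]

/-- The action of a matrix at the position `s`. -/
def Sp (N : Fin 2 → Fin 2 → K) (s : Λ) (G : (Λ → Fin 2) → E) : (Λ → Fin 2) → E :=
  fun J => ∑ b, N (J s) b • G (update J s b)

/-- The action of matrices at the positions of a list. -/
def SL (N : Λ → Fin 2 → Fin 2 → K) : List Λ → ((Λ → Fin 2) → E) → ((Λ → Fin 2) → E)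
  | [], G => G
  | s :: l, G => Sp (N s) s (SL N l G)

/-- `F` depends only on the letters at the positions of the list. -/
def Dep (l : List Λ) (F : (Λ → Fin 2) → E) : Prop :=
  ∀ J J' : Λ → Fin 2, (∀ s ∈ l, J s = J' s) → F J = F J'

theorem Sp_add (N : Fin 2 → Fin 2 → K) (s : Λ) (G G' : (Λ → Fin 2) → E) :
    Sp N s (G + G') = Sp N s G + Sp N s G' := by
  funext J
  simp only [Sp, Pi.add_apply, smul_add, Finset.sum_add_distrib]

theorem Sp_smul (N : Fin 2 → Fin 2 → K) (s : Λ) (r : K) (G : (Λ → Fin 2) → E) :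
    Sp N s (r • G) = r • Sp N s G := by
  funext J
  simp only [Sp, Pi.smul_apply, Finset.smul_sum]
  exact Finset.sum_congr rfl fun b _ => smul_comm _ _ _

theorem Sp_comm (N N' : Fin 2 → Fin 2 → K) {s t : Λ} (hst : s ≠ t) (G : (Λ → Fin 2) → E) :
    Sp N s (Sp N' t G) = Sp N' t (Sp N s G) := by
  funext J
  simp only [Sp, Finset.smul_sum]
  rw [Finset.sum_comm]
  refine Finset.sum_congr rfl fun b _ => Finset.sum_congr rfl fun b' _ => ?_
  rw [update_of_ne hst.symm, update_of_ne hst, update_comm hst, smul_comm]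

theorem SL_add (N : Λ → Fin 2 → Fin 2 → K) (l : List Λ) (G G' : (Λ → Fin 2) → E) :
    SL N l (G + G') = SL N l G + SL N l G' := by
  induction l with
  | nil => rfl
  | cons s l ih => rw [SL, SL, SL, ih, Sp_add]

theorem SL_smul (N : Λ → Fin 2 → Fin 2 → K) (l : List Λ) (r : K) (G : (Λ → Fin 2) → E) :
    SL N l (r • G) = r • SL N l G := by
  induction l with
  | nil => rfl
  | cons s l ih => rw [SL, SL, ih, Sp_smul]

theorem SL_append (N : Λ → Fin 2 → Fin 2 → K) (l l' : List Λ) (G : (Λ → Fin 2) → E) :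
    SL N (l ++ l') G = SL N l (SL N l' G) := by
  induction l with
  | nil => rfl
  | cons s l ih => rw [List.cons_append, SL, SL, ih]

theorem SL_perm (N : Λ → Fin 2 → Fin 2 → K) {l l' : List Λ} (h : l.Perm l') (hl : l.Nodup)
    (G : (Λ → Fin 2) → E) : SL N l G = SL N l' G := by
  induction h with
  | nil => rfl
  | cons s _ ih => rw [SL, SL, ih (List.nodup_cons.1 hl).2]
  | swap s t l =>
    rw [SL, SL, SL, SL, Sp_comm]
    rintro rfl
    exact (List.nodup_cons.1 hl).1 List.mem_cons_self
  | trans h1 _ ih1 ih2 => rw [ih1 hl, ih2 (h1.nodup_iff.1 hl)]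

/-- Operations at other positions. -/
theorem SL_upd (N : Λ → Fin 2 → Fin 2 → K) {l : List Λ} {s : Λ} (hs : s ∉ l) (b : Fin 2)
    (G : (Λ → Fin 2) → E) : SL N l (upd s b G) = upd s b (SL N l G) := by
  induction l with
  | nil => rfl
  | cons t l ih =>
    rw [List.mem_cons, not_or] at hs
    rw [SL, SL, ih hs.2]
    funext J
    simp only [Sp, upd]
    refine Finset.sum_congr rfl fun b' _ => ?_
    rw [update_of_ne (Ne.symm hs.1), update_comm hs.1]

/-- Linear maps, depending on the letters at other positions. -/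
theorem SL_lin (N : Λ → Fin 2 → Fin 2 → K) {l : List Λ} (φ : (Λ → Fin 2) → (E →ₗ[K] E'))
    (hφ : ∀ s ∈ l, ∀ b J, φ (update J s b) = φ J) (G : (Λ → Fin 2) → E) :
    SL N l (fun J => φ J (G J)) = fun J => φ J (SL N l G J) := by
  induction l with
  | nil => rfl
  | cons t l ih =>
    rw [SL, ih fun s hs => hφ s (List.mem_cons_of_mem _ hs)]
    funext J
    simp only [Sp, SL, map_sum, map_smul]
    refine Finset.sum_congr rfl fun b' _ => ?_
    rw [hφ t List.mem_cons_self]

theorem dep_SL (N : Λ → Fin 2 → Fin 2 → K) {l l' : List Λ} {G : (Λ → Fin 2) → E}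
    (hG : Dep l G) (hl : ∀ s ∈ l', s ∈ l) : Dep l (SL N l' G) := by
  induction l' with
  | nil => exact hG
  | cons t l' ih =>
    have ih' := ih fun s hs => hl s (List.mem_cons_of_mem _ hs)
    intro J J' hJ
    simp only [SL, Sp]
    refine Finset.sum_congr rfl fun b _ => ?_
    rw [hJ t (hl t List.mem_cons_self)]
    congr 1
    refine ih' _ _ fun s hs => ?_
    by_cases hst : s = t
    · subst hst
      rw [update_self, update_self]
    · rw [update_of_ne hst, update_of_ne hst]
      exact hJ s hs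

end words

variable {k : Type u} [Field k] {𝒱 : VarClass k} {ops : CycleOps 𝒱}
  {W : WeilCohomology.{u, v} ops} {Γ : Type w} [Group Γ] {ι : Type} {Λ : Type} [DecidableEq Λ]

/-- The data: for every variety `X i` the transcendental cohomology has a basis of two elements,
with its dual basis. -/
structure Frame2 (X : 𝒱.Obj) (W : WeilCohomology.{u, v} ops) where
  /-- the bases -/
  s : SB W X
  two : s.NT = 2

namespace Frame2

variable {X : 𝒱.Obj} (f : Frame2 X W)

/-- the basis of the transcendental part -/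
noncomputable def t (a : Fin 2) : W.H X := f.s.bT (Fin.cast f.two.symm a)

/-- the dual basis -/
noncomputable def u (a : Fin 2) : W.H X := f.s.uT (Fin.cast f.two.symm a)

theorem t_mem (a : Fin 2) : f.t a ∈ transcendental W X := (f.s.bT _).2

theorem u_mem (a : Fin 2) : f.u a ∈ transcendental W X := (f.s.uT _).2

theorem u_t (a b : Fin 2) : bil W X (f.u a) (f.t b) = if b = a then 1 else 0 := by
  rw [u, t, f.s.uT_bT]
  refine if_congr ⟨fun h => ?_, fun h => by rw [h]⟩ rfl rfl
  exact Fin.cast_injective _ h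

theorem sum_cast {M : Type*} [AddCommMonoid M] (g : Fin f.s.NT → M) :
    ∑ i, g i = ∑ a : Fin 2, g (Fin.cast f.two.symm a) :=
  (Fintype.sum_equiv (finCongr f.two.symm) _ _ fun _ => rfl).symm

theorem expand_t {x : W.H X} (hx : x ∈ transcendental W X) :
    x = ∑ a, bil W X (f.u a) x • f.t a := by
  conv_lhs => rw [f.s.expand_T hx, f.sum_cast]
  rfl

/-- the coordinates of the second factor -/
noncomputable def cT (f : Frame2 X W) (Z : 𝒱.Obj) (a : Fin 2) : W.H (X.prod Z) →ₗ[W.K] W.H Z :=
  ctr (f.s.e.coord (Sum.inr (Fin.cast f.two.symm a)))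

/-- the coordinates of the second factor -/
noncomputable def cC (f : Frame2 X W) (Z : 𝒱.Obj) (n : Fin f.s.NC) :
    W.H (X.prod Z) →ₗ[W.K] W.H Z :=
  ctr (f.s.e.coord (Sum.inl n))

theorem coord_inr (a : Fin 2) (x : W.H X) :
    f.s.e.coord (Sum.inr (Fin.cast f.two.symm a)) x = bil W X (f.u a) x := by
  have h1 : f.s.e.coord (Sum.inr (Fin.cast f.two.symm a)) = bil W X (f.u a) := by
    refine f.s.e.ext fun j => ?_
    rw [Module.Basis.coord_apply, Module.Basis.repr_self]
    have h2 := f.s.es_e (Sum.inr (Fin.cast f.two.symm a)) j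
    refine Eq.trans ?_ h2.symm
    by_cases h : j = Sum.inr (Fin.cast f.two.symm a)
    · subst h
      rw [Finsupp.single_eq_same, if_pos rfl]
    · rw [Finsupp.single_eq_of_ne (Ne.symm h), if_neg h]
  rw [h1]

theorem coord_inl (n : Fin f.s.NC) (x : W.H X) :
    f.s.e.coord (Sum.inl n) x = bil W X (f.s.uC n) x := by
  have h1 : f.s.e.coord (Sum.inl n) = bil W X (f.s.uC n) := by
    refine f.s.e.ext fun j => ?_
    rw [Module.Basis.coord_apply, Module.Basis.repr_self]
    have h2 := f.s.es_e (Sum.inl n) j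
    refine Eq.trans ?_ h2.symm
    by_cases h : j = Sum.inl n
    · subst h
      rw [Finsupp.single_eq_same, if_pos rfl]
    · rw [Finsupp.single_eq_of_ne (Ne.symm h), if_neg h]
  rw [h1]

theorem cT_ext (Z : 𝒱.Obj) (a : Fin 2) (x : W.H X) (z : W.H Z) :
    f.cT Z a (W.map (fst X Z) x * W.map (snd X Z) z) = bil W X (f.u a) x • z := by
  rw [cT, ctr_apply, coord_inr]

theorem cC_ext (Z : 𝒱.Obj) (n : Fin f.s.NC) (x : W.H X) (z : W.H Z) :
    f.cC Z n (W.map (fst X Z) x * W.map (snd X Z) z) = bil W X (f.s.uC n) x • z := by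
  rw [cC, ctr_apply, coord_inl]

/-- the expansion of a class on a product -/
theorem expand_prod (Z : 𝒱.Obj) (y : W.H (X.prod Z)) :
    y = (∑ n, W.map (fst X Z) (f.s.bC n : W.H X) * W.map (snd X Z) (f.cC Z n y)) +
      ∑ a, W.map (fst X Z) (f.t a) * W.map (snd X Z) (f.cT Z a y) := by
  have h1 := expand f.s.e y
  rw [Fintype.sum_sum_type, f.sum_cast] at h1
  simp only [f.s.e_inl, f.s.e_inr] at h1
  exact h1

end Frame2

variable (X : ι → DG W Γ) (c : Λ → ι) (f : ∀ i, Frame2 (X i).X W)

/-- The matrices of the action. -/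
noncomputable def Nm (g : Γ) (s : Λ) (a b : Fin 2) : W.K :=
  bil W (X (c s)).X ((f (c s)).u a) ((X (c s)).act g ((f (c s)).t b))

/-- The class on the product given by a function on words. -/
noncomputable def asm (Z : DG W Γ) : ∀ l : List Λ, ((Λ → Fin 2) → W.H Z.X) →
    W.H (tow X Z c l).X
  | [], F => F fun _ => 0
  | s :: l, F => ∑ a, W.map (fst (X (c s)).X (tow X Z c l).X) ((f (c s)).t a) *
      W.map (snd (X (c s)).X (tow X Z c l).X) (asm Z l (upd s a F))

variable {X c f}

theorem asm_nil (Z : DG W Γ) (F : (Λ → Fin 2) → W.H Z.X) :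
    asm X c f Z [] F = F fun _ => 0 := rfl

theorem asm_cons (Z : DG W Γ) (s : Λ) (l : List Λ) (F : (Λ → Fin 2) → W.H Z.X) :
    asm X c f Z (s :: l) F = ∑ a, W.map (fst (X (c s)).X (tow X Z c l).X) ((f (c s)).t a) *
      W.map (snd (X (c s)).X (tow X Z c l).X) (asm X c f Z l (upd s a F)) := rfl

theorem asm_add {Z : DG W Γ} (l : List Λ) : ∀ (F F' : (Λ → Fin 2) → W.H Z.X),
    asm X c f Z l (F + F') = asm X c f Z l F + asm X c f Z l F' := by
  induction l with
  | nil => intro F F'; rfl
  | cons s l ih =>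
    intro F F'
    rw [asm_cons, asm_cons, asm_cons, ← Finset.sum_add_distrib]
    refine Finset.sum_congr rfl fun a _ => ?_
    rw [show upd s a (F + F') = upd s a F + upd s a F' from rfl, ih, map_add, mul_add]

theorem asm_smul {Z : DG W Γ} (l : List Λ) : ∀ (r : W.K) (F : (Λ → Fin 2) → W.H Z.X),
    asm X c f Z l (r • F) = r • asm X c f Z l F := by
  induction l with
  | nil => intro r F; rfl
  | cons s l ih =>
    intro r F
    rw [asm_cons, asm_cons, Finset.smul_sum]
    refine Finset.sum_congr rfl fun a _ => ?_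
    rw [show upd s a (r • F) = r • upd s a F from rfl, ih, map_smul, mul_smul_comm]

theorem asm_zero {Z : DG W Γ} (l : List Λ) : asm X c f Z l (0 : (Λ → Fin 2) → W.H Z.X) = 0 := by
  have h := asm_smul (X := X) (c := c) (f := f) (Z := Z) l 0 0
  rwa [zero_smul, zero_smul] at h

theorem asm_sum {Z : DG W Γ} (l : List Λ) {R : Type*} (t : Finset R)
    (F : R → (Λ → Fin 2) → W.H Z.X) :
    asm X c f Z l (∑ r ∈ t, F r) = ∑ r ∈ t, asm X c f Z l (F r) := by
  classical
  induction t using Finset.induction_on with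
  | empty => rw [Finset.sum_empty, Finset.sum_empty, asm_zero]
  | insert r t hr ih => rw [Finset.sum_insert hr, Finset.sum_insert hr, asm_add, ih]

/-- Functions with the same values on the words supported in the list. -/
theorem asm_congr {Z : DG W Γ} (l : List Λ) : ∀ (F F' : (Λ → Fin 2) → W.H Z.X),
    (∀ J, (∀ s, s ∉ l → J s = 0) → F J = F' J) → asm X c f Z l F = asm X c f Z l F' := by
  induction l with
  | nil => intro F F' h; exact h _ fun _ _ => rfl
  | cons s l ih =>
    intro F F' h
    rw [asm_cons, asm_cons]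
    refine Finset.sum_congr rfl fun a _ => ?_
    rw [ih (upd s a F) (upd s a F') fun J hJ => ?_]
    refine h _ fun t ht => ?_
    rw [List.mem_cons, not_or] at ht
    rw [update_of_ne ht.1]
    exact hJ t ht.2

/-- **Injectivity.** -/
theorem asm_inj {Z : DG W Γ} (l : List Λ) : ∀ (F : (Λ → Fin 2) → W.H Z.X),
    asm X c f Z l F = 0 → ∀ J, (∀ s, s ∉ l → J s = 0) → F J = 0 := by
  induction l with
  | nil =>
    intro F h J hJ
    rw [show J = fun _ => 0 from funext fun s => hJ s List.not_mem_nil]
    exact h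
  | cons s l ih =>
    intro F h J hJ
    have h1 := congrArg ((f (c s)).cT (tow X Z c l).X (J s)) h
    rw [map_zero, asm_cons, map_sum, Finset.sum_eq_single (J s)] at h1
    · rw [Frame2.cT_ext, Frame2.u_t, if_pos rfl, one_smul] at h1
      have h2 := ih _ h1 (update J s 0) fun t ht => by
        by_cases hts : t = s
        · rw [hts, update_self]
        · rw [update_of_ne hts]
          exact hJ t (by
            rw [List.mem_cons, not_or]
            exact ⟨hts, ht⟩)
      rw [upd, update_idem, update_eq_self] at h2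
      exact h2
    · intro b _ hb
      rw [Frame2.cT_ext, Frame2.u_t, if_neg hb, zero_smul]
    · intro h3
      exact absurd (Finset.mem_univ _) h3

/-- **Equivariance.** -/
theorem asm_act {Z : DG W Γ} (hX : ∀ i g, ∀ t ∈ transcendental W (X i).X,
    (X i).act g t ∈ transcendental W (X i).X) (g : Γ) {l : List Λ} (hl : l.Nodup) :
    ∀ F : (Λ → Fin 2) → W.H Z.X, (tow X Z c l).act g (asm X c f Z l F) =
      asm X c f Z l (SL (Nm X c f g) l fun J => Z.act g (F J)) := by
  induction l with
  | nil => intro F; rfl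
  | cons s l ih =>
    intro F
    obtain ⟨hs, hl'⟩ := List.nodup_cons.1 hl
    rw [asm_cons, map_sum]
    have h1 : ∀ a, (tow X Z c (s :: l)).act g (W.map (fst (X (c s)).X (tow X Z c l).X)
        ((f (c s)).t a) * W.map (snd (X (c s)).X (tow X Z c l).X) (asm X c f Z l (upd s a F))) =
        ∑ b, W.map (fst (X (c s)).X (tow X Z c l).X) ((f (c s)).t b) *
          W.map (snd (X (c s)).X (tow X Z c l).X) (asm X c f Z l (Nm X c f g s b a •
            SL (Nm X c f g) l fun J => Z.act g (upd s a F J))) := by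
      intro a
      refine (DG.act_ext (X (c s)) (tow X Z c l) g _ _).trans ?_
      rw [ih hl', (f (c s)).expand_t (hX (c s) g _ ((f (c s)).t_mem a)), map_sum, Finset.sum_mul]
      refine Finset.sum_congr rfl fun b _ => ?_
      rw [map_smul, asm_smul, map_smul, smul_mul_assoc, mul_smul_comm]
      rfl
    rw [Finset.sum_congr rfl fun a _ => h1 a, Finset.sum_comm, asm_cons]
    refine Finset.sum_congr rfl fun b _ => ?_
    rw [← Finset.mul_sum, ← map_sum, ← asm_sum]
    congr 3
    funext J
    rw [Finset.sum_apply]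
    simp only [upd, SL, Sp, Pi.smul_apply, update_self, update_idem]
    refine Finset.sum_congr rfl fun a _ => ?_
    congr 1
    have h2 := SL_upd (Nm X c f g) hs a (fun J => Z.act g (F J))
    exact congrFun h2 J

/-- The dimension of the positions. -/
def dsum (X : ι → DG W Γ) (c : Λ → ι) (l : List Λ) : ℕ := (l.map fun s => (X (c s)).X.dim).sum

theorem asm_gr {Z : DG W Γ} (hmid : ∀ i, transcendental W (X i).X ≤
    W.gr (X i).X (X i).X.dim) {m : ℕ} (l : List Λ) : ∀ (F : (Λ → Fin 2) → W.H Z.X),
    (∀ J, F J ∈ W.gr Z.X m) → asm X c f Z l F ∈ W.gr (tow X Z c l).X (m + dsum X c l) := by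
  induction l with
  | nil => intro F h; exact h _
  | cons s l ih =>
    intro F h
    rw [asm_cons]
    refine Submodule.sum_mem _ fun a _ => ?_
    have h1 : m + dsum X c (s :: l) = (X (c s)).X.dim + (m + dsum X c l) := by
      simp only [dsum, List.map_cons, List.sum_cons]
      omega
    rw [h1]
    exact W.mul_mem (W.map_mem _ (hmid _ ((f (c s)).t_mem a)))
      (W.map_mem _ (ih _ fun J => h _))

end Pool.Agent.Y132.EP
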