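import Pool.Agent.Y132.EP.Asm

/-!
# Permutations of the factors, pairs of factors
-/

open CategoryTheory AlgebraicGeometry Finset Function

set_option linter.unusedSectionVars false

universe u v w

namespace Pool.Agent.Y132.EP

open Pool.Agent.H914 Pool.Agent.H914.VarClass Pool.Agent.H914.VarClass.Obj
  Pool.Agent.H914.WeilCohomology Pool.Agent.H281R3.HT Pool.Agent.W552 Pool.Agent.TH125.Gal

section upd

variable {Λ : Type} [DecidableEq Λ] {E : Type*}

theorem upd_comm {s t : Λ} (hst : s ≠ t) (a b : Fin 2) (G : (Λ → Fin 2) → E) :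
    upd s a (upd t b G) = upd t b (upd s a G) := by
  funext J
  simp only [upd]
  rw [update_comm hst]

end upd

variable {k : Type u} [Field k] {𝒱 : VarClass k} {ops : CycleOps 𝒱}
  {W : WeilCohomology.{u, v} ops} {Γ : Type w} [Group Γ] {ι : Type} {Λ : Type} [DecidableEq Λ]
  {X : ι → DG W Γ} {c : Λ → ι} {f : ∀ i, Frame2 (X i).X W}

/-- The morphism `id × f`. -/
noncomputable def idm (A : 𝒱.Obj) {B B' : 𝒱.Obj} (φ : B ⟶ B') : A.prod B ⟶ A.prod B' :=
  Obj.lift (fst A B) (snd A B ≫ φ)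

theorem map_idm (A : 𝒱.Obj) {B B' : 𝒱.Obj} (φ : B ⟶ B') (a : W.H A) (b : W.H B') :
    W.map (idm A φ) (W.map (fst A B') a * W.map (snd A B') b) =
      W.map (fst A B) a * W.map (snd A B) (W.map φ b) := by
  rw [map_mul, ← W.map_comp, ← W.map_comp, idm, Obj.lift_fst, Obj.lift_snd, W.map_comp]

/-- The exchange of the first two factors. -/
noncomputable def exm (A A' B : 𝒱.Obj) : A.prod (A'.prod B) ⟶ A'.prod (A.prod B) :=
  Obj.lift (snd A (A'.prod B) ≫ fst A' B)
    (Obj.lift (fst A (A'.prod B)) (snd A (A'.prod B) ≫ snd A' B))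

theorem map_exm (A A' B : 𝒱.Obj) (a : W.H A') (a' : W.H A) (b : W.H B) :
    W.map (exm A A' B) (W.map (fst A' (A.prod B)) a * W.map (snd A' (A.prod B))
      (W.map (fst A B) a' * W.map (snd A B) b)) =
      W.map (snd A (A'.prod B)) (W.map (fst A' B) a) *
        (W.map (fst A (A'.prod B)) a' * W.map (snd A (A'.prod B)) (W.map (snd A' B) b)) := by
  rw [map_mul, map_mul, map_mul, ← W.map_comp, ← W.map_comp, ← W.map_comp, ← W.map_comp,
    ← W.map_comp, exm, Obj.lift_fst, Obj.lift_snd, Obj.lift_fst, Obj.lift_snd, W.map_comp,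
    W.map_comp]

/-- **Permutations of the factors.** -/
theorem asm_perm {Z : DG W Γ} (hmid : ∀ i, transcendental W (X i).X ≤
    W.gr (X i).X (X i).X.dim) {l l' : List Λ} (h : l.Perm l') (hl : l.Nodup) :
    ∃ (φ : (tow X Z c l).X ⟶ (tow X Z c l').X) (ε : W.K), ∀ F,
      asm X c f Z l F = ε • W.map φ (asm X c f Z l' F) := by
  induction h with
  | nil => exact ⟨𝟙 _, 1, fun F => by rw [W.map_id, one_smul]⟩
  | @cons s l l' _ ih =>
    obtain ⟨φ, ε, h⟩ := ih (List.nodup_cons.1 hl).2
    refine ⟨idm (X (c s)).X φ, ε, fun F => ?_⟩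
    rw [asm_cons, asm_cons, map_sum, Finset.smul_sum]
    refine Finset.sum_congr rfl fun a _ => ?_
    rw [h, map_smul, mul_smul_comm]
    congr 1
    exact (map_idm _ φ _ _).symm
  | swap s t l =>
    have hst : t ≠ s := by
      rintro rfl
      exact (List.nodup_cons.1 hl).1 List.mem_cons_self
    refine ⟨exm (X (c t)).X (X (c s)).X (tow X Z c l).X,
      (-1 : W.K) ^ ((X (c t)).X.dim * (X (c s)).X.dim), fun F => ?_⟩
    simp only [asm_cons, map_sum, Finset.mul_sum, Finset.smul_sum]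
    rw [Finset.sum_comm]
    refine Finset.sum_congr rfl fun a _ => Finset.sum_congr rfl fun b _ => ?_
    have h1 := map_exm (W := W) (X (c t)).X (X (c s)).X (tow X Z c l).X ((f (c s)).t a)
      ((f (c t)).t b) (asm X c f Z l (upd t b (upd s a F)))
    refine Eq.trans ?_ (congrArg (fun x => (-1 : W.K) ^ ((X (c t)).X.dim * (X (c s)).X.dim) • x)
      h1.symm)
    rw [upd_comm hst]
    have h2 : W.map (fst (X (c t)).X ((X (c s)).X.prod (tow X Z c l).X)) ((f (c t)).t b) *
        W.map (snd (X (c t)).X ((X (c s)).X.prod (tow X Z c l).X))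
          (W.map (fst (X (c s)).X (tow X Z c l).X) ((f (c s)).t a)) =
        (-1 : W.K) ^ ((X (c t)).X.dim * (X (c s)).X.dim) •
        (W.map (snd (X (c t)).X ((X (c s)).X.prod (tow X Z c l).X))
          (W.map (fst (X (c s)).X (tow X Z c l).X) ((f (c s)).t a)) *
          W.map (fst (X (c t)).X ((X (c s)).X.prod (tow X Z c l).X)) ((f (c t)).t b)) :=
      W.comm (W.map_mem _ (hmid _ ((f (c t)).t_mem b)))
        (W.map_mem _ (W.map_mem _ (hmid _ ((f (c s)).t_mem a))))
    change W.map (fst (X (c t)).X ((X (c s)).X.prod (tow X Z c l).X)) ((f (c t)).t b) *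
        W.map (snd (X (c t)).X ((X (c s)).X.prod (tow X Z c l).X))
          (W.map (fst (X (c s)).X (tow X Z c l).X) ((f (c s)).t a) *
            W.map (snd (X (c s)).X (tow X Z c l).X) (asm X c f Z l (upd s a (upd t b F)))) = _
    rw [map_mul, ← mul_assoc, h2, smul_mul_assoc, mul_assoc]
  | trans h1 _ ih1 ih2 =>
    obtain ⟨φ, ε, h⟩ := ih1 hl
    obtain ⟨φ', ε', h'⟩ := ih2 (h1.nodup_iff.1 hl)
    exact ⟨φ ≫ φ', ε * ε', fun F => by rw [h, h', map_smul, smul_smul, W.map_comp]⟩

/-- the alternating symbol -/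
def om {K : Type*} [Field K] (a b : Fin 2) : K :=
  if a = b then 0 else if a = 0 then 1 else -1

theorem fin2_cases (a : Fin 2) : a = 0 ∨ a = 1 := by
  have := a.isLt
  rcases (by omega : a.val = 0 ∨ a.val = 1) with h | h
  · exact Or.inl (Fin.ext h)
  · exact Or.inr (Fin.ext h)

theorem om_anti {K : Type*} [Field K] [CharZero K] (g : Fin 2 → Fin 2 → K)
    (hg : ∀ a b, g a b = -g b a) (a b : Fin 2) : g a b = g 0 1 * om a b := by
  have h0 : ∀ a, g a a = 0 := by
    intro a
    have h1 := hg a a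
    have h2 : (2 : K) * g a a = 0 := by linear_combination h1
    exact (mul_eq_zero.1 h2).resolve_left two_ne_zero
  rcases fin2_cases a with rfl | rfl <;> rcases fin2_cases b with rfl | rfl
  · rw [h0, om, if_pos rfl, mul_zero]
  · rw [om, if_neg (by decide), if_pos rfl, mul_one]
  · rw [om, if_neg (by decide), if_neg (by decide), hg 1 0]
    ring
  · rw [h0, om, if_pos rfl, mul_zero]

/-- the class of a pair -/
noncomputable def dOm {A A' : 𝒱.Obj} (f : Frame2 A W) (f' : Frame2 A' W) : W.H (A.prod A') :=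
  ∑ a, ∑ b, (om a b : W.K) • (W.map (fst A A') (f.t a) * W.map (snd A A') (f'.t b))

theorem dOm_alg {A : 𝒱.Obj} (hDX : HomEqNum W A) (hmid : transcendental W A ≤ W.gr A A.dim)
    (hodd : Odd A.dim) (f : Frame2 A W) : dOm f f ∈ algSpan W (A.prod A) := by
  have hanti : ∀ a b, bil W A (f.u a) (f.u b) = -bil W A (f.u b) (f.u a) := by
    intro a b
    rw [trans_symm hmid (f.u_mem a) (f.u_mem b), hodd.neg_one_pow, neg_one_mul]
  have h1 : dQ f.s = ∑ a, ∑ b, bil W A (f.u a) (f.u b) •
      (W.map (fst A A) (f.t a) * W.map (snd A A) (f.t b)) := by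
    have h2 := Fintype.sum_equiv (finTwoArrowEquiv (Fin f.s.NT))
      (fun a : Fin 2 → Fin f.s.NT => bil W A (f.s.uT (a 0)) (f.s.uT (a 1)) •
        (W.map (fst A A) (f.s.bT (a 0) : W.H A) * W.map (snd A A) (f.s.bT (a 1) : W.H A)))
      (fun a => bil W A (f.s.uT a.1) (f.s.uT a.2) •
        (W.map (fst A A) (f.s.bT a.1 : W.H A) * W.map (snd A A) (f.s.bT a.2 : W.H A)))
      (fun a => rfl)
    rw [dQ, h2, Fintype.sum_prod_type, f.sum_cast]
    refine Finset.sum_congr rfl fun a _ => ?_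
    rw [f.sum_cast]
    rfl
  have h2 : dQ f.s = bil W A (f.u 0) (f.u 1) • dOm f f := by
    rw [h1, dOm, Finset.smul_sum]
    refine Finset.sum_congr rfl fun a _ => ?_
    rw [Finset.smul_sum]
    refine Finset.sum_congr rfl fun b _ => ?_
    rw [smul_smul, om_anti (fun a b => bil W A (f.u a) (f.u b)) hanti a b]
  have h3 : bil W A (f.u 0) (f.u 1) ≠ 0 := by
    intro h0
    have h4 : ∀ a b, bil W A (f.u a) (f.u b) = 0 := by
      intro a b
      rw [om_anti (fun a b => bil W A (f.u a) (f.u b)) hanti a b, h0, zero_mul]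
    have h5 := f.u_t 0 0
    have h6 : f.u 0 = ∑ b, bil W A (f.u b) (f.u 0) • f.t b := f.expand_t (f.u_mem 0)
    have h7 : f.u 0 = 0 := by
      rw [h6]
      exact Finset.sum_eq_zero fun b _ => by rw [h4, zero_smul]
    rw [h7, map_zero, LinearMap.zero_apply, if_pos rfl] at h5
    exact zero_ne_one h5
  have h4 := Submodule.smul_mem _ (bil W A (f.u 0) (f.u 1))⁻¹ (dQ_alg hDX hmid f.s)
  rwa [h2, smul_smul, inv_mul_cancel₀ h3, one_smul] at h4

/-- **A pair of factors.** -/
theorem asm_pair {Z : DG W Γ} {p q : Λ} {l : List Λ} (hpq : p ≠ q)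
    {F' : (Λ → Fin 2) → W.H Z.X} (hp : ∀ a, upd p a F' = F') (hq : ∀ a, upd q a F' = F') :
    asm X c f Z (p :: q :: l) (fun J => (om (J p) (J q) : W.K) • F' J) =
      W.map (Obj.lift (fst (X (c p)).X ((X (c q)).X.prod (tow X Z c l).X))
        (snd (X (c p)).X ((X (c q)).X.prod (tow X Z c l).X) ≫ fst (X (c q)).X (tow X Z c l).X))
        (dOm (f (c p)) (f (c q))) *
      W.map (snd (X (c p)).X ((X (c q)).X.prod (tow X Z c l).X) ≫
        snd (X (c q)).X (tow X Z c l).X) (asm X c f Z l F') := by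
  have h1 : ∀ a b, upd q b (upd p a (fun J => (om (J p) (J q) : W.K) • F' J)) =
      (om a b : W.K) • F' := by
    intro a b
    have h2 := hp a
    have h3 := hq b
    funext J
    have h4 : F' (update (update J q b) p a) = F' J := by
      have h5 := congrFun h2 (update J q b)
      have h6 := congrFun h3 J
      rw [upd] at h5 h6
      rw [h5, h6]
    simp only [upd, Pi.smul_apply]
    rw [h4, update_self, update_of_ne hpq.symm, update_self]
  simp only [asm_cons, h1]
  rw [dOm, map_sum, Finset.sum_mul]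
  refine Finset.sum_congr rfl fun a _ => ?_
  rw [map_sum, map_sum, Finset.sum_mul, Finset.mul_sum]
  refine Finset.sum_congr rfl fun b _ => ?_
  have e1 : W.map (Obj.lift (fst (X (c p)).X ((X (c q)).X.prod (tow X Z c l).X))
      (snd (X (c p)).X ((X (c q)).X.prod (tow X Z c l).X) ≫ fst (X (c q)).X (tow X Z c l).X))
      (W.map (fst (X (c p)).X (X (c q)).X) ((f (c p)).t a)) =
      W.map (fst (X (c p)).X ((X (c q)).X.prod (tow X Z c l).X)) ((f (c p)).t a) := by
    rw [← W.map_comp, Obj.lift_fst]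
  have e2 : W.map (Obj.lift (fst (X (c p)).X ((X (c q)).X.prod (tow X Z c l).X))
      (snd (X (c p)).X ((X (c q)).X.prod (tow X Z c l).X) ≫ fst (X (c q)).X (tow X Z c l).X))
      (W.map (snd (X (c p)).X (X (c q)).X) ((f (c q)).t b)) =
      W.map (snd (X (c p)).X ((X (c q)).X.prod (tow X Z c l).X))
        (W.map (fst (X (c q)).X (tow X Z c l).X) ((f (c q)).t b)) := by
    rw [← W.map_comp, Obj.lift_snd, W.map_comp]
  simp only [asm_smul, map_smul, mul_smul_comm, smul_mul_assoc, map_mul, mul_assoc]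
  rw [e1, e2, W.map_comp]

theorem dOm_alg' {i i' : ι} (h : i = i') (hDX : HomEqNum W (X i).X)
    (hmid : transcendental W (X i).X ≤ W.gr (X i).X (X i).X.dim) (hodd : Odd (X i).X.dim) :
    dOm (f i) (f i') ∈ algSpan W ((X i).X.prod (X i').X) := by
  subst h
  exact dOm_alg hDX hmid hodd (f i)

end Pool.Agent.Y132.EP
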