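import Pool.Agent.Y132.EP.Asm2

/-!
# Tate functions on words
-/

open CategoryTheory AlgebraicGeometry Finset Function

set_option linter.unusedSectionVars false

universe u v w

namespace Pool.Agent.Y132.EP

open Pool.Agent.H914 Pool.Agent.H914.VarClass Pool.Agent.H914.VarClass.Obj
  Pool.Agent.H914.WeilCohomology Pool.Agent.H281R3.HT Pool.Agent.W552 Pool.Agent.TH125.Gal

variable {k : Type u} [Field k] {𝒱 : VarClass k} {ops : CycleOps 𝒱}
  {W : WeilCohomology.{u, v} ops} {Γ : Type w} [Group Γ]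

section coordinates

variable {A B : DG W Γ} (f : Frame2 A.X W)

theorem cC_sum {A Z : 𝒱.Obj} (f : Frame2 A W) (x : Fin f.s.NC → W.H Z) (z : Fin 2 → W.H Z)
    (n : Fin f.s.NC) : f.cC Z n ((∑ m, W.map (fst A Z) (f.s.bC m : W.H A) *
      W.map (snd A Z) (x m)) + ∑ a, W.map (fst A Z) (f.t a) * W.map (snd A Z) (z a)) = x n := by
  rw [map_add, map_sum, map_sum, Finset.sum_eq_single n, Finset.sum_eq_zero, add_zero,
    Frame2.cC_ext, f.s.uC_bC, if_pos rfl, one_smul]
  · intro a _
    rw [Frame2.cC_ext, alg_trans (f.t_mem a) (f.s.uC n).2, zero_smul]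
  · intro m _ hm
    rw [Frame2.cC_ext, f.s.uC_bC, if_neg hm, zero_smul]
  · intro h
    exact absurd (Finset.mem_univ _) h

theorem cT_sum {A Z : 𝒱.Obj} (f : Frame2 A W) (x : Fin f.s.NC → W.H Z) (z : Fin 2 → W.H Z)
    (b : Fin 2) : f.cT Z b ((∑ m, W.map (fst A Z) (f.s.bC m : W.H A) *
      W.map (snd A Z) (x m)) + ∑ a, W.map (fst A Z) (f.t a) * W.map (snd A Z) (z a)) = z b := by
  rw [map_add, map_sum, map_sum, Finset.sum_eq_zero, zero_add, Finset.sum_eq_single b,
    Frame2.cT_ext, f.u_t, if_pos rfl, one_smul]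
  · intro m _ hm
    rw [Frame2.cT_ext, f.u_t, if_neg hm, zero_smul]
  · intro h
    exact absurd (Finset.mem_univ _) h
  · intro a _
    rw [Frame2.cT_ext, trans_alg (f.u_mem b) (f.s.bC a).2, zero_smul]

/-- homogeneous components -/
theorem comp_gr {A Z : 𝒱.Obj} (f : Frame2 A W) (hmid : transcendental W A ≤ W.gr A A.dim) {m : ℕ}
    {y : W.H (A.prod Z)} (hy : y ∈ W.gr (A.prod Z) m) :
    y = (∑ n, W.map (fst A Z) (f.s.bC n : W.H A) * W.map (snd A Z)
      (if 2 * f.s.jC n ≤ m then proj (W.isInternal Z) (m - 2 * f.s.jC n) (f.cC Z n y) else 0)) +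
      ∑ a, W.map (fst A Z) (f.t a) * W.map (snd A Z)
        (if A.dim ≤ m then proj (W.isInternal Z) (m - A.dim) (f.cT Z a y) else 0) := by
  conv_lhs => rw [← proj_same (W.isInternal _) hy, f.expand_prod Z y, map_add, map_sum, map_sum]
  congr 1
  · refine Finset.sum_congr rfl fun n _ => ?_
    rw [proj_ext (alg_gr (f.s.alg n))]
    by_cases h : 2 * f.s.jC n ≤ m
    · rw [if_pos h, if_pos h]
    · rw [if_neg h, if_neg h, map_zero, mul_zero]
  · refine Finset.sum_congr rfl fun a _ => ?_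
    rw [proj_ext (hmid (f.t_mem a))]
    by_cases h : A.dim ≤ m
    · rw [if_pos h, if_pos h]
    · rw [if_neg h, if_neg h, map_zero, mul_zero]

theorem cC_gr {A Z : 𝒱.Obj} (f : Frame2 A W) (hmid : transcendental W A ≤ W.gr A A.dim) {m : ℕ}
    {y : W.H (A.prod Z)} (hy : y ∈ W.gr (A.prod Z) m) (n : Fin f.s.NC) :
    (2 * f.s.jC n ≤ m → f.cC Z n y ∈ W.gr Z (m - 2 * f.s.jC n)) ∧
      (¬2 * f.s.jC n ≤ m → f.cC Z n y = 0) := by
  have h1 : f.cC Z n y = if 2 * f.s.jC n ≤ m then
      proj (W.isInternal Z) (m - 2 * f.s.jC n) (f.cC Z n y) else 0 := by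
    conv_lhs => rw [comp_gr f hmid hy]
    exact cC_sum f _ _ n
  constructor
  · intro h
    rw [if_pos h] at h1
    rw [h1]
    exact proj_mem _ _ _
  · intro h
    rwa [if_neg h] at h1

theorem cT_gr {A Z : 𝒱.Obj} (f : Frame2 A W) (hmid : transcendental W A ≤ W.gr A A.dim) {m : ℕ}
    {y : W.H (A.prod Z)} (hy : y ∈ W.gr (A.prod Z) m) (b : Fin 2) :
    (A.dim ≤ m → f.cT Z b y ∈ W.gr Z (m - A.dim)) ∧ (¬A.dim ≤ m → f.cT Z b y = 0) := by
  have h1 : f.cT Z b y = if A.dim ≤ m then
      proj (W.isInternal Z) (m - A.dim) (f.cT Z b y) else 0 := by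
    conv_lhs => rw [comp_gr f hmid hy]
    exact cT_sum f _ _ b
  constructor
  · intro h
    rw [if_pos h] at h1
    rw [h1]
    exact proj_mem _ _ _
  · intro h
    rwa [if_neg h] at h1

/-- the action in coordinates -/
theorem act_coords {χ : Γ →* W.Kˣ} {g : Γ} (hX : ∀ t ∈ transcendental W A.X,
    A.act g t ∈ transcendental W A.X)
    (hg : ∀ i, A.act g (f.s.bC i) = (χ g : W.K) ^ f.s.jC i • (f.s.bC i : W.H A.X))
    (y : W.H (A.prod B).X) : (A.prod B).act g y =
      (∑ n, W.map (fst A.X B.X) (f.s.bC n : W.H A.X) * W.map (snd A.X B.X)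
        ((χ g : W.K) ^ f.s.jC n • B.act g (f.cC B.X n y))) +
      ∑ b, W.map (fst A.X B.X) (f.t b) * W.map (snd A.X B.X)
        (∑ a, bil W A.X (f.u b) (A.act g (f.t a)) • B.act g (f.cT B.X a y)) := by
  have h0 := f.expand_prod B.X y
  conv_lhs => rw [h0]
  rw [map_add, map_sum, map_sum]
  congr 1
  · refine Finset.sum_congr rfl fun n _ => ?_
    rw [DG.act_ext, hg, map_smul, map_smul, smul_mul_assoc, mul_smul_comm]
  · have h1 : ∀ a, (A.prod B).act g (W.map (fst A.X B.X) (f.t a) * W.map (snd A.X B.X)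
        (f.cT B.X a y)) = ∑ b, W.map (fst A.X B.X) (f.t b) * W.map (snd A.X B.X)
          (bil W A.X (f.u b) (A.act g (f.t a)) • B.act g (f.cT B.X a y)) := by
      intro a
      rw [DG.act_ext, f.expand_t (hX _ (f.t_mem a)), map_sum, Finset.sum_mul]
      refine Finset.sum_congr rfl fun b _ => ?_
      rw [map_smul, map_smul, smul_mul_assoc, mul_smul_comm, ← f.expand_t (hX _ (f.t_mem a))]
    rw [Finset.sum_congr rfl fun a _ => h1 a, Finset.sum_comm]
    refine Finset.sum_congr rfl fun b _ => ?_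
    rw [map_sum, Finset.mul_sum]

end coordinates

variable {ι : Type} {Λ : Type} [DecidableEq Λ]

/-- The function `F` on words has values in degree `m` and is multiplied by the `j`-th power of the
character. -/
structure IsT (χ : Γ →* W.Kˣ) (X : ι → DG W Γ) (c : Λ → ι) (f : ∀ i, Frame2 (X i).X W)
    (B : DG W Γ) (l : List Λ) (m j : ℕ) (F : (Λ → Fin 2) → W.H B.X) : Prop where
  dep : Dep l F
  gr : ∀ J, F J ∈ W.gr B.X m
  deg : m + dsum X c l = 2 * j
  act : ∃ Δ : Subgroup Γ, Δ.FiniteIndex ∧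
    ∀ g ∈ Δ, SL (Nm X c f g) l (fun J => B.act g (F J)) = (χ g : W.K) ^ j • F

/-- All Tate functions give algebraic classes. -/
def St (χ : Γ →* W.Kˣ) (X : ι → DG W Γ) (c : Λ → ι) (f : ∀ i, Frame2 (X i).X W)
    (B : DG W Γ) (l : List Λ) : Prop :=
  ∀ m j F, IsT χ X c f B l m j F → asm X c f B l F ∈ algSpan W (tow X B c l).X

variable {χ : Γ →* W.Kˣ} {X : ι → DG W Γ} {c : Λ → ι} {f : ∀ i, Frame2 (X i).X W}

theorem St.of_tate {B : DG W Γ} (hX : ∀ i g, ∀ t ∈ transcendental W (X i).X,
    (X i).act g t ∈ transcendental W (X i).X)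
    (hmid : ∀ i, transcendental W (X i).X ≤ W.gr (X i).X (X i).X.dim) {l : List Λ}
    (hl : l.Nodup) (hT : TateConjecture χ (tow X B c l).toGVar) : St χ X c f B l := by
  intro m j F hF
  obtain ⟨Δ, hΔ, hact⟩ := hF.act
  have h1 := asm_gr (c := c) (f := f) hmid l F hF.gr
  rw [hF.deg] at h1
  have h2 := hT j _ h1 ⟨Δ, hΔ, fun g hg => by
    rw [asm_act hX g hl F, hact g hg, asm_smul]⟩
  exact Submodule.span_mono (Set.subset_iUnion _ _) h2

theorem St.tate {B : DG W Γ} (h : St χ X c f B []) : TateConjecture χ B.toGVar := by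
  intro j x hx ⟨Δ, hΔ, hact⟩
  have h1 := h (2 * j) j (fun _ => x) ⟨fun _ _ _ => rfl, fun _ => hx, by simp [dsum], Δ, hΔ,
    fun g hg => funext fun J => hact g hg⟩
  exact algSpan_gr h1 hx

/-- The algebraic classes of the first factor of the base. -/
theorem asm_fst {A B : DG W Γ} (l : List Λ) : ∃ (w : (tow X (A.prod B) c l).X ⟶ A.X)
    (v : (tow X (A.prod B) c l).X ⟶ (tow X B c l).X), ∀ e ∈ algSpan W A.X,
      ∀ G : (Λ → Fin 2) → W.H B.X, asm X c f (A.prod B) l (fun J => W.map (fst A.X B.X) e *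
        W.map (snd A.X B.X) (G J)) = W.map w e * W.map v (asm X c f B l G) := by
  induction l with
  | nil => exact ⟨fst A.X B.X, snd A.X B.X, fun e _ G => rfl⟩
  | cons t l ih =>
    obtain ⟨w, v, h⟩ := ih
    refine ⟨snd (X (c t)).X (tow X (A.prod B) c l).X ≫ w, idm (X (c t)).X v, fun e he G => ?_⟩
    rw [asm_cons, asm_cons, map_sum, Finset.mul_sum]
    refine Finset.sum_congr rfl fun a _ => ?_
    have h1 : upd t a (fun J => W.map (fst A.X B.X) e * W.map (snd A.X B.X) (G J)) =
        fun J => W.map (fst A.X B.X) e * W.map (snd A.X B.X) (upd t a G J) := rfl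
    have h2 := map_idm (W := W) (X (c t)).X v ((f (c t)).t a) (asm X c f B l (upd t a G))
    rw [h1, h e he]
    refine Eq.trans ?_ (congrArg (fun x => W.map (snd (X (c t)).X (tow X (A.prod B) c l).X ≫ w) e *
      x) h2.symm)
    rw [map_mul, W.map_comp, ← mul_assoc, ← mul_assoc,
      alg_comm (algSpan_map (snd (X (c t)).X (tow X (A.prod B) c l).X) (algSpan_map w he))]

/-- The last factor. -/
theorem asm_snoc {B : DG W Γ} {s : Λ} {l : List Λ} (hs : s ∉ l) :
    ∃ r : (tow X ((X (c s)).prod B) c l).X ⟶ (tow X B c (l ++ [s])).X,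
      ∀ G : (Λ → Fin 2) → W.H B.X, asm X c f ((X (c s)).prod B) l
        (fun J => ∑ a, W.map (fst (X (c s)).X B.X) ((f (c s)).t a) *
          W.map (snd (X (c s)).X B.X) (G (update J s a))) =
        W.map r (asm X c f B (l ++ [s]) G) := by
  induction l with
  | nil =>
    refine ⟨𝟙 _, fun G => ?_⟩
    rw [W.map_id]
    rfl
  | cons t l ih =>
    rw [List.mem_cons, not_or] at hs
    obtain ⟨r, h⟩ := ih hs.2
    refine ⟨idm (X (c t)).X r, fun G => ?_⟩
    have h0 : asm X c f B (t :: l ++ [s]) G =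
        ∑ b, W.map (fst (X (c t)).X (tow X B c (l ++ [s])).X) ((f (c t)).t b) *
          W.map (snd (X (c t)).X (tow X B c (l ++ [s])).X)
            (asm X c f B (l ++ [s]) (upd t b G)) := rfl
    rw [asm_cons]
    refine Eq.trans ?_ (congrArg (W.map (idm (X (c t)).X r)) h0.symm)
    rw [map_sum]
    refine Finset.sum_congr rfl fun b _ => ?_
    have h1 : upd t b (fun J => ∑ a, W.map (fst (X (c s)).X B.X) ((f (c s)).t a) *
          W.map (snd (X (c s)).X B.X) (G (update J s a))) =
        fun J => ∑ a, W.map (fst (X (c s)).X B.X) ((f (c s)).t a) *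
          W.map (snd (X (c s)).X B.X) (upd t b G (update J s a)) := by
      funext J
      refine Finset.sum_congr rfl fun a _ => ?_
      rw [upd, update_comm (Ne.symm hs.1)]
    rw [h1, h]
    exact (map_idm _ r _ _).symm

/-- **The recursion.** -/
theorem St.step (hG : ∀ i, IsGalois W χ (X i).X (X i).act)
    (hmid : ∀ i, transcendental W (X i).X ≤ W.gr (X i).X (X i).X.dim) {B : DG W Γ} {s : Λ}
    {l : List Λ} (hs : s ∉ l) (h1 : St χ X c f B l) (h2 : St χ X c f B (l ++ [s])) :
    St χ X c f ((X (c s)).prod B) l := by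
  intro m j F hF
  obtain ⟨Δ, hΔ, hact⟩ := hF.act
  obtain ⟨Δ', hΔ', hfix⟩ := exists_fix (hG (c s)) (f (c s)).s
  have hX : ∀ g, ∀ t ∈ transcendental W (X (c s)).X, (X (c s)).act g t ∈
    transcendental W (X (c s)).X := fun g t ht => act_trans (hG (c s)) g ht
  have hdecJ : ∀ J, F J = (∑ n, W.map (fst (X (c s)).X B.X) ((f (c s)).s.bC n : W.H (X (c s)).X) *
      W.map (snd (X (c s)).X B.X) ((f (c s)).cC B.X n (F J))) +
      ∑ a, W.map (fst (X (c s)).X B.X) ((f (c s)).t a) *
        W.map (snd (X (c s)).X B.X) ((f (c s)).cT B.X a (F J)) := fun J =>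
    (f (c s)).expand_prod B.X (F J)
  have hdec : F = (∑ n, fun J => W.map (fst (X (c s)).X B.X) ((f (c s)).s.bC n : W.H (X (c s)).X) *
      W.map (snd (X (c s)).X B.X) ((f (c s)).cC B.X n (F J))) +
      fun J => ∑ a, W.map (fst (X (c s)).X B.X) ((f (c s)).t a) *
        W.map (snd (X (c s)).X B.X) ((f (c s)).cT B.X a (F J)) := by
    funext J
    rw [Pi.add_apply, Finset.sum_apply]
    exact hdecJ J
  have hactC : ∀ g ∈ Δ', ∀ n y, (f (c s)).cC B.X n (((X (c s)).prod B).act g y) =
      (χ g : W.K) ^ (f (c s)).s.jC n • B.act g ((f (c s)).cC B.X n y) := by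
    intro g hg n y
    rw [act_coords (f (c s)) (hX g) (hfix g hg) y]
    exact cC_sum _ _ _ n
  have hactT : ∀ g ∈ Δ', ∀ b y, (f (c s)).cT B.X b (((X (c s)).prod B).act g y) =
      ∑ a, bil W (X (c s)).X ((f (c s)).u b) ((X (c s)).act g ((f (c s)).t a)) •
        B.act g ((f (c s)).cT B.X a y) := by
    intro g hg b y
    rw [act_coords (f (c s)) (hX g) (hfix g hg) y]
    exact cT_sum _ _ _ b
  have hasm : asm X c f ((X (c s)).prod B) l F = (∑ n, asm X c f ((X (c s)).prod B) l fun J =>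
      W.map (fst (X (c s)).X B.X) ((f (c s)).s.bC n : W.H (X (c s)).X) *
      W.map (snd (X (c s)).X B.X) ((f (c s)).cC B.X n (F J))) +
      asm X c f ((X (c s)).prod B) l fun J => ∑ a, W.map (fst (X (c s)).X B.X) ((f (c s)).t a) *
        W.map (snd (X (c s)).X B.X) ((f (c s)).cT B.X a (F J)) := by
    conv_lhs => rw [hdec]
    rw [asm_add, asm_sum]
  rw [hasm]
  refine Submodule.add_mem _ (Submodule.sum_mem _ fun n _ => ?_) ?_
  · obtain ⟨w, v, h⟩ := asm_fst (A := X (c s)) (B := B) (c := c) (f := f) l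
    rw [h _ ((f (c s)).s.bC n).2 fun J => (f (c s)).cC B.X n (F J)]
    refine algSpan_mul (algSpan_map _ ((f (c s)).s.bC n).2) (algSpan_map _ ?_)
    by_cases hn : 2 * (f (c s)).s.jC n ≤ m
    · refine h1 (m - 2 * (f (c s)).s.jC n) (j - (f (c s)).s.jC n) _
        ⟨fun J J' hJ => by rw [hF.dep J J' hJ],
          fun J => (cC_gr (f (c s)) (hmid (c s)) (hF.gr J) n).1 hn, ?_,
          Δ ⊓ Δ', inferInstance, fun g hg => ?_⟩
      · have := hF.deg
        omega
      · have hχ : (χ g : W.K) ≠ 0 := Units.ne_zero _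
        have e1 : (fun J => B.act g ((f (c s)).cC B.X n (F J))) = fun J =>
            (((χ g : W.K) ^ (f (c s)).s.jC n)⁻¹ • (f (c s)).cC B.X n)
              (((X (c s)).prod B).act g (F J)) := by
          funext J
          rw [LinearMap.smul_apply, hactC g hg.2, smul_smul,
            inv_mul_cancel₀ (pow_ne_zero _ hχ), one_smul]
        rw [e1]
        have e2 := SL_lin (Nm X c f g) (l := l) (fun _ => ((χ g : W.K) ^ (f (c s)).s.jC n)⁻¹ •
          (f (c s)).cC B.X n) (fun _ _ _ _ => rfl) fun J => ((X (c s)).prod B).act g (F J)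
        rw [e2, hact g hg.1]
        funext J
        rw [Pi.smul_apply, Pi.smul_apply, LinearMap.smul_apply, map_smul, smul_smul]
        congr 1
        have e3 : j = (j - (f (c s)).s.jC n) + (f (c s)).s.jC n := by
          have := hF.deg
          omega
        conv_lhs => rw [e3, pow_add]
        rw [mul_comm ((χ g : W.K) ^ (j - (f (c s)).s.jC n)), ← mul_assoc,
          inv_mul_cancel₀ (pow_ne_zero _ hχ), one_mul]
    · have e1 : (fun J => (f (c s)).cC B.X n (F J)) = 0 := by
        funext J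
        exact (cC_gr (f (c s)) (hmid (c s)) (hF.gr J) n).2 hn
      rw [e1, asm_zero]
      exact Submodule.zero_mem _
  · obtain ⟨r, h⟩ := asm_snoc (X := X) (B := B) (c := c) (f := f) hs
    have hindep : ∀ J b, F (update J s b) = F J := by
      intro J b
      refine hF.dep _ _ fun t ht => ?_
      rw [update_of_ne]
      rintro rfl
      exact hs ht
    have e0 : (fun J => ∑ a, W.map (fst (X (c s)).X B.X) ((f (c s)).t a) *
        W.map (snd (X (c s)).X B.X) ((f (c s)).cT B.X a (F J))) = fun J => ∑ a,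
        W.map (fst (X (c s)).X B.X) ((f (c s)).t a) * W.map (snd (X (c s)).X B.X)
          ((fun J => (f (c s)).cT B.X (J s) (F J)) (update J s a)) := by
      funext J
      refine Finset.sum_congr rfl fun a _ => ?_
      beta_reduce
      rw [update_self, hindep]
    rw [(congrArg (asm X c f ((X (c s)).prod B) l) e0).trans
      (h fun J => (f (c s)).cT B.X (J s) (F J))]
    refine algSpan_map _ ?_
    by_cases hn : (X (c s)).X.dim ≤ m
    · refine h2 (m - (X (c s)).X.dim) j _ ⟨fun J J' hJ => ?_,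
        fun J => (cT_gr (f (c s)) (hmid (c s)) (hF.gr J) (J s)).1 hn, ?_,
        Δ ⊓ Δ', inferInstance, fun g hg => ?_⟩
      · rw [hF.dep J J' fun t ht => hJ t (List.mem_append_left _ ht),
          hJ s (List.mem_append_right _ (List.mem_singleton.2 rfl))]
      · have h3 := hF.deg
        have h4 : dsum X c (l ++ [s]) = dsum X c l + (X (c s)).X.dim := by
          simp [dsum]
        omega
      · rw [SL_append]
        have e1 : SL (Nm X c f g) [s] (fun J => B.act g ((f (c s)).cT B.X (J s) (F J))) =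
            fun J => (f (c s)).cT B.X (J s) (((X (c s)).prod B).act g (F J)) := by
          funext J
          rw [hactT g hg.2]
          simp only [SL, Sp, update_self, hindep]
          rfl
        rw [e1]
        have e2 := SL_lin (Nm X c f g) (l := l) (fun J => (f (c s)).cT B.X (J s))
          (fun t ht b J => by
            rw [update_of_ne]
            rintro rfl
            exact hs ht) fun J => ((X (c s)).prod B).act g (F J)
        rw [e2, hact g hg.1]
        funext J
        rw [Pi.smul_apply, Pi.smul_apply, map_smul]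
    · have e1 : (fun J => (f (c s)).cT B.X (J s) (F J)) = 0 := by
        funext J
        exact (cT_gr (f (c s)) (hmid (c s)) (hF.gr J) (J s)).2 hn
      rw [e1, asm_zero]
      exact Submodule.zero_mem _

/-- The reduction to functions with values in the cohomology of the base. -/
theorem St.tow (hG : ∀ i, IsGalois W χ (X i).X (X i).act)
    (hmid : ∀ i, transcendental W (X i).X ≤ W.gr (X i).X (X i).X.dim) {Z : DG W Γ}
    (l₂ : List Λ) : ∀ l₁ : List Λ, (l₁ ++ l₂).Nodup →
      (∀ l', l'.Sublist l₂ → St χ X c f Z (l₁ ++ l')) → St χ X c f (tow X Z c l₂) l₁ := by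
  induction l₂ with
  | nil =>
    intro l₁ _ h
    have h1 := h [] (List.Sublist.refl _)
    rwa [List.append_nil] at h1
  | cons s l₂ ih =>
    intro l₁ hnd h
    have hs : s ∉ l₁ := by
      intro hs
      rw [List.nodup_append] at hnd
      exact hnd.2.2 s hs s List.mem_cons_self rfl
    have hnd1 : ((l₁ ++ [s]) ++ l₂).Nodup := by
      rw [List.append_assoc]
      exact hnd
    have hnd2 : (l₁ ++ l₂).Nodup := by
      refine hnd.sublist ?_
      exact List.Sublist.append_left (List.sublist_cons_self s l₂) l₁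
    refine St.step hG hmid hs (ih l₁ hnd2 fun l' hl' => h l' (hl'.cons s)) ?_
    refine ih (l₁ ++ [s]) hnd1 fun l' hl' => ?_
    rw [List.append_assoc]
    exact h _ (hl'.cons_cons s)

theorem tate_of_sub (hG : ∀ i, IsGalois W χ (X i).X (X i).act)
    (hmid : ∀ i, transcendental W (X i).X ≤ W.gr (X i).X (X i).X.dim) {Z : DG W Γ}
    {l : List Λ} (hl : l.Nodup) (h : ∀ l', l'.Sublist l → St χ X c f Z l') :
    TateConjecture χ (tow X Z c l).toGVar :=
  St.tate (St.tow hG hmid l [] hl fun l' hl' => h l' hl')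

end Pool.Agent.Y132.EP
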