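import Pool.Agent.Y132.EP.Asm3

/-!
# Contraction of two positions, symmetrization
-/

open CategoryTheory AlgebraicGeometry Finset Function

set_option linter.unusedSectionVars false

universe u v w

namespace Pool.Agent.Y132.EP

open Pool.Agent.H914 Pool.Agent.H914.VarClass Pool.Agent.H914.VarClass.Obj
  Pool.Agent.H914.WeilCohomology Pool.Agent.H281R3.HT Pool.Agent.W552 Pool.Agent.TH125.Gal

section words

variable {K : Type*} [Field K] {E : Type*} [AddCommGroup E] [Module K E] {Λ : Type}
  [DecidableEq Λ]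

theorem SL_sub (N : Λ → Fin 2 → Fin 2 → K) (l : List Λ) (G G' : (Λ → Fin 2) → E) :
    SL N l (G - G') = SL N l G - SL N l G' := by
  have h1 : G - G' = G + (-1 : K) • G' := by rw [neg_one_smul, sub_eq_add_neg]
  rw [h1, SL_add, SL_smul, neg_one_smul, ← sub_eq_add_neg]

theorem SL_zero (N : Λ → Fin 2 → Fin 2 → K) (l : List Λ) :
    SL N l (0 : (Λ → Fin 2) → E) = 0 := by
  have h := SL_smul N l 0 (0 : (Λ → Fin 2) → E)
  rwa [zero_smul, zero_smul] at h

theorem SL_sum (N : Λ → Fin 2 → Fin 2 → K) (l : List Λ) {R : Type*} (t : Finset R)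
    (G : R → (Λ → Fin 2) → E) : SL N l (∑ r ∈ t, G r) = ∑ r ∈ t, SL N l (G r) := by
  classical
  induction t using Finset.induction_on with
  | empty => rw [Finset.sum_empty, Finset.sum_empty, SL_zero]
  | insert r t hr ih => rw [Finset.sum_insert hr, Finset.sum_insert hr, SL_add, ih]

/-- Permutations of the positions. -/
theorem SL_comp (N : Λ → Fin 2 → Fin 2 → K) {σ : Equiv.Perm Λ} (hσ : ∀ s, N (σ s) = N s)
    (l : List Λ) (G : (Λ → Fin 2) → E) :
    SL N l (fun J => G (J ∘ σ)) = fun J => SL N (l.map σ.symm) G (J ∘ σ) := by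
  induction l with
  | nil => rfl
  | cons s l ih =>
    rw [SL, ih]
    funext J
    simp only [List.map_cons, SL, Sp, update_comp_equiv, Function.comp_apply,
      Equiv.apply_symm_apply]
    have h1 : N (σ.symm s) = N s := by
      have h2 := hσ (σ.symm s)
      rwa [Equiv.apply_symm_apply, eq_comm] at h2
    rw [h1]

/-- The permutations of the positions in the list which preserve a function. -/
def Good {ι : Type} (c : Λ → ι) (l : List Λ) (σ : Equiv.Perm Λ) : Prop :=
  (∀ s, c (σ s) = c s) ∧ ∀ s, s ∉ l → σ s = s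

theorem Good.mem {ι : Type} {c : Λ → ι} {l : List Λ} {σ : Equiv.Perm Λ} (h : Good c l σ) (s : Λ) :
    σ s ∈ l ↔ s ∈ l := by
  by_cases hs : s ∈ l
  · refine ⟨fun _ => hs, fun _ => ?_⟩
    by_contra hcon
    have h1 := h.2 _ hcon
    have h2 := σ.injective h1
    rw [h2] at hcon
    exact hcon hs
  · rw [h.2 s hs]

theorem Good.perm {ι : Type} {c : Λ → ι} {l : List Λ} {σ : Equiv.Perm Λ} (h : Good c l σ)
    (hl : l.Nodup) : (l.map σ.symm).Perm l := by
  rw [List.perm_ext_iff_of_nodup (hl.map σ.symm.injective) hl]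
  intro s
  rw [List.mem_map]
  constructor
  · rintro ⟨t, ht, rfl⟩
    rw [← h.mem, Equiv.apply_symm_apply]
    exact ht
  · intro hs
    exact ⟨σ s, (h.mem s).2 hs, Equiv.symm_apply_apply _ _⟩

theorem Good.one {ι : Type} (c : Λ → ι) (l : List Λ) : Good c l 1 :=
  ⟨fun _ => rfl, fun _ _ => rfl⟩

theorem Good.mul {ι : Type} {c : Λ → ι} {l : List Λ} {σ τ : Equiv.Perm Λ} (h : Good c l σ)
    (h' : Good c l τ) : Good c l (σ * τ) := by
  refine ⟨fun s => ?_, fun s hs => ?_⟩
  · rw [Equiv.Perm.mul_apply, h.1, h'.1]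
  · rw [Equiv.Perm.mul_apply, h'.2 s hs, h.2 s hs]

theorem Good.swap {ι : Type} {c : Λ → ι} {l : List Λ} {p q : Λ} (hp : p ∈ l) (hq : q ∈ l)
    (hc : c p = c q) : Good c l (Equiv.swap p q) := by
  refine ⟨fun s => ?_, fun s hs => ?_⟩
  · by_cases h1 : s = p
    · rw [h1, Equiv.swap_apply_left, hc]
    · by_cases h2 : s = q
      · rw [h2, Equiv.swap_apply_right, hc]
      · rw [Equiv.swap_apply_of_ne_of_ne h1 h2]
  · refine Equiv.swap_apply_of_ne_of_ne ?_ ?_
    · rintro rfl
      exact hs hp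
    · rintro rfl
      exact hs hq

end words

variable {k : Type u} [Field k] {𝒱 : VarClass k} {ops : CycleOps 𝒱}
  {W : WeilCohomology.{u, v} ops} {Γ : Type w} [Group Γ] {ι : Type} {Λ : Type} [DecidableEq Λ]
  {χ : Γ →* W.Kˣ} {X : ι → DG W Γ} {c : Λ → ι} {f : ∀ i, Frame2 (X i).X W}

/-- The form on the basis. -/
theorem Frame2.bil_t {A : 𝒱.Obj} (f : Frame2 A W) (hmid : transcendental W A ≤ W.gr A A.dim)
    (hodd : Odd A.dim) (a b : Fin 2) : bil W A (f.t a) (f.t b) =
      bil W A (f.t 0) (f.t 1) * om a b :=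
  om_anti (fun a b => bil W A (f.t a) (f.t b)) (fun a b => by
    rw [trans_symm hmid (f.t_mem a) (f.t_mem b), hodd.neg_one_pow, neg_one_mul]) a b

theorem Frame2.bil_ne {A : 𝒱.Obj} (f : Frame2 A W) (hmid : transcendental W A ≤ W.gr A A.dim)
    (hodd : Odd A.dim) : bil W A (f.t 0) (f.t 1) ≠ 0 := by
  intro h0
  have h1 := f.u_t 0 0
  rw [f.expand_t (f.u_mem 0), map_sum, LinearMap.sum_apply, Finset.sum_eq_zero, if_pos rfl] at h1
  · exact zero_ne_one h1
  · intro b _
    rw [map_smul, LinearMap.smul_apply, f.bil_t hmid hodd, h0, zero_mul, smul_zero]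

/-- The determinant. -/
theorem det_Nm (hG : ∀ i, IsGalois W χ (X i).X (X i).act)
    (hmid : ∀ i, transcendental W (X i).X ≤ W.gr (X i).X (X i).X.dim)
    (hodd : ∀ i, Odd (X i).X.dim) (g : Γ) (s : Λ) :
    Nm X c f g s 0 0 * Nm X c f g s 1 1 - Nm X c f g s 1 0 * Nm X c f g s 0 1 =
      (χ g : W.K) ^ (X (c s)).X.dim := by
  have h1 := bil_act (hG (c s)) g ((f (c s)).t 0) ((f (c s)).t 1)
  have h2 : ∀ a, (X (c s)).act g ((f (c s)).t a) =
      Nm X c f g s 0 a • (f (c s)).t 0 + Nm X c f g s 1 a • (f (c s)).t 1 := by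
    intro a
    have h3 := (f (c s)).expand_t (act_trans (hG (c s)) g ((f (c s)).t_mem a))
    rw [Fin.sum_univ_two] at h3
    exact h3
  rw [h2, h2] at h1
  simp only [map_add, map_smul, LinearMap.add_apply, LinearMap.smul_apply, smul_eq_mul] at h1
  have h3 := (f (c s)).bil_t (hmid (c s)) (hodd (c s))
  rw [h3 0 0, h3 1 0, h3 1 1, om, om, om, if_pos rfl, if_neg (by decide), if_neg (by decide),
    if_pos rfl] at h1
  have h4 := (f (c s)).bil_ne (hmid (c s)) (hodd (c s))
  apply mul_right_cancel₀ h4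
  linear_combination h1

theorem dsum_perm {l l' : List Λ} (h : l.Perm l') : dsum X c l = dsum X c l' := by
  rw [dsum, dsum]
  exact (h.map _).sum_eq

theorem perm_two {l : List Λ} {p q : Λ} (hp : p ∈ l) (hq : q ∈ l) (hpq : p ≠ q) :
    l.Perm (p :: q :: (l.erase p).erase q) := by
  refine (List.perm_cons_erase hp).trans (List.Perm.cons p ?_)
  exact List.perm_cons_erase ((List.mem_erase_of_ne hpq.symm).2 hq)

/-- **The contraction.** -/
theorem IsT.contract (hG : ∀ i, IsGalois W χ (X i).X (X i).act)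
    (hmid : ∀ i, transcendental W (X i).X ≤ W.gr (X i).X (X i).X.dim)
    (hodd : ∀ i, Odd (X i).X.dim) {B : DG W Γ} {l : List Λ} {m j : ℕ}
    {F : (Λ → Fin 2) → W.H B.X} (hF : IsT χ X c f B l m j F) {p q : Λ} (hp : p ∈ l) (hq : q ∈ l)
    (hpq : p ≠ q) (hc : c p = c q) (hl : l.Nodup) :
    IsT χ X c f B ((l.erase p).erase q) m (j - (X (c p)).X.dim)
      (fun J => F (update (update J p 0) q 1) - F (update (update J p 1) q 0)) := by
  have hperm := perm_two hp hq hpq
  have hnd : (p :: q :: (l.erase p).erase q).Nodup := hperm.nodup_iff.1 hl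
  set l' := (l.erase p).erase q with hl'
  have hp' : p ∉ l' := fun h => (List.nodup_cons.1 hnd).1 (List.mem_cons_of_mem _ h)
  have hq' : q ∉ l' := (List.nodup_cons.1 (List.nodup_cons.1 hnd).2).1
  have hdim : dsum X c l = (X (c p)).X.dim + ((X (c p)).X.dim + dsum X c l') := by
    rw [dsum_perm hperm]
    simp only [dsum, List.map_cons, List.sum_cons, hc]
  have hdeg := hF.deg
  obtain ⟨Δ, hΔ, hact⟩ := hF.act
  refine ⟨fun J J' hJ => ?_, fun J => Submodule.sub_mem _ (hF.gr _) (hF.gr _), by omega,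
    Δ, hΔ, fun g hg => ?_⟩
  · have h1 : ∀ a b, F (update (update J p a) q b) = F (update (update J' p a) q b) := by
      intro a b
      refine hF.dep _ _ fun s hs => ?_
      by_cases h2 : s = q
      · rw [h2, update_self, update_self]
      · rw [update_of_ne h2, update_of_ne h2]
        by_cases h3 : s = p
        · rw [h3, update_self, update_self]
        · rw [update_of_ne h3, update_of_ne h3]
          refine hJ s ?_
          have h4 := hperm.mem_iff.1 hs
          rw [List.mem_cons, List.mem_cons] at h4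
          exact (h4.resolve_left h3).resolve_left h2
    rw [h1, h1]
  · have hχ : (χ g : W.K) ≠ 0 := Units.ne_zero _
    set N := Nm X c f g with hN
    have hNpq : N q = N p := by
      have : ∀ i i' : ι, i = i' → ∀ a b, bil W (X i).X ((f i).u a) ((X i).act g ((f i).t b)) =
          bil W (X i').X ((f i').u a) ((X i').act g ((f i').t b)) := by
        rintro i _ rfl a b
        rfl
      funext a b
      exact (this _ _ hc a b).symm
    set G : (Λ → Fin 2) → W.H B.X := SL N l' (fun J => B.act g (F J)) with hGdef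
    have h1 : ∀ J, (χ g : W.K) ^ j • F J = ∑ a, N p (J p) a • ∑ b, N p (J q) b •
        G (update (update J p a) q b) := by
      intro J
      have h2 := congrFun (hact g hg) J
      rw [SL_perm _ hperm hl] at h2
      rw [Pi.smul_apply] at h2
      rw [← h2, ← hN]
      simp only [SL, Sp]
      refine Finset.sum_congr rfl fun a _ => ?_
      congr 1
      refine Finset.sum_congr rfl fun b _ => ?_
      rw [update_of_ne hpq.symm, hNpq]
    have h3 : ∀ J a₀ b₀, (χ g : W.K) ^ j • F (update (update J p a₀) q b₀) =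
        ∑ a, N p a₀ a • ∑ b, N p b₀ b • G (update (update J p a) q b) := by
      intro J a₀ b₀
      rw [h1]
      refine Finset.sum_congr rfl fun a _ => ?_
      rw [update_self, update_of_ne hpq, update_self]
      congr 1
      refine Finset.sum_congr rfl fun b _ => ?_
      congr 2
      rw [update_comm hpq.symm, update_idem, update_idem]
    -- the action on the contraction
    have h4 : SL N l' (fun J => B.act g (F (update (update J p 0) q 1) -
        F (update (update J p 1) q 0))) = fun J => G (update (update J p 0) q 1) -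
          G (update (update J p 1) q 0) := by
      have e1 : (fun J => B.act g (F (update (update J p 0) q 1) -
          F (update (update J p 1) q 0))) = upd p 0 (upd q 1 fun J => B.act g (F J)) -
            upd p 1 (upd q 0 fun J => B.act g (F J)) := by
        funext J
        rw [map_sub]
        rfl
      rw [e1, SL_sub, SL_upd _ hp', SL_upd _ hp', SL_upd _ hq', SL_upd _ hq']
      rfl
    rw [h4]
    funext J
    have h5 := h3 J 0 1
    have h6 := h3 J 1 0
    simp only [Fin.sum_univ_two] at h5 h6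
    have h7 := det_Nm (c := c) (f := f) hG hmid hodd g p
    rw [← hN] at h7
    have h8 : (χ g : W.K) ^ (X (c p)).X.dim • (G (update (update J p 0) q 1) -
        G (update (update J p 1) q 0)) = (χ g : W.K) ^ j • (F (update (update J p 0) q 1) -
          F (update (update J p 1) q 0)) := by
      rw [smul_sub _ (F _), h5, h6, ← h7]
      module
    have h9 : (χ g : W.K) ^ j = (χ g : W.K) ^ (X (c p)).X.dim *
        (χ g : W.K) ^ (j - (X (c p)).X.dim) := by
      rw [← pow_add]
      congr 1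
      omega
    rw [h9, mul_smul] at h8
    rw [Pi.smul_apply]
    exact smul_right_injective _ (pow_ne_zero _ hχ) h8

/-- The difference of a function and its transposition. -/
theorem sub_swap {E : Type*} [AddCommGroup E] [Module W.K E] (F : (Λ → Fin 2) → E) (p q : Λ) : (F - fun J => F (J ∘ Equiv.swap p q)) = fun J => (om (J p) (J q) : W.K) •
      (F (update (update J p 0) q 1) - F (update (update J p 1) q 0)) := by
  have hsame : ∀ J : Λ → Fin 2, ∀ a b, J p = a → J q = b → update (update J p a) q b = J := by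
    intro J a b ha hb
    rw [← ha, update_eq_self, ← hb, update_eq_self]
  have hswap : ∀ J : Λ → Fin 2, ∀ a b, J p = a → J q = b →
      update (update J p b) q a = J ∘ Equiv.swap p q := by
    intro J a b ha hb
    funext s
    rw [Function.comp_apply]
    by_cases h1 : s = q
    · rw [h1, update_self, Equiv.swap_apply_right, ha]
    · rw [update_of_ne h1]
      by_cases h2 : s = p
      · rw [h2, update_self, Equiv.swap_apply_left, hb]
      · rw [update_of_ne h2, Equiv.swap_apply_of_ne_of_ne h2 h1]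
  funext J
  rw [Pi.sub_apply]
  rcases fin2_cases (J p) with h1 | h1 <;> rcases fin2_cases (J q) with h2 | h2
  · rw [← hswap J 0 0 h1 h2, hsame J 0 0 h1 h2, h1, h2, om, if_pos rfl, zero_smul, sub_self]
  · rw [← hswap J 0 1 h1 h2, hsame J 0 1 h1 h2, h1, h2, om, if_neg (by decide), if_pos rfl,
      one_smul]
  · rw [← hswap J 1 0 h1 h2, hsame J 1 0 h1 h2, h1, h2, om, if_neg (by decide),
      if_neg (by decide), neg_one_smul, neg_sub]
  · rw [← hswap J 1 1 h1 h2, hsame J 1 1 h1 h2, h1, h2, om, if_pos rfl, zero_smul, sub_self]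

/-- **Transpositions do not change the class modulo algebraic classes.** -/
theorem asm_swap (hG : ∀ i, IsGalois W χ (X i).X (X i).act)
    (hmid : ∀ i, transcendental W (X i).X ≤ W.gr (X i).X (X i).X.dim)
    (hodd : ∀ i, Odd (X i).X.dim) (hDX : ∀ i, HomEqNum W (X i).X) {Z : DG W Γ} {l : List Λ}
    {m j : ℕ} {F : (Λ → Fin 2) → W.H Z.X} (hF : IsT χ X c f Z l m j F) {p q : Λ} (hp : p ∈ l)
    (hq : q ∈ l) (hpq : p ≠ q) (hc : c p = c q) (hl : l.Nodup)
    (hS : St χ X c f Z ((l.erase p).erase q)) :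
    asm X c f Z l F - asm X c f Z l (fun J => F (J ∘ Equiv.swap p q)) ∈
      algSpan W (tow X Z c l).X := by
  have hperm := perm_two hp hq hpq
  have hnd : (p :: q :: (l.erase p).erase q).Nodup := hperm.nodup_iff.1 hl
  have h1 := IsT.contract hG hmid hodd hF hp hq hpq hc hl
  have h2 := hS _ _ _ h1
  have h3 : asm X c f Z l F - asm X c f Z l (fun J => F (J ∘ Equiv.swap p q)) =
      asm X c f Z l fun J => (om (J p) (J q) : W.K) •
        (F (update (update J p 0) q 1) - F (update (update J p 1) q 0)) := by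
    rw [← sub_swap F p q]
    have h4 : (F - fun J => F (J ∘ Equiv.swap p q)) =
        F + (-1 : W.K) • fun J => F (J ∘ Equiv.swap p q) := by
      rw [neg_one_smul, sub_eq_add_neg]
    rw [h4, asm_add, asm_smul, neg_one_smul, ← sub_eq_add_neg]
  rw [h3]
  obtain ⟨φ, ε, h5⟩ := asm_perm (X := X) (c := c) (f := f) (Z := Z) hmid hperm hl
  rw [h5]
  refine Submodule.smul_mem _ _ (algSpan_map _ ?_)
  rw [asm_pair hpq (F' := fun J => F (update (update J p 0) q 1) -
    F (update (update J p 1) q 0)) ?_ ?_]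
  · exact algSpan_mul (algSpan_map _ (dOm_alg' hc (hDX _) (hmid _) (hodd _))) (algSpan_map _ h2)
  · intro a
    funext J
    simp only [upd, update_idem]
  · intro a
    funext J
    have h6 : ∀ x y : Fin 2, update (update (update J q a) p x) q y =
        update (update J p x) q y := by
      intro x y
      rw [update_comm hpq.symm, update_idem]
    simp only [upd, h6]

section sym

variable [Fintype Λ]

theorem act_perm {B : DG W Γ} {l : List Λ} (hl : l.Nodup) {σ : Equiv.Perm Λ}
    (hσ : Good c l σ) (g : Γ) (F : (Λ → Fin 2) → W.H B.X) :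
    SL (Nm X c f g) l (fun J => B.act g (F (J ∘ σ))) =
      fun J => SL (Nm X c f g) l (fun J => B.act g (F J)) (J ∘ σ) := by
  have h1 : ∀ s, Nm X c f g (σ s) = Nm X c f g s := by
    intro s
    have : ∀ i i' : ι, i = i' → ∀ a b, bil W (X i).X ((f i).u a) ((X i).act g ((f i).t b)) =
        bil W (X i').X ((f i').u a) ((X i').act g ((f i').t b)) := by
      rintro i _ rfl a b
      rfl
    funext a b
    exact this _ _ (hσ.1 s) a b
  rw [SL_comp (Nm X c f g) h1 l (fun J => B.act g (F J))]
  funext J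
  rw [SL_perm (Nm X c f g) (hσ.perm hl) (hl.map σ.symm.injective)]

theorem IsT.perm {B : DG W Γ} {l : List Λ} (hl : l.Nodup) {m j : ℕ}
    {F : (Λ → Fin 2) → W.H B.X} (hF : IsT χ X c f B l m j F) {σ : Equiv.Perm Λ}
    (hσ : Good c l σ) : IsT χ X c f B l m j (fun J => F (J ∘ σ)) := by
  obtain ⟨Δ, hΔ, hact⟩ := hF.act
  refine ⟨fun J J' hJ => hF.dep _ _ fun s hs => hJ _ ((hσ.mem s).2 hs), fun J => hF.gr _,
    hF.deg, Δ, hΔ, fun g hg => ?_⟩
  rw [act_perm hl hσ, hact g hg]
  rfl

/-- Permutations do not change the class modulo algebraic classes. -/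
theorem asm_good (hG : ∀ i, IsGalois W χ (X i).X (X i).act)
    (hmid : ∀ i, transcendental W (X i).X ≤ W.gr (X i).X (X i).X.dim)
    (hodd : ∀ i, Odd (X i).X.dim) (hDX : ∀ i, HomEqNum W (X i).X) {Z : DG W Γ} {l : List Λ}
    (hl : l.Nodup) (hS : ∀ p ∈ l, ∀ q ∈ l, p ≠ q → St χ X c f Z ((l.erase p).erase q))
    {m j : ℕ} (n : ℕ) : ∀ (σ : Equiv.Perm Λ), σ.support.card ≤ n → Good c l σ →
    ∀ F : (Λ → Fin 2) → W.H Z.X, IsT χ X c f Z l m j F →
    asm X c f Z l F - asm X c f Z l (fun J => F (J ∘ σ)) ∈ algSpan W (tow X Z c l).X := by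
  induction n with
  | zero =>
    intro σ hσ _ F _
    have h1 : σ = 1 := Equiv.Perm.card_support_eq_zero.1 (Nat.le_zero.1 hσ)
    rw [h1]
    change asm X c f Z l F - asm X c f Z l F ∈ _
    rw [sub_self]
    exact Submodule.zero_mem _
  | succ n ih =>
    intro σ hσ hgood F hF
    by_cases h1 : σ = 1
    · rw [h1]
      change asm X c f Z l F - asm X c f Z l F ∈ _
      rw [sub_self]
      exact Submodule.zero_mem _
    · obtain ⟨x, hx⟩ : ∃ x, σ x ≠ x := by
        by_contra hcon
        push Not at hcon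
        exact h1 (Equiv.ext hcon)
      have hxl : x ∈ l := by
        by_contra hcon
        exact hx (hgood.2 x hcon)
      have hxl' : σ x ∈ l := (hgood.mem x).2 hxl
      have hsw : Good c l (Equiv.swap x (σ x)) := Good.swap hxl hxl' (hgood.1 x).symm
      have hτ : Good c l (Equiv.swap x (σ x) * σ) := hsw.mul hgood
      have hcard := Equiv.Perm.card_support_swap_mul hx
      have h2 := ih (Equiv.swap x (σ x) * σ) (by omega) hτ F hF
      have h3 := asm_swap hG hmid hodd hDX (hF.perm hl hτ) hxl hxl' (Ne.symm hx)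
        (hgood.1 x).symm hl (hS x hxl _ hxl' (Ne.symm hx))
      have h4 : (fun J : Λ → Fin 2 => F ((J ∘ Equiv.swap x (σ x)) ∘
          (Equiv.swap x (σ x) * σ : Equiv.Perm Λ))) = fun J => F (J ∘ σ) := by
        funext J
        congr 1
        funext s
        simp only [Function.comp_apply, Equiv.Perm.mul_apply, Equiv.swap_apply_self]
      have h5 := Submodule.add_mem _ h2 h3
      rw [sub_add_sub_cancel] at h5
      rwa [h4] at h5

/-- **The symmetrization.** -/
theorem exists_sym (hG : ∀ i, IsGalois W χ (X i).X (X i).act)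
    (hmid : ∀ i, transcendental W (X i).X ≤ W.gr (X i).X (X i).X.dim)
    (hodd : ∀ i, Odd (X i).X.dim) (hDX : ∀ i, HomEqNum W (X i).X) {Z : DG W Γ} {l : List Λ}
    (hl : l.Nodup) (hS : ∀ p ∈ l, ∀ q ∈ l, p ≠ q → St χ X c f Z ((l.erase p).erase q))
    {m j : ℕ} {F : (Λ → Fin 2) → W.H Z.X} (hF : IsT χ X c f Z l m j F)
    (hna : asm X c f Z l F ∉ algSpan W (tow X Z c l).X) :
    ∃ F' : (Λ → Fin 2) → W.H Z.X, IsT χ X c f Z l m j F' ∧ F' ≠ 0 ∧
      ∀ p ∈ l, ∀ q ∈ l, c p = c q → ∀ J, F' (J ∘ Equiv.swap p q) = F' J := by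
  classical
  let S : Finset (Equiv.Perm Λ) := univ.filter fun σ => Good c l σ
  have hSm : ∀ σ, σ ∈ S ↔ Good c l σ := fun σ => by simp [S]
  let F' : (Λ → Fin 2) → W.H Z.X := ∑ σ ∈ S, fun J => F (J ∘ σ)
  have hF' : ∀ J, F' J = ∑ σ ∈ S, F (J ∘ σ) := fun J => Finset.sum_apply _ _ _
  refine ⟨F', ?_, ?_, ?_⟩
  · obtain ⟨Δ, hΔ, hact⟩ := hF.act
    refine ⟨fun J J' hJ => ?_, fun J => ?_, hF.deg, Δ, hΔ, fun g hg => ?_⟩
    · rw [hF', hF']
      refine Finset.sum_congr rfl fun σ hσ => hF.dep _ _ fun s hs => hJ _ ?_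
      exact (((hSm σ).1 hσ).mem s).2 hs
    · rw [hF']
      exact Submodule.sum_mem _ fun σ _ => hF.gr _
    · have h1 : (fun J => Z.act g (F' J)) = ∑ σ ∈ S, fun J => Z.act g (F (J ∘ σ)) := by
        funext J
        rw [hF', map_sum, Finset.sum_apply]
      rw [h1, SL_sum, Finset.smul_sum]
      refine Finset.sum_congr rfl fun σ hσ => ?_
      rw [act_perm hl ((hSm σ).1 hσ), hact g hg]
      rfl
  · intro h0
    apply hna
    have h1 : ∑ σ ∈ S, (asm X c f Z l F - asm X c f Z l (fun J => F (J ∘ σ))) ∈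
        algSpan W (tow X Z c l).X := Submodule.sum_mem _ fun σ hσ =>
      asm_good hG hmid hodd hDX hl hS _ σ le_rfl ((hSm σ).1 hσ) F hF
    have h9 : ∑ σ ∈ S, asm X c f Z l (fun J => F (J ∘ σ)) = 0 := by
      rw [← asm_sum]
      change asm X c f Z l F' = 0
      rw [h0, asm_zero]
    rw [Finset.sum_sub_distrib, h9, sub_zero, Finset.sum_const,
      ← Nat.cast_smul_eq_nsmul W.K] at h1
    have h2 : (S.card : W.K) ≠ 0 := by
      rw [Nat.cast_ne_zero]
      exact Finset.card_ne_zero_of_mem ((hSm 1).2 (Good.one c l))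
    have h3 := Submodule.smul_mem _ (S.card : W.K)⁻¹ h1
    rwa [smul_smul, inv_mul_cancel₀ h2, one_smul] at h3
  · intro p hp q hq hc J
    rw [hF', hF']
    refine Finset.sum_equiv (Equiv.mulLeft (Equiv.swap p q)) (fun σ => ?_) fun σ _ => ?_
    · rw [hSm, hSm]
      constructor
      · intro h
        exact (Good.swap hp hq hc).mul h
      · intro h
        have h2 := (Good.swap hp hq hc).mul h
        rwa [Equiv.coe_mulLeft, ← mul_assoc, Equiv.swap_mul_self, one_mul] at h2
    · rfl

end sym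

end Pool.Agent.Y132.EP
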