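import Pool.Agent.Y132.EP.Mul

/-!
# The bounds for the words which occur
-/

open CategoryTheory AlgebraicGeometry Finset Function

set_option linter.unusedSectionVars false

universe u v w

namespace Pool.Agent.Y132.EP

open Pool.Agent.H914 Pool.Agent.H914.VarClass Pool.Agent.H914.VarClass.Obj
  Pool.Agent.H914.WeilCohomology Pool.Agent.H281R3.HT Pool.Agent.W552 Pool.Agent.TH125.Gal
  Pool.Agent.TH118.SG

variable {k : Type u} [Field k] {𝒱 : VarClass k} {ops : CycleOps 𝒱}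
  {W : WeilCohomology.{u, 0} ops} {Γ : Type} [Group Γ] {ι : Type} {χ : Γ →* W.Kˣ}
  {X : ι → DG W Γ} {f : ∀ i, Frame2 (X i).X W} {Z : DG W Γ}

/-- restriction of the colours -/
theorem Occ.restrict {n : ℕ} {c : Fin n → ι} {m j : ℕ} (h : Occ χ X f Z c m j)
    (S : Finset ι) (hS : ∀ s, c s ∈ S) :
    Occ χ (fun i : S => X i) (fun i : S => f i) Z (fun s => (⟨c s, hS s⟩ : S)) m j := by
  obtain ⟨F, hF, hsym, hne⟩ := h
  exact ⟨F, ⟨hF.gr, hF.deg, hF.act⟩, fun p q hpq => hsym p q (congrArg Subtype.val hpq), hne⟩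

theorem subtype_inj (S : Finset ι) : Function.Injective fun i : S => (i : ι) :=
  Subtype.val_injective

/-- **The product of the multiplicities.** -/
theorem Occ.prod [IsAlgClosed W.K] [DecidableEq ι] (hX : Hy χ X) {n : ℕ} {c : Fin n → ι}
    {m j : ℕ} (h : Occ χ X f Z c m j) :
    ∏ i ∈ univ.image c, ((univ.filter fun s => c s = i).card + 1) ≤
      Module.finrank W.K (W.gr Z.X m) := by
  have hS : ∀ s, c s ∈ univ.image c := fun s => Finset.mem_image_of_mem _ (Finset.mem_univ s)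
  obtain ⟨F, hF, hsym, J, hJ⟩ := h.restrict (univ.image c) hS
  obtain ⟨De, Df, Dh, hD⟩ := exists_ops_u
    (hX.comp (fun i : (univ.image c : Finset ι) => (i : ι)) (subtype_inj _))
    (fun i : (univ.image c : Finset ι) => f i) Z
  have h1 := prod_le (K := W.K) (U := W.gr Z.X m) hsym (hD n _ m j F hF) hJ hF.gr
  refine le_trans (le_of_eq ?_) h1
  rw [← Finset.prod_coe_sort (univ.image c) fun i => (univ.filter fun s => c s = i).card + 1]
  refine Finset.prod_congr rfl fun i _ => ?_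
  congr 2
  ext s
  simp only [Finset.mem_filter, Finset.mem_univ, true_and]
  exact ⟨fun h => Subtype.ext h, fun h => congrArg Subtype.val h⟩

/-- **The number of the indices.** -/
theorem colour_bound [IsAlgClosed W.K] (hX : Hy χ X) (S₀ : Finset ι)
    (h : ∀ i ∈ S₀, ∃ (n : ℕ) (c : Fin n → ι) (m j : ℕ), Occ χ X f Z c m j ∧ ∃ s, c s = i) :
    2 * S₀.card ≤ Module.finrank W.K (W.H Z.X) := by
  classical
  choose n c m j hO s hs using h
  let S : Finset ι := S₀.attach.biUnion fun i => univ.image (c i.1 i.2)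
  have hS : ∀ (i : ι) (hi : i ∈ S₀) (t : Fin (n i hi)), c i hi t ∈ S := by
    intro i hi t
    rw [Finset.mem_biUnion]
    exact ⟨⟨i, hi⟩, Finset.mem_attach _ _, Finset.mem_image_of_mem _ (Finset.mem_univ t)⟩
  have hsub : S₀ ⊆ S := by
    intro i hi
    have h1 := hS i hi (s i hi)
    rwa [hs] at h1
  obtain ⟨De, Df, Dh, hD⟩ := exists_ops_u
    (hX.comp (fun i : S => (i : ι)) (subtype_inj _)) (fun i : S => f i) Z
  have h1 := colours_le (K := W.K) (E := W.H Z.X) (I := S) De Df Dh (fun i => by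
    have hi := i.2
    obtain ⟨⟨i₀, hi₀⟩, -, h2⟩ := Finset.mem_biUnion.1 hi
    obtain ⟨t, -, ht⟩ := Finset.mem_image.1 h2
    obtain ⟨F, hF, hsym, hJ⟩ := (hO i₀ hi₀).restrict S (hS i₀ hi₀)
    exact ⟨n i₀ hi₀, fun t => ⟨c i₀ hi₀ t, hS i₀ hi₀ t⟩, F, hsym, hD _ _ _ _ F hF, hJ, t,
      Subtype.ext ht⟩)
  rw [Fintype.card_coe] at h1
  have h2 := Finset.card_le_card hsub
  omega

/-- The indices which occur. -/
theorem exists_B [IsAlgClosed W.K] (hX : Hy χ X) (f : ∀ i, Frame2 (X i).X W) (Z : DG W Γ) :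
    ∃ B : Finset ι, 2 * B.card ≤ Module.finrank W.K (W.H Z.X) ∧
      ∀ (n : ℕ) (c : Fin n → ι) (m j : ℕ), Occ χ X f Z c m j → ∀ s, c s ∈ B := by
  classical
  let P : Set ι := {i | ∃ (n : ℕ) (c : Fin n → ι) (m j : ℕ), Occ χ X f Z c m j ∧ ∃ s, c s = i}
  have hfin : P.Finite := by
    by_contra hinf
    obtain ⟨t, ht, hcard⟩ := (Set.not_finite.1 hinf).exists_subset_card_eq
      (Module.finrank W.K (W.H Z.X) + 1)
    have h1 := colour_bound hX t fun i hi => ht hi
    omega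
  refine ⟨hfin.toFinset, colour_bound (f := f) hX _ fun i hi => ?_, fun n c m j h s => ?_⟩
  · exact hfin.mem_toFinset.1 hi
  · exact hfin.mem_toFinset.2 ⟨n, c, m, j, h, s, rfl⟩

end Pool.Agent.Y132.EP
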