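import Pool.Agent.TH125.Gal.Pub2
import Pool.Agent.TH118.SG.Defs

/-!
# Families of varieties with transcendental cohomology of dimension two: definitions
-/

open CategoryTheory AlgebraicGeometry

universe u

namespace Pool.Agent.Y132.EP

open Pool.Agent.TH125.Gal

section Alg

variable {K : Type} [Field K] {A : Type} [Ring A] [Algebra K A] {B : Type} [Ring B] [Algebra K B]
  {Γ : Type} [Group Γ]

/-- The operator `N` on the subspace `T` is skew with respect to the form `tr (x * y)`. -/
def SkewOp (tr : A →ₗ[K] K) (T : Submodule K A) (N : T →ₗ[K] T) : Prop :=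
  ∀ x y : T, tr ((N x : A) * y) + tr (x * (N y : A)) = 0

theorem skewOp_zero (tr : A →ₗ[K] K) (T : Submodule K A) : SkewOp tr T 0 := fun x y => by
  simp

theorem skewOp_add (tr : A →ₗ[K] K) (T : Submodule K A) {N N' : T →ₗ[K] T}
    (hN : SkewOp tr T N) (hN' : SkewOp tr T N') : SkewOp tr T (N + N') := fun x y => by
  have h1 := hN x y
  have h2 := hN' x y
  simp only [LinearMap.add_apply, Submodule.coe_add, add_mul, mul_add, map_add]
  linear_combination h1 + h2

theorem skewOp_smul (tr : A →ₗ[K] K) (T : Submodule K A) (r : K) {N : T →ₗ[K] T}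
    (hN : SkewOp tr T N) : SkewOp tr T (r • N) := fun x y => by
  have h1 := hN x y
  simp only [LinearMap.smul_apply, Submodule.coe_smul, smul_mul_assoc, mul_smul_comm, map_smul,
    smul_eq_mul]
  linear_combination r * h1

/-- The operators on `T` which are skew with respect to the form `tr (x * y)`. -/
def skewOps (tr : A →ₗ[K] K) (T : Submodule K A) : Submodule K (T →ₗ[K] T) where
  carrier := {N | SkewOp tr T N}
  zero_mem' := skewOp_zero tr T
  add_mem' := skewOp_add tr T
  smul_mem' := fun r _ hN => skewOp_smul tr T r hN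

/-- `N'` is the conjugate `g N g⁻¹` of the operator `N` on `T`. -/
def ConjAct (T : Submodule K A) (ρ : Γ →* (A ≃ₐ[K] A)) (g : Γ) (N N' : T →ₗ[K] T) : Prop :=
  ∀ t t' : T, (t' : A) = ρ g t → (N' t' : A) = ρ g (N t)

/-- `N'` is the conjugate `g N g⁻¹` of the skew operator `N` on `T`. -/
def ConjSkew (tr : A →ₗ[K] K) (T : Submodule K A) (ρ : Γ →* (A ≃ₐ[K] A)) (g : Γ)
    (N N' : skewOps tr T) : Prop := ConjAct T ρ g N N'

/-- Some linear isomorphism is compatible with the relations `R` and `R'` indexed by `Γ` (the graphs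
of actions of `Γ`). -/
def RelIso (K : Type) [Field K] {Γ V V' : Type} [AddCommMonoid V] [Module K V] [AddCommMonoid V']
    [Module K V'] (R : Γ → V → V → Prop) (R' : Γ → V' → V' → Prop) : Prop :=
  ∃ f : V ≃ₗ[K] V', ∀ (g : Γ) (x y : V), R g x y → R' g (f x) (f y)

/-- The representations of `Γ` on the skew operators are isomorphic. -/
def AdIsoAct (tr : A →ₗ[K] K) (T : Submodule K A) (ρ : Γ →* (A ≃ₐ[K] A)) (tr' : B →ₗ[K] K)
    (T' : Submodule K B) (ρ' : Γ →* (B ≃ₐ[K] B)) : Prop :=
  RelIso K (ConjSkew tr T ρ) (ConjSkew tr' T' ρ')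

/-- The action preserves the subspaces `gr i`. -/
def GradedAct (gr : ℕ → Submodule K A) (ρ : Γ →* (A ≃ₐ[K] A)) : Prop :=
  ∀ g i, ∀ a ∈ gr i, ρ g a ∈ gr i

/-- The homomorphisms from the multiplicative group of `K` to the additive group `ℚ`. -/
abbrev Val (K : Type) [Field K] : Type := Additive Kˣ →+ ℚ

/-- The value of the homomorphism `ν` at the element `a`. -/
def val (ν : Val K) (a : Kˣ) : ℚ := ν (Additive.ofMul a)

/-- `ν a ∈ [0, n]` for all eigenvalues `a` of `g`. -/
def SlopesAct (ν : Val K) (ρ : Γ →* (A ≃ₐ[K] A)) (g : Γ) (n : ℕ) : Prop :=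
  ∀ (a : Kˣ) (z : A), z ≠ 0 → ρ g z = (a : K) • z → 0 ≤ val ν a ∧ val ν a ≤ n

/-- `g` has eigenvalues `a` and `b` on `T` with `ν a = 0` and `ν b = n`. -/
def OrdAct (ν : Val K) (T : Submodule K A) (ρ : Γ →* (A ≃ₐ[K] A)) (g : Γ) (n : ℕ) : Prop :=
  ∃ a b : Kˣ, ∃ x ∈ T, ∃ y ∈ T, x ≠ 0 ∧ y ≠ 0 ∧
    ρ g x = (a : K) • x ∧ ρ g y = (b : K) • y ∧ val ν a = 0 ∧ val ν b = n

/-- The dimension of the subspace `gr m`. -/
noncomputable def degDim (gr : ℕ → Submodule K A) (m : ℕ) : ℕ := Module.finrank K (gr m)

end Alg

open Pool.Agent.H914 Pool.Agent.H914.VarClass Pool.Agent.H914.VarClass.Obj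
  Pool.Agent.H914.WeilCohomology Pool.Agent.H281R3.HT Pool.Agent.W552 Pool.Agent.TH118.SG

variable {k : Type u} [Field k] {𝒱 : VarClass k} {ops : CycleOps 𝒱}
  {W : WeilCohomology.{u, 0} ops} {Γ : Type} [Group Γ]

/-- The operators on the transcendental cohomology of `X` which are skew with respect to the
intersection form. -/
abbrev skewT (X : GVar W Γ) :
    Submodule W.K (transcendental W X.X →ₗ[W.K] transcendental W X.X) :=
  skewOps (W.tr X.X) (transcendental W X.X)

/-- `A'` is the conjugate `g A g⁻¹` of the operator `A` on the transcendental cohomology. -/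
abbrev IsConjBy (X : GVar W Γ) (g : Γ)
    (A A' : transcendental W X.X →ₗ[W.K] transcendental W X.X) : Prop :=
  ConjAct (transcendental W X.X) X.act g A A'

/-- The representations of `Γ` on the operators on the transcendental cohomology which are skew with
respect to the intersection form are isomorphic. -/
def AdIso (X Y : GVar W Γ) : Prop :=
  AdIsoAct (W.tr X.X) (transcendental W X.X) X.act (W.tr Y.X) (transcendental W Y.X) Y.act

/-- `Γ` acts on the cohomology of the odd-dimensional varieties `X i` like a Galois group;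
numerical and homological equivalence coincide for them; their transcendental cohomology is in the
middle degree, of dimension two, and irreducible under all subgroups of finite index; some element
has two eigenvalues on it whose quotient is not a root of unity; the adjoint representations of
different `X i` are not isomorphic. -/
structure TwoDimFamily (χ : Γ →* W.Kˣ) {ι : Type} (X : ι → GVar W Γ) : Prop where
  odd : ∀ i, Odd (X i).X.dim
  galois : ∀ i, IsGaloisVar χ (X i)
  homEqNum : ∀ i, HomEqNum W (X i).X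
  middle : ∀ i, transcendental W (X i).X ≤ W.gr (X i).X (X i).X.dim
  rank : ∀ i, transRank W (X i).X = 2
  irreducible : ∀ i, IrredAct (X i).act (transcendental W (X i).X)
  hyperbolic : ∀ i, HyperbolicAct (transcendental W (X i).X) (X i).act
  adjoint : ∀ i j, i ≠ j → ¬AdIso (X i) (X j)

/-- `Y` is the product `X i₁ × (X i₂ × (⋯ × Z))` for the list `[i₁, i₂, …]`, with a compatible
action of `Γ` on the cohomology. -/
inductive IsTower {ι : Type} (X : ι → GVar W Γ) (Z : GVar W Γ) : List ι → GVar W Γ → Prop
  | nil : IsTower X Z [] Z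
  | cons (i : ι) {L : List ι} {Y Y' : GVar W Γ} : IsTower X Z L Y → IsProdVar (X i) Y Y' →
      IsTower X Z (i :: L) Y'

/-- The action of `Γ` on the cohomology of `Z` preserves the degrees. -/
def GradedVar (Z : GVar W Γ) : Prop := GradedAct (W.gr Z.X) Z.act

/-- `ν a ∈ [0, dim Z]` for all eigenvalues `a` of `g` on the cohomology of `Z`. -/
def SlopesBounded (ν : Val W.K) (g : Γ) (Z : GVar W Γ) : Prop := SlopesAct ν Z.act g Z.X.dim

/-- `g` has eigenvalues `a` and `b` on the transcendental cohomology of `X` with `ν a = 0` and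
`ν b = dim X`. -/
def OrdinaryAt (ν : Val W.K) (g : Γ) (X : GVar W Γ) : Prop :=
  OrdAct ν (transcendental W X.X) X.act g X.X.dim

/-- The dimension of the total cohomology of `Z`. -/
noncomputable def totDim (Z : GVar W Γ) : ℕ := Module.finrank W.K (W.H Z.X)

/-- The sum of the dimensions of the `X i` for the entries `i` of the list. -/
def sumDim {ι : Type} (X : ι → GVar W Γ) (L : List ι) : ℕ := (L.map fun i => (X i).X.dim).sum

/-- The entries of the list `L` are in `B`; for some degree `m` of the parity of the sum `d` of the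
dimensions of the `X i`, the product of the numbers `(number of the entries i) + 1` is at most the
dimension of the cohomology of `Z` in degree `m`, and moreover `d ≤ m` and `d ≤ 2 dim Z - m` if the
`X i` are ordinary at some place. -/
structure SmallList (χ : Γ →* W.Kˣ) {ι : Type} [DecidableEq ι] (X : ι → GVar W Γ)
    (Z : GVar W Γ) (B : Finset ι) (L : List ι) : Prop where
  mem : ∀ i ∈ L, i ∈ B
  degree : ∃ m, Even (m + sumDim X L) ∧
    ∏ i ∈ L.toFinset, (L.count i + 1) ≤ degDim (W.gr Z.X) m ∧
    ∀ (ν : Val W.K) (g : Γ), val ν (χ g) = 1 →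
      SlopesBounded ν g Z → (∀ i ∈ L, OrdinaryAt ν g (X i)) →
        sumDim X L ≤ m ∧ m + sumDim X L ≤ 2 * Z.X.dim

end Pool.Agent.Y132.EP
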