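import Mathlib
import Pool.Agent.Y132.EP.Base

/-!
# The adjoint representation of a strongly irreducible representation of dimension two
-/

set_option linter.unusedSectionVars false

namespace Pool.Agent.Y132.EP

open Module Finset Function

variable {K : Type} [Field K] {Γ : Type} [Group Γ] {V : Type} [AddCommGroup V] [Module K V]

section coords

variable {B : V →ₗ[K] V →ₗ[K] K} {e₀ e₁ : V}

/-- A basis of two elements. -/
structure Bas2 (B : V →ₗ[K] V →ₗ[K] K) (e₀ e₁ : V) : Prop where
  span : ∀ x, ∃ r s : K, x = r • e₀ + s • e₁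
  ind : ∀ r s : K, r • e₀ + s • e₁ = 0 → r = 0 ∧ s = 0
  alt : ∀ x, B x x = 0
  ne : B e₀ e₁ ≠ 0

theorem exists_bas2 (halt : ∀ x, B x x = 0) (hnd : ∀ x, (∀ y, B x y = 0) → x = 0)
    (h2 : finrank K V = 2) : ∃ e₀ e₁ : V, Bas2 B e₀ e₁ := by
  have : FiniteDimensional K V := FiniteDimensional.of_finrank_pos (by omega)
  let b : Basis (Fin 2) K V := Module.finBasisOfFinrankEq K V h2
  have hspan : ∀ x, ∃ r s : K, x = r • b 0 + s • b 1 := by
    intro x
    refine ⟨b.repr x 0, b.repr x 1, ?_⟩
    have h := b.sum_repr x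
    rw [Fin.sum_univ_two] at h
    exact h.symm
  refine ⟨b 0, b 1, hspan, ?_, halt, ?_⟩
  · intro r s h
    have h3 := (Fintype.linearIndependent_iff.1 b.linearIndependent) ![r, s] (by
      rw [Fin.sum_univ_two]
      exact h)
    exact ⟨h3 0, h3 1⟩
  · intro h
    apply b.ne_zero 0
    apply hnd
    intro y
    obtain ⟨r, s, rfl⟩ := hspan y
    rw [map_add, map_smul, map_smul, halt, h, smul_zero, smul_zero, add_zero]

variable (h : Bas2 B e₀ e₁)

include h in
theorem Bas2.skew (x y : V) : B x y = -B y x := by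
  have h1 := h.alt (x + y)
  simp only [map_add, LinearMap.add_apply, h.alt] at h1
  linear_combination h1

include h in
theorem Bas2.coords {A : V →ₗ[K] V} (hA : A ∈ sk B) : ∃ a p q : K,
    A e₀ = a • e₀ + p • e₁ ∧ A e₁ = q • e₀ + (-a) • e₁ := by
  obtain ⟨a, p, h1⟩ := h.span (A e₀)
  obtain ⟨q, d, h2⟩ := h.span (A e₁)
  have h3 := hA e₀ e₁
  rw [h1, h2] at h3
  simp only [map_add, LinearMap.add_apply, map_smul, LinearMap.smul_apply, h.alt, smul_eq_mul,
    mul_zero, zero_add, add_zero] at h3
  have h4 : (a + d) * B e₀ e₁ = 0 := by linear_combination h3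
  have h5 := (mul_eq_zero.1 h4).resolve_right h.ne
  refine ⟨a, p, q, h1, ?_⟩
  rw [h2, show d = -a by linear_combination h5]

include h in
theorem Bas2.ext {A A' : V →ₗ[K] V} (h0 : A e₀ = A' e₀) (h1 : A e₁ = A' e₁) : A = A' := by
  apply LinearMap.ext
  intro x
  obtain ⟨r, s, rfl⟩ := h.span x
  rw [map_add, map_add, map_smul, map_smul, map_smul, map_smul, h0, h1]

include h in
theorem Bas2.sq {A : V →ₗ[K] V} (hA : A ∈ sk B) : ∃ m : K, ∀ x, A (A x) = m • x := by
  obtain ⟨a, p, q, h1, h2⟩ := h.coords hA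
  refine ⟨a * a + p * q, fun x => ?_⟩
  obtain ⟨r, s, rfl⟩ := h.span x
  simp only [map_add, map_smul, h1, h2]
  module

include h in
/-- Commuting skew operators are proportional. -/
theorem Bas2.commute [CharZero K] {A A' : V →ₗ[K] V} (hA : A ∈ sk B) (hA' : A' ∈ sk B)
    (hA0 : A ≠ 0) (hc : ∀ x, A (A' x) = A' (A x)) : ∃ r s : K, s ≠ 0 ∧ r • A + s • A' = 0 := by
  obtain ⟨a, p, q, h1, h2⟩ := h.coords hA
  obtain ⟨a', p', q', h1', h2'⟩ := h.coords hA'
  have e0 := hc e₀
  have e1 := hc e₁
  rw [h1, h1'] at e0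
  rw [h2, h2'] at e1
  simp only [map_add, map_smul, h1, h2, h1', h2'] at e0 e1
  have e2 := h.ind (q * p' - q' * p) (2 * (a' * p - a * p')) (by
    rw [← sub_eq_zero] at e0
    rw [← e0]
    module)
  have e3 := h.ind (2 * (a * q' - a' * q)) (p * q' - p' * q) (by
    rw [← sub_eq_zero] at e1
    rw [← e1]
    module)
  have c1 : q * p' = q' * p := sub_eq_zero.1 e2.1
  have c2 : a' * p = a * p' := sub_eq_zero.1 ((mul_eq_zero.1 e2.2).resolve_left two_ne_zero)
  have c3 : a * q' = a' * q := sub_eq_zero.1 ((mul_eq_zero.1 e3.1).resolve_left two_ne_zero)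
  have key : ∀ r s : K, r * a + s * a' = 0 → r * p + s * p' = 0 → r * q + s * q' = 0 →
      r • A + s • A' = 0 := by
    intro r s k1 k2 k3
    refine h.ext ?_ ?_
    · rw [LinearMap.add_apply, LinearMap.smul_apply, LinearMap.smul_apply, h1, h1',
        LinearMap.zero_apply]
      have : r • (a • e₀ + p • e₁) + s • (a' • e₀ + p' • e₁) =
          (r * a + s * a') • e₀ + (r * p + s * p') • e₁ := by module
      rw [this, k1, k2, zero_smul, zero_smul, add_zero]
    · rw [LinearMap.add_apply, LinearMap.smul_apply, LinearMap.smul_apply, h2, h2',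
        LinearMap.zero_apply]
      have : r • (q • e₀ + (-a) • e₁) + s • (q' • e₀ + (-a') • e₁) =
          (r * q + s * q') • e₀ + (-(r * a + s * a')) • e₁ := by module
      rw [this, k1, k3, zero_smul, neg_zero, zero_smul, add_zero]
  by_cases ha : a = 0
  · by_cases hp : p = 0
    · have hq : q ≠ 0 := by
        rintro rfl
        apply hA0
        refine h.ext ?_ ?_
        · rw [h1, ha, hp, zero_smul, zero_smul, add_zero, LinearMap.zero_apply]
        · rw [h2, ha, neg_zero, zero_smul, zero_smul, add_zero, LinearMap.zero_apply]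
      exact ⟨q', -q, neg_ne_zero.2 hq, key _ _ (by linear_combination c3)
        (by linear_combination -c1) (by ring)⟩
    · exact ⟨p', -p, neg_ne_zero.2 hp, key _ _ (by linear_combination -c2) (by ring)
        (by linear_combination c1)⟩
  · exact ⟨a', -a, neg_ne_zero.2 ha, key _ _ (by ring) (by linear_combination c2)
      (by linear_combination -c3)⟩

/-- The comparison with triples. -/
theorem Bas2.finrank_sk (h : Bas2 B e₀ e₁) (hnd : ∀ x, (∀ y, B x y = 0) → x = 0)
    [FiniteDimensional K V] : finrank K (sk B) ≤ 3 := by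
  let f : sk B →ₗ[K] (Fin 3 → K) :=
    { toFun := fun A => ![B (A.1 e₀) e₀, B (A.1 e₀) e₁, B (A.1 e₁) e₁]
      map_add' := fun A A' => by
        funext i
        fin_cases i <;> simp
      map_smul' := fun r A => by
        funext i
        fin_cases i <;> simp }
  have hf : Function.Injective f := by
    rw [injective_iff_map_eq_zero]
    intro A hA
    have h0 : B (A.1 e₀) e₀ = 0 := congrFun hA 0
    have h1 : B (A.1 e₀) e₁ = 0 := congrFun hA 1
    have h2 : B (A.1 e₁) e₁ = 0 := congrFun hA 2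
    have h3 := A.2 e₀ e₁
    rw [h1, zero_add, h.skew, neg_eq_zero] at h3
    apply Subtype.ext
    refine h.ext ?_ ?_
    · rw [ZeroMemClass.coe_zero, LinearMap.zero_apply]
      apply hnd
      intro y
      obtain ⟨r, s, rfl⟩ := h.span y
      rw [map_add, map_smul, map_smul, h0, h1, smul_zero, smul_zero, add_zero]
    · rw [ZeroMemClass.coe_zero, LinearMap.zero_apply]
      apply hnd
      intro y
      obtain ⟨r, s, rfl⟩ := h.span y
      rw [map_add, map_smul, map_smul, h3, h2, smul_zero, smul_zero, add_zero]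
  have h1 := LinearMap.finrank_le_finrank_of_injective hf
  simpa using h1

end coords

section irr

variable [CharZero K] [IsAlgClosed K] [FiniteDimensional K V] {B : V →ₗ[K] V →ₗ[K] K}
  {σ : Γ →* (V →ₗ[K] V)}

theorem cj_mul (g g' : Γ) (A : V →ₗ[K] V) : cj σ (g * g') A = cj σ g (cj σ g' A) := by
  ext x
  simp only [cj_apply, mul_inv_rev, map_mul, Module.End.mul_apply]

theorem cj_one (A : V →ₗ[K] V) : cj σ 1 A = A := by
  ext x
  rw [cj_apply, inv_one, map_one, Module.End.one_apply, Module.End.one_apply]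

/-- There is no stable line. -/
theorem no_line (halt : ∀ x, B x x = 0) (hnd : ∀ x, (∀ y, B x y = 0) → x = 0)
    (h2 : finrank K V = 2)
    (hirr : ∀ Δ : Subgroup Γ, Δ.FiniteIndex → ∀ U : Submodule K V,
      (∀ g ∈ Δ, ∀ x ∈ U, σ g x ∈ U) → U = ⊥ ∨ U = ⊤)
    {A : V →ₗ[K] V} (hA : A ∈ sk B) (hst : ∀ g, ∃ l : K, cj σ g A = l • A) : A = 0 := by
  by_contra hA0
  obtain ⟨e₀, e₁, hb⟩ := exists_bas2 halt hnd h2
  obtain ⟨m, hm⟩ := hb.sq hA
  have hcj : ∀ (g : Γ) (x : V), σ g (A x) = cj σ g A (σ g x) := by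
    intro g x
    rw [cj_apply, ginv']
  have : Nontrivial V := Module.nontrivial_of_finrank_pos (R := K) (by omega)
  obtain ⟨μ, hμ⟩ := Module.End.exists_eigenvalue A
  obtain ⟨v, hv, hv0⟩ := hμ.exists_hasEigenvector
  rw [Module.End.mem_eigenspace_iff] at hv
  -- the eigenspace is stable under the elements commuting with `A`
  have hmem : ∀ x, x ∈ Module.End.eigenspace A μ ↔ A x = μ • x := fun x =>
    Module.End.mem_eigenspace_iff
  have hfin : Module.End.eigenspace A μ ≠ ⊤ := by
    intro htop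
    have h3 : ∀ x, A x = μ • x := fun x => (hmem x).1 (by rw [htop]; exact Submodule.mem_top)
    have h4 := hA e₀ e₁
    rw [h3, h3] at h4
    simp only [map_smul, LinearMap.smul_apply, smul_eq_mul] at h4
    have h5 : (2 * μ) * B e₀ e₁ = 0 := by linear_combination h4
    have h6 := (mul_eq_zero.1 ((mul_eq_zero.1 h5).resolve_right hb.ne)).resolve_left two_ne_zero
    apply hA0
    apply LinearMap.ext
    intro x
    rw [h3, h6, zero_smul, LinearMap.zero_apply]
  have hbot : Module.End.eigenspace A μ ≠ ⊥ := by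
    intro hbot
    apply hv0
    have h3 : v ∈ Module.End.eigenspace A μ := (hmem v).2 hv
    rwa [hbot, Submodule.mem_bot] at h3
  by_cases hμ0 : μ = 0
  · rcases hirr ⊤ inferInstance (Module.End.eigenspace A μ) (fun g _ x hx => by
      rw [hmem] at hx ⊢
      obtain ⟨l, hl⟩ := hst g⁻¹
      have h3 := hcj g⁻¹ (σ g x)
      rw [hl, ginv', LinearMap.smul_apply, hx, hμ0, zero_smul, smul_zero] at h3
      have h4 := congrArg (σ g) h3
      rw [ginv, map_zero] at h4
      rw [h4, hμ0, zero_smul]) with h3 | h3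
    · exact hbot h3
    · exact hfin h3
  · -- the character
    choose l hl using hst
    have hinj : ∀ r s : K, r • A = s • A → r = s := by
      intro r s hrs
      have h3 : (r - s) • A = 0 := by rw [sub_smul, hrs, sub_self]
      exact sub_eq_zero.1 ((smul_eq_zero.1 h3).resolve_right hA0)
    let φ : Γ →* K :=
      { toFun := l
        map_one' := by
          apply hinj
          rw [← hl, cj_one, one_smul]
        map_mul' := fun g g' => by
          apply hinj
          rw [← hl, cj_mul, hl, cj_smul, hl, smul_smul, mul_comm] }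
    have hφ : ∀ g, φ g = l g := fun g => rfl
    have hsq : ∀ g, l g = 1 ∨ l g = -1 := by
      intro g
      have h3 : l g * l g = 1 := by
        have h4 : m = μ * μ := by
          have h5 := hm v
          rw [hv, map_smul, hv, smul_smul] at h5
          have h6 : (μ * μ - m) • v = 0 := by rw [sub_smul, h5, sub_self]
          exact (sub_eq_zero.1 ((smul_eq_zero.1 h6).resolve_right hv0)).symm
        have h7 : cj σ g A (cj σ g A (σ g v)) = m • σ g v := by
          rw [← hcj, ← hcj, hm, map_smul]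
        rw [hl, LinearMap.smul_apply, LinearMap.smul_apply, map_smul, hm, smul_smul, smul_smul,
          h4] at h7
        have h8 : σ g v ≠ 0 := fun h => hv0 (by
          have h9 := congrArg (σ g⁻¹) h
          rwa [ginv', map_zero] at h9)
        have h10 : ((l g * l g - 1) * (μ * μ)) • σ g v = 0 := by
          rw [sub_mul, one_mul, sub_smul, h7, sub_self]
        have h11 := (smul_eq_zero.1 h10).resolve_right h8
        exact sub_eq_zero.1 ((mul_eq_zero.1 h11).resolve_right (mul_ne_zero hμ0 hμ0))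
      rcases mul_self_eq_one_iff.1 h3 with h4 | h4
      · exact Or.inl h4
      · exact Or.inr h4
    have hrange : Finite (φ.toHomUnits).range := by
      refine Set.Finite.subset (Set.toFinite ({1, -1} : Set Kˣ)) ?_
      rintro _ ⟨g, rfl⟩
      rcases hsq g with h3 | h3
      · left
        apply Units.ext
        rw [MonoidHom.coe_toHomUnits, hφ, h3, Units.val_one]
      · right
        apply Units.ext
        rw [MonoidHom.coe_toHomUnits, hφ, h3, Units.val_neg, Units.val_one]
    rcases hirr (φ.toHomUnits).ker inferInstance (Module.End.eigenspace A μ)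
      (fun g hg x hx => by
        rw [hmem] at hx ⊢
        have h3 : l g = 1 := by
          have h4 := congrArg Units.val (MonoidHom.mem_ker.1 hg)
          rwa [MonoidHom.coe_toHomUnits] at h4
        have h5 := hcj g x
        rw [hl, h3, one_smul, hx, map_smul] at h5
        exact h5.symm) with h3 | h3
    · exact hbot h3
    · exact hfin h3

/-- **The adjoint representation is irreducible.** -/
theorem sk_irr (halt : ∀ x, B x x = 0) (hnd : ∀ x, (∀ y, B x y = 0) → x = 0)
    (h2 : finrank K V = 2)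
    (hirr : ∀ Δ : Subgroup Γ, Δ.FiniteIndex → ∀ U : Submodule K V,
      (∀ g ∈ Δ, ∀ x ∈ U, σ g x ∈ U) → U = ⊥ ∨ U = ⊤)
    (U : Submodule K (V →ₗ[K] V)) (hU : U ≤ sk B) (hst : ∀ g, ∀ A ∈ U, cj σ g A ∈ U) :
    U = ⊥ ∨ U = sk B := by
  by_contra hcon
  push Not at hcon
  obtain ⟨hU0, hU1⟩ := hcon
  obtain ⟨e₀, e₁, hb⟩ := exists_bas2 halt hnd h2
  have h3 := Submodule.finrank_lt_finrank_of_lt (lt_of_le_of_ne hU hU1)
  have h4 := hb.finrank_sk hnd
  have h5 : finrank K U ≠ 0 := fun h => hU0 (Submodule.finrank_eq_zero.1 h)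
  rcases (by omega : finrank K U = 1 ∨ finrank K U = 2) with h6 | h6
  · obtain ⟨A, hA0, hA⟩ := finrank_eq_one_iff'.1 h6
    apply hA0
    apply Subtype.ext
    refine no_line halt hnd h2 hirr (hU A.2) fun g => ?_
    obtain ⟨c, hc⟩ := hA ⟨_, hst g A A.2⟩
    exact ⟨c, (congrArg Subtype.val hc).symm⟩
  · let b : Basis (Fin 2) K U := Module.finBasisOfFinrankEq K U h6
    have hspan : ∀ x ∈ U, ∃ r s : K, x = r • (b 0 : V →ₗ[K] V) + s • (b 1 : V →ₗ[K] V) := by
      intro x hx
      refine ⟨b.repr ⟨x, hx⟩ 0, b.repr ⟨x, hx⟩ 1, ?_⟩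
      have h := b.sum_repr ⟨x, hx⟩
      rw [Fin.sum_univ_two] at h
      exact (congrArg Subtype.val h).symm
    set A : V →ₗ[K] V := ((b 0 : U) : V →ₗ[K] V) with hAdef
    set A' : V →ₗ[K] V := ((b 1 : U) : V →ₗ[K] V) with hAdef'
    have hA0 : A ≠ 0 := fun h => b.ne_zero 0 (Subtype.ext h)
    have hA := hU (b 0).2
    have hA' := hU (b 1).2
    rw [← hAdef] at hA
    rw [← hAdef'] at hA'
    have hC : A ∘ₗ A' - A' ∘ₗ A ∈ sk B := by
      intro x y
      have e1 := hA (A' x) y
      have e2 := hA' x (A y)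
      have e3 := hA' (A x) y
      have e4 := hA x (A' y)
      simp only [LinearMap.sub_apply, LinearMap.comp_apply, map_sub]
      linear_combination e1 - e2 - e3 + e4
    have hC0 := no_line halt hnd h2 hirr hC (fun g => by
      obtain ⟨p, q, h7⟩ := hspan _ (hst g A (b 0).2)
      obtain ⟨r, s, h8⟩ := hspan _ (hst g A' (b 1).2)
      refine ⟨p * s - q * r, ?_⟩
      have h9 : cj σ g (A ∘ₗ A' - A' ∘ₗ A) = cj σ g A ∘ₗ cj σ g A' - cj σ g A' ∘ₗ cj σ g A := by
        ext x
        simp only [cj_apply, LinearMap.sub_apply, LinearMap.comp_apply, map_sub, ginv']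
      rw [h9, h7, h8]
      ext x
      simp only [LinearMap.sub_apply, LinearMap.comp_apply, LinearMap.add_apply,
        LinearMap.smul_apply, map_add, map_smul]
      module)
    obtain ⟨r, s, hs, hrs⟩ := hb.commute hA hA' hA0 (fun x => by
      have h7 := congrArg (fun f => f x) hC0
      simp only [LinearMap.sub_apply, LinearMap.comp_apply, LinearMap.zero_apply] at h7
      exact sub_eq_zero.1 h7)
    apply hs
    have h8 := (Fintype.linearIndependent_iff.1 b.linearIndependent) ![r, s] (by
      rw [Fin.sum_univ_two]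
      exact Subtype.ext hrs)
    exact h8 1

/-- There are no invariants. -/
theorem sk_inv (halt : ∀ x, B x x = 0) (hnd : ∀ x, (∀ y, B x y = 0) → x = 0)
    (h2 : finrank K V = 2)
    (hirr : ∀ Δ : Subgroup Γ, Δ.FiniteIndex → ∀ U : Submodule K V,
      (∀ g ∈ Δ, ∀ x ∈ U, σ g x ∈ U) → U = ⊥ ∨ U = ⊤)
    {A : V →ₗ[K] V} (hA : A ∈ sk B) (hst : ∀ g, cj σ g A = A) : A = 0 :=
  no_line halt hnd h2 hirr hA fun g => ⟨1, by rw [hst, one_smul]⟩

end irr

end Pool.Agent.Y132.EP
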