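import Mathlib
import Pool.Agent.Y132.EP.Goursat
import Pool.Agent.Y132.EP.Weights

/-!
# The operators of the Lie algebra sl(2) on the values of semi-equivariant maps
-/

set_option linter.unusedSectionVars false

namespace Pool.Agent.Y132.EP

open Module Finset Function

section ops

variable {K : Type} [Field K] {V : Type} [AddCommGroup V] [Module K V]

/-- the operator with `b 1 ↦ b 0 ↦ 0` -/
def opE (B : V →ₗ[K] V →ₗ[K] K) (b : Fin 2 → V) : V →ₗ[K] V :=
  (B (b 0) (b 1))⁻¹ • (B (b 0)).smulRight (b 0)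

/-- the operator with `b 0 ↦ b 1 ↦ 0` -/
def opF (B : V →ₗ[K] V →ₗ[K] K) (b : Fin 2 → V) : V →ₗ[K] V :=
  (B (b 0) (b 1))⁻¹ • (B.flip (b 1)).smulRight (b 1)

/-- the operator with `b 0 ↦ b 0` and `b 1 ↦ - b 1` -/
def opH (B : V →ₗ[K] V →ₗ[K] K) (b : Fin 2 → V) : V →ₗ[K] V :=
  (B (b 0) (b 1))⁻¹ • ((B.flip (b 1)).smulRight (b 0) - (B (b 0)).smulRight (b 1))

variable {B : V →ₗ[K] V →ₗ[K] K} {b : Fin 2 → V}

theorem opE_apply (x : V) : opE B b x = (B (b 0) (b 1))⁻¹ • B (b 0) x • b 0 := rfl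

theorem opF_apply (x : V) : opF B b x = (B (b 0) (b 1))⁻¹ • B x (b 1) • b 1 := rfl

theorem opH_apply (x : V) : opH B b x =
    (B (b 0) (b 1))⁻¹ • (B x (b 1) • b 0 - B (b 0) x • b 1) := rfl

theorem skew_of_alt (halt : ∀ x, B x x = 0) (x y : V) : B x y = -B y x := by
  have h1 := halt (x + y)
  simp only [map_add, LinearMap.add_apply, halt] at h1
  linear_combination h1

theorem opE_sk (halt : ∀ x, B x x = 0) : opE B b ∈ sk B := by
  intro x y
  rw [opE_apply, opE_apply]
  simp only [map_smul, LinearMap.smul_apply, smul_eq_mul]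
  rw [skew_of_alt halt x (b 0)]
  ring

theorem opF_sk (halt : ∀ x, B x x = 0) : opF B b ∈ sk B := by
  intro x y
  rw [opF_apply, opF_apply]
  simp only [map_smul, LinearMap.smul_apply, smul_eq_mul]
  rw [skew_of_alt halt (b 1) y]
  ring

theorem opH_sk (halt : ∀ x, B x x = 0) : opH B b ∈ sk B := by
  intro x y
  rw [opH_apply, opH_apply]
  simp only [map_smul, LinearMap.smul_apply, smul_eq_mul, map_sub, LinearMap.sub_apply]
  rw [skew_of_alt halt (b 1) y, skew_of_alt halt x (b 0)]
  ring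

theorem opE_b (halt : ∀ x, B x x = 0) (hne : B (b 0) (b 1) ≠ 0) (a : Fin 2) :
    opE B b (b a) = if a = 1 then b 0 else 0 := by
  rw [opE_apply]
  rcases (by fin_cases a <;> simp : a = 0 ∨ a = 1) with rfl | rfl
  · rw [halt, zero_smul, smul_zero, if_neg (by decide)]
  · rw [smul_smul, inv_mul_cancel₀ hne, one_smul, if_pos rfl]

theorem opF_b (halt : ∀ x, B x x = 0) (hne : B (b 0) (b 1) ≠ 0) (a : Fin 2) :
    opF B b (b a) = if a = 0 then b 1 else 0 := by
  rw [opF_apply]
  rcases (by fin_cases a <;> simp : a = 0 ∨ a = 1) with rfl | rfl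
  · rw [smul_smul, inv_mul_cancel₀ hne, one_smul, if_pos rfl]
  · rw [halt, zero_smul, smul_zero, if_neg (by decide)]

theorem opH_b (halt : ∀ x, B x x = 0) (hne : B (b 0) (b 1) ≠ 0) (a : Fin 2) :
    opH B b (b a) = (if a = 0 then (1 : K) else -1) • b a := by
  rw [opH_apply]
  rcases (by fin_cases a <;> simp : a = 0 ∨ a = 1) with rfl | rfl
  · rw [halt, zero_smul, sub_zero, smul_smul, inv_mul_cancel₀ hne, one_smul, if_pos rfl,
      one_smul]
  · rw [halt, zero_smul, zero_sub, smul_neg, smul_smul, inv_mul_cancel₀ hne, one_smul,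
      if_neg (by decide), neg_one_smul]

end ops

variable {K : Type} [Field K] {I : Type} {T : I → Type} [∀ i, AddCommGroup (T i)]
  [∀ i, Module K (T i)] {E : Type} [AddCommGroup E] [Module K E] {Γ : Type} [Group Γ]
  [CharZero K] [IsAlgClosed K] [Fintype I] [DecidableEq I]
  [∀ i, FiniteDimensional K (T i)] [FiniteDimensional K E]
  {χ : Γ →* Kˣ} {w : I → ℕ} {B : ∀ i, T i →ₗ[K] T i →ₗ[K] K}
  {ρ : ∀ i, Γ →* (T i →ₗ[K] T i)}

theorem update_word {n : ℕ} {c : Fin n → I} (b : ∀ i, Fin 2 → T i) (J : Fin n → Fin 2)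
    (s : Fin n) (a : Fin 2) : update (fun s => b (c s) (J s)) s (b (c s) a) =
      fun s' => b (c s') (update J s a s') := by
  funext s'
  by_cases h : s' = s
  · subst h
    rw [update_self, update_self]
  · rw [update_of_ne h, update_of_ne h]

/-- **The operators.** -/
theorem exists_sl (h : AdFam χ w B ρ) (τ : Γ →* (E →ₗ[K] E)) (b : ∀ i, Fin 2 → T i)
    (halt : ∀ i x, B i x x = 0) (hne : ∀ i, B i (b i 0) (b i 1) ≠ 0) :
    ∃ De Df Dh : I → (E →ₗ[K] E), ∀ (n : ℕ) (c : Fin n → I) (a : ℤ)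
      (h : MultilinearMap K (fun s => T (c s)) E), TateMap χ ρ τ c a h →
        SlAct (K := K) c (fun J => h fun s => b (c s) (J s)) De Df Dh := by
  choose De hDe using fun i => exists_single h τ i (opE_sk (b := b i) (halt i))
  choose Df hDf using fun i => exists_single h τ i (opF_sk (b := b i) (halt i))
  choose Dh hDh using fun i => exists_single h τ i (opH_sk (b := b i) (halt i))
  refine ⟨De, Df, Dh, fun n c a h hh => ⟨fun i J => ?_, fun i J => ?_, fun i J => ?_⟩⟩
  · have h1 := (mem_GG.1 (hDe i)).2 n c a h hh (fun s => b (c s) (J s))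
    simp only [mul_zero, zero_smul, add_zero] at h1
    rw [← h1]
    refine Finset.sum_congr rfl fun s _ => ?_
    by_cases hc : c s = i
    · subst hc
      rw [Pi.single_eq_same, opE_b (halt _) (hne _)]
      by_cases hJ : J s = 1
      · rw [if_pos hJ, if_pos ⟨rfl, hJ⟩, update_word]
      · rw [if_neg hJ, if_neg fun h => hJ h.2, h.map_update_zero]
    · rw [Pi.single_eq_of_ne hc, LinearMap.zero_apply, h.map_update_zero, if_neg fun h => hc h.1]
  · have h1 := (mem_GG.1 (hDf i)).2 n c a h hh (fun s => b (c s) (J s))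
    simp only [mul_zero, zero_smul, add_zero] at h1
    rw [← h1]
    refine Finset.sum_congr rfl fun s _ => ?_
    by_cases hc : c s = i
    · subst hc
      rw [Pi.single_eq_same, opF_b (halt _) (hne _)]
      by_cases hJ : J s = 0
      · rw [if_pos hJ, if_pos ⟨rfl, hJ⟩, update_word]
      · rw [if_neg hJ, if_neg fun h => hJ h.2, h.map_update_zero]
    · rw [Pi.single_eq_of_ne hc, LinearMap.zero_apply, h.map_update_zero, if_neg fun h => hc h.1]
  · have h1 := (mem_GG.1 (hDh i)).2 n c a h hh (fun s => b (c s) (J s))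
    simp only [mul_zero, zero_smul, add_zero] at h1
    rw [← h1, wt, Int.cast_sum, Finset.sum_smul]
    refine Finset.sum_congr rfl fun s _ => ?_
    by_cases hc : c s = i
    · subst hc
      rw [Pi.single_eq_same, opH_b (halt _) (hne _), h.map_update_smul, update_eq_self,
        if_pos rfl]
      by_cases hJ : J s = 0
      · rw [if_pos hJ, if_pos hJ, Int.cast_one]
      · rw [if_neg hJ, if_neg hJ, Int.cast_neg, Int.cast_one]
    · rw [Pi.single_eq_of_ne hc, LinearMap.zero_apply, h.map_update_zero, if_neg hc,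
        Int.cast_zero, zero_smul]

end Pool.Agent.Y132.EP
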