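import Pool.Agent.Y132.EP.Asm4
import Pool.Agent.Y132.EP.Lin
import Pool.Agent.Y132.EP.Irr2
import Pool.Agent.TH118.SG.Defs
import Pool.Agent.TH125.Gal.Tower

/-!
# Words over initial segments of the integers
-/

open CategoryTheory AlgebraicGeometry Finset Function

set_option linter.unusedSectionVars false

universe u v w

namespace Pool.Agent.Y132.EP

open Pool.Agent.H914 Pool.Agent.H914.VarClass Pool.Agent.H914.VarClass.Obj
  Pool.Agent.H914.WeilCohomology Pool.Agent.H281R3.HT Pool.Agent.W552 Pool.Agent.TH125.Gal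

section words

variable {K : Type*} [Field K] {E : Type*} [AddCommGroup E] [Module K E] {Λ : Type}
  [DecidableEq Λ]

theorem get_inj {l : List Λ} (hl : l.Nodup) : Function.Injective l.get :=
  List.nodup_iff_injective_get.1 hl

theorem extend_cons {t : Λ} {l : List Λ} (hl : (t :: l).Nodup) (b : Fin 2)
    (J' : Fin l.length → Fin 2) (K' : Λ → Fin 2) :
    extend l.get J' (update K' t b) = extend (t :: l).get (Fin.cons b J') K' := by
  have h1 := get_inj hl
  have h2 := get_inj (List.nodup_cons.1 hl).2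
  have ht := (List.nodup_cons.1 hl).1
  funext x
  by_cases hx : ∃ i, l.get i = x
  · obtain ⟨i, rfl⟩ := hx
    rw [h2.extend_apply]
    have h3 : l.get i = (t :: l).get i.succ := rfl
    rw [h3, h1.extend_apply]
    rfl
  · rw [extend_apply' _ _ _ hx]
    by_cases hxt : x = t
    · rw [hxt, update_self]
      exact (h1.extend_apply (Fin.cons b J' : Fin (l.length + 1) → Fin 2) K' 0).symm
    · rw [update_of_ne hxt, extend_apply']
      rintro ⟨i, hi⟩
      refine Fin.cases (fun h => hxt h.symm) (fun i h => hx ⟨i, h⟩) i hi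

/-- The action of matrices, as a sum over all words. -/
theorem SL_eq (N : Λ → Fin 2 → Fin 2 → K) (l : List Λ) (hl : l.Nodup) (G : (Λ → Fin 2) → E)
    (K' : Λ → Fin 2) : SL N l G K' = ∑ J' : Fin l.length → Fin 2,
      (∏ s, N (l.get s) (K' (l.get s)) (J' s)) • G (extend l.get J' K') := by
  induction l generalizing K' with
  | nil =>
    rw [SL]
    have h1 : (univ : Finset (Fin ([] : List Λ).length → Fin 2)) = {Fin.elim0} := by
      ext J'
      simp only [Finset.mem_univ, Finset.mem_singleton, true_iff]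
      funext i
      exact i.elim0
    rw [h1, Finset.sum_singleton]
    have h2 : (univ : Finset (Fin ([] : List Λ).length)) = ∅ := by
      ext i
      exact i.elim0
    rw [h2, Finset.prod_empty, one_smul]
    congr 1
    funext x
    rw [extend_apply']
    rintro ⟨i, _⟩
    exact i.elim0
  | cons t l ih =>
    have hl' := (List.nodup_cons.1 hl).2
    have ht := (List.nodup_cons.1 hl).1
    rw [SL, Sp]
    have h1 := Fintype.sum_equiv (Fin.consEquiv fun _ : Fin (l.length + 1) => Fin 2)
      (fun y : Fin 2 × (Fin l.length → Fin 2) => N t (K' t) y.1 •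
        ((∏ s, N (l.get s) (K' (l.get s)) (y.2 s)) • G (extend l.get y.2 (update K' t y.1))))
      (fun J' : Fin (t :: l).length → Fin 2 => (∏ s, N ((t :: l).get s) (K' ((t :: l).get s))
        (J' s)) • G (extend (t :: l).get J' K'))
      (fun y => by
        rw [extend_cons hl, smul_smul]
        congr 1
        exact (Fin.prod_univ_succ (n := l.length) fun s => N ((t :: l).get s)
          (K' ((t :: l).get s)) ((Fin.cons y.1 y.2 : Fin (l.length + 1) → Fin 2) s)).symm)
    refine Eq.trans ?_ h1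
    rw [Fintype.sum_prod_type]
    refine Finset.sum_congr rfl fun b _ => ?_
    rw [ih hl', Finset.smul_sum]
    refine Finset.sum_congr rfl fun J' _ => ?_
    congr 2
    refine Finset.prod_congr rfl fun s _ => ?_
    rw [update_of_ne]
    rintro h
    exact ht (h ▸ List.get_mem l s)

theorem extend_agree {l : List Λ} (hl : l.Nodup) (J : Fin l.length → Fin 2) (K' K'' : Λ → Fin 2)
    (s : Λ) (hs : s ∈ l) : extend l.get J K' s = extend l.get J K'' s := by
  obtain ⟨i, rfl⟩ := List.get_of_mem hs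
  rw [(get_inj hl).extend_apply, (get_inj hl).extend_apply]

theorem extend_swap {l : List Λ} (hl : l.Nodup) (J : Fin l.length → Fin 2)
    (p q : Fin l.length) : extend l.get (J ∘ Equiv.swap p q) (fun _ => 0) =
      extend l.get J (fun _ => 0) ∘ Equiv.swap (l.get p) (l.get q) := by
  have h1 := get_inj hl
  funext x
  rw [Function.comp_apply]
  by_cases hx : ∃ i, l.get i = x
  · obtain ⟨i, rfl⟩ := hx
    rw [h1.extend_apply, h1.swap_apply, h1.extend_apply]
    rfl
  · rw [extend_apply' _ _ _ hx, Equiv.swap_apply_of_ne_of_ne, extend_apply' _ _ _ hx]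
    · rintro rfl
      exact hx ⟨p, rfl⟩
    · rintro rfl
      exact hx ⟨q, rfl⟩

end words

variable {k : Type u} [Field k] {𝒱 : VarClass k} {ops : CycleOps 𝒱}
  {W : WeilCohomology.{u, v} ops} {Γ : Type w} [Group Γ] {ι : Type}

/-- The function `F` on words of length `n` has values in degree `m` and is multiplied by the `j`-th
power of the character. -/
structure FT (χ : Γ →* W.Kˣ) (X : ι → DG W Γ) (f : ∀ i, Frame2 (X i).X W) (Z : DG W Γ) {n : ℕ}
    (c : Fin n → ι) (m j : ℕ) (F : (Fin n → Fin 2) → W.H Z.X) : Prop where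
  gr : ∀ J, F J ∈ W.gr Z.X m
  deg : m + ∑ s, (X (c s)).X.dim = 2 * j
  act : ∃ Δ : Subgroup Γ, Δ.FiniteIndex ∧ ∀ g ∈ Δ, ∀ J, ∑ J' : Fin n → Fin 2,
    (∏ s, Nm X c f g s (J s) (J' s)) • Z.act g (F J') = (χ g : W.K) ^ j • F J

variable {χ : Γ →* W.Kˣ} {X : ι → DG W Γ} {f : ∀ i, Frame2 (X i).X W} {Z : DG W Γ}

/-- A nonzero symmetric Tate function over the word `c`. -/
def Occ (χ : Γ →* W.Kˣ) (X : ι → DG W Γ) (f : ∀ i, Frame2 (X i).X W) (Z : DG W Γ) {n : ℕ}
    (c : Fin n → ι) (m j : ℕ) : Prop :=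
  ∃ F : (Fin n → Fin 2) → W.H Z.X, FT χ X f Z c m j F ∧
    (∀ p q, c p = c q → ∀ J, F (J ∘ Equiv.swap p q) = F J) ∧ ∃ J, F J ≠ 0

theorem IsT.flat {Λ : Type} [DecidableEq Λ] {c : Λ → ι} {l : List Λ} (hl : l.Nodup) {m j : ℕ}
    {F : (Λ → Fin 2) → W.H Z.X} (hF : IsT χ X c f Z l m j F) (hF0 : F ≠ 0)
    (hsym : ∀ p ∈ l, ∀ q ∈ l, c p = c q → ∀ J, F (J ∘ Equiv.swap p q) = F J) :
    Occ χ X f Z (fun s => c (l.get s)) m j := by
  have h1 := get_inj hl
  refine ⟨fun J => F (extend l.get J fun _ => 0), ⟨fun J => hF.gr _, ?_, ?_⟩, ?_, ?_⟩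
  · rw [← hF.deg]
    congr 1
    rw [dsum, ← List.sum_ofFn]
    congr 1
    conv_rhs => rw [← List.ofFn_get l]
    rw [List.map_ofFn]
    rfl
  · obtain ⟨Δ, hΔ, hact⟩ := hF.act
    refine ⟨Δ, hΔ, fun g hg J => ?_⟩
    have h2 := congrFun (hact g hg) (extend l.get J fun _ => 0)
    rw [SL_eq _ l hl, Pi.smul_apply] at h2
    rw [← h2]
    refine Finset.sum_congr rfl fun J' _ => ?_
    congr 1
    · refine Finset.prod_congr rfl fun s _ => ?_
      rw [h1.extend_apply]
      rfl
    · congr 1
      exact hF.dep _ _ fun s hs => extend_agree hl J' _ _ s hs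
  · intro p q hpq J
    beta_reduce
    rw [extend_swap hl, hsym _ (List.get_mem l p) _ (List.get_mem l q) hpq]
  · obtain ⟨J, hJ⟩ := Function.ne_iff.1 hF0
    refine ⟨fun s => J (l.get s), ?_⟩
    have h2 : F (extend l.get (fun s => J (l.get s)) fun _ => 0) = F J := by
      refine hF.dep _ _ fun s hs => ?_
      obtain ⟨i, rfl⟩ := List.get_of_mem hs
      rw [h1.extend_apply]
    change F (extend l.get (fun s => J (l.get s)) fun _ => 0) ≠ 0
    rw [h2]
    exact hJ

end Pool.Agent.Y132.EP
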