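import Pool.Agent.Y132.EP.Ord
import Pool.Agent.Y132.EP.Conv

/-!
# The Tate conjecture for products with powers: finitely many cases suffice
-/

open CategoryTheory AlgebraicGeometry Finset Function

set_option linter.unusedSectionVars false

universe u v w

namespace Pool.Agent.Y132.EP

open Pool.Agent.H914 Pool.Agent.H914.VarClass Pool.Agent.H914.VarClass.Obj
  Pool.Agent.H914.WeilCohomology Pool.Agent.H281R3.HT Pool.Agent.W552 Pool.Agent.TH125.Gal
  Pool.Agent.TH118.SG

theorem ofFn_count {ι : Type} [DecidableEq ι] (i : ι) : ∀ {n : ℕ} (c : Fin n → ι),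
    (List.ofFn c).count i = (univ.filter fun s => c s = i).card := by
  intro n
  induction n with
  | zero =>
    intro c
    simp
  | succ n ih =>
    intro c
    rw [List.ofFn_succ, List.count_cons, ih, Fin.card_filter_univ_succ]
    by_cases h : c 0 = i
    · rw [if_pos h, if_pos (by simpa using h)]
    · rw [if_neg h, if_neg (by simpa using h), add_zero]

theorem ofFn_toFinset {ι : Type} [DecidableEq ι] {n : ℕ} (c : Fin n → ι) :
    (List.ofFn c).toFinset = univ.image c := by
  ext i
  rw [List.mem_toFinset, List.mem_ofFn, Finset.mem_image]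
  simp

variable {k : Type u} [Field k] {𝒱 : VarClass k} {ops : CycleOps 𝒱}
  {W : WeilCohomology.{u, 0} ops} {Γ : Type} [Group Γ] {ι : Type} {χ : Γ →* W.Kˣ}

theorem exists_frame {A : 𝒱.Obj} (hDX : HomEqNum W A) (h2 : transRank W A = 2) :
    Nonempty (Frame2 A W) := by
  obtain ⟨s⟩ := exists_SB hDX
  refine ⟨⟨s, ?_⟩⟩
  have h1 := Module.finrank_eq_card_basis s.bT
  rw [Fintype.card_fin] at h1
  rw [← h1]
  exact h2

section

variable {X : ι → DG W Γ} {Z : DG W Γ}

theorem map_get {Λ : Type} (c : Λ → ι) (l : List Λ) :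
    l.map c = List.ofFn fun s => c (l.get s) := by
  conv_lhs => rw [← List.ofFn_get l]
  rw [List.map_ofFn]
  rfl

/-- The lists over which there are nonzero symmetric Tate functions are small. -/
theorem Occ.small [IsAlgClosed W.K] [DecidableEq ι] (hX : Hy χ X) {f : ∀ i, Frame2 (X i).X W}
    {B : Finset ι} (hB : ∀ (n : ℕ) (c : Fin n → ι) (m j : ℕ), Occ χ X f Z c m j → ∀ s, c s ∈ B)
    {n : ℕ} {c : Fin n → ι} {m j : ℕ} (h : Occ χ X f Z c m j) :
    SmallList χ (fun i => (X i).toGVar) Z.toGVar B (List.ofFn c) := by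
  have hsum : sumDim (fun i => (X i).toGVar) (List.ofFn c) = ∑ s, (X (c s)).X.dim := by
    rw [sumDim, List.map_ofFn, List.sum_ofFn]
    rfl
  refine ⟨fun i hi => ?_, ⟨m, ?_, ?_, fun ν g hχ hZ hor => ?_⟩⟩
  · obtain ⟨s, rfl⟩ := List.mem_ofFn.1 hi
    exact hB n c m j h s
  · obtain ⟨F, hF, -⟩ := h
    rw [hsum, hF.deg]
    exact even_two_mul j
  · have h1 := h.prod hX
    rw [ofFn_toFinset]
    refine le_trans (le_of_eq ?_) h1
    refine Finset.prod_congr rfl fun i _ => ?_
    rw [ofFn_count]
  · rw [hsum]
    exact h.ordinary hX hχ hZ fun s => hor _ (List.mem_ofFn.2 ⟨s, rfl⟩)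

/-- **Main theorem**, for the products over lists. -/
theorem main_tow [IsAlgClosed W.K] [DecidableEq ι] (hX : Hy χ X) {f : ∀ i, Frame2 (X i).X W}
    {B : Finset ι} (hB : ∀ (n : ℕ) (c : Fin n → ι) (m j : ℕ), Occ χ X f Z c m j → ∀ s, c s ∈ B)
    {n : ℕ} (c : Fin n → ι) {l : List (Fin n)} (hl : l.Nodup)
    (hT : ∀ l', l'.Sublist l → SmallList χ (fun i => (X i).toGVar) Z.toGVar B (l'.map c) →
      TateConjecture χ (tow X Z c l').toGVar) : TateConjecture χ (tow X Z c l).toGVar := by
  refine tate_of_sub (f := f) hX.gal hX.mid hl ?_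
  have key : ∀ (N : ℕ) (l' : List (Fin n)), l'.length ≤ N → l'.Sublist l →
      St χ X c f Z l' := by
    intro N
    induction N with
    | zero =>
      intro l' hl' hsub
      by_cases hocc : ∃ m j, Occ χ X f Z (fun s => c (l'.get s)) m j
      · obtain ⟨m, j, h⟩ := hocc
        have h1 := h.small hX hB
        rw [← map_get] at h1
        exact St.of_tate (fun i g t ht => act_trans (hX.gal i) g ht) hX.mid (hl.sublist hsub)
          (hT l' hsub h1)
      · intro m j F hF
        by_contra hna
        have hnil : l' = [] := List.length_eq_zero_iff.1 (Nat.le_zero.1 hl')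
        have hF0 : F ≠ 0 := by
          rintro rfl
          apply hna
          rw [asm_zero]
          exact Submodule.zero_mem _
        exact hocc ⟨m, j, hF.flat (hl.sublist hsub) hF0 fun p hp => by
          rw [hnil] at hp
          exact absurd hp List.not_mem_nil⟩
    | succ N ih =>
      intro l' hl' hsub
      by_cases hocc : ∃ m j, Occ χ X f Z (fun s => c (l'.get s)) m j
      · obtain ⟨m, j, h⟩ := hocc
        have h1 := h.small hX hB
        rw [← map_get] at h1
        exact St.of_tate (fun i g t ht => act_trans (hX.gal i) g ht) hX.mid (hl.sublist hsub)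
          (hT l' hsub h1)
      · intro m j F hF
        by_contra hna
        obtain ⟨F', hF', hne, hsym⟩ := exists_sym hX.gal hX.mid hX.odd hX.hom (hl.sublist hsub)
          (fun p hp q hq hpq => ih _ (by
            have hq' : q ∈ l'.erase p := (List.mem_erase_of_ne hpq.symm).2 hq
            rw [List.length_erase_of_mem hq', List.length_erase_of_mem hp]
            omega) ((List.erase_sublist.trans List.erase_sublist).trans hsub)) hF hna
        exact hocc ⟨m, j, hF'.flat (hl.sublist hsub) hne hsym⟩
  exact fun l' hl' => key l'.length l' le_rfl hl'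

end

/-- **Finitely many products suffice.** -/
theorem tate_iff [IsAlgClosed W.K] [DecidableEq ι] {X : ι → GVar W Γ} {Z : GVar W Γ}
    (hX : TwoDimFamily χ X) (hZ : GradedVar Z) :
    ∃ B : Finset ι, 2 * B.card ≤ Module.finrank W.K (W.H Z.X) ∧
      ∀ (L : List ι) (Y : GVar W Γ), IsTower X Z L Y →
        (TateConjecture χ Y ↔ ∀ (L' : List ι) (Y' : GVar W Γ), L'.Sublist L →
          SmallList χ X Z B L' → IsTower X Z L' Y' → TateConjecture χ Y') := by
  let X' : ι → DG W Γ := fun i => ⟨X i, (hX.galois i).gr_mem⟩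
  let Z' : DG W Γ := ⟨Z, hZ⟩
  have hX' : Hy χ X' := ⟨fun i => isGalois (hX.galois i), hX.homEqNum, hX.middle, hX.odd,
    hX.rank, hX.irreducible, hX.hyperbolic, hX.adjoint⟩
  have f : ∀ i, Frame2 (X' i).X W := fun i => (exists_frame (hX.homEqNum i) (hX.rank i)).some
  obtain ⟨B, hBcard, hB⟩ := exists_B hX' f Z'
  refine ⟨B, hBcard, fun L Y hY => ⟨fun hT L' Y' hsub _ hY' => ?_, fun hT => ?_⟩⟩
  · -- subproducts
    have e : ∀ L : List ι, L = L.map id := fun L => (List.map_id L).symm
    have hone : ∀ i, (1 : W.H (X' i).X) ≠ 0 := by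
      intro i h0
      have h2 := hX.rank i
      have h3 : ∀ x : W.H (X i).X, x = 0 := fun x => by
        rw [← one_mul x]
        change (1 : W.H (X' i).X) * x = 0
        rw [h0, zero_mul]
      have h4 : Subsingleton (transcendental W (X i).X) :=
        ⟨fun a b => Subtype.ext ((h3 a).trans (h3 b).symm)⟩
      rw [transRank, Module.finrank_zero_of_subsingleton] at h2
      exact absurd h2 (by decide)
    rw [e L] at hY
    rw [e L'] at hY'
    have h2 := isTower_unique (X := X') (Z := Z') L hY
    have h3 := isTower_unique (X := X') (Z := Z') L' hY'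
    subst h2
    subst h3
    exact tate_sublist hX'.hom hone hsub hT
  · -- reduction to small lists
    have e : L = (List.finRange L.length).map L.get := by
      rw [← List.ofFn_eq_map, List.ofFn_get]
    have hY' : IsTower X Z ((List.finRange L.length).map L.get) Y := by
      rw [← e]
      exact hY
    have h2 := isTower_unique (X := X') (Z := Z') (List.finRange L.length) hY'
    subst h2
    refine main_tow (f := f) hX' hB L.get (List.nodup_finRange _) fun l' hl' hsmall => ?_
    refine hT (l'.map L.get) _ ?_ hsmall (isTower_tow X' Z' L.get l')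
    have h3 := hl'.map L.get
    rwa [← e] at h3

end Pool.Agent.Y132.EP
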