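import Pool.Agent.Y132.EP.Flat
import Pool.Agent.Y132.EP.Defs

/-!
# The multilinear maps given by functions on words
-/

open CategoryTheory AlgebraicGeometry Finset Function

set_option linter.unusedSectionVars false

universe u v w

namespace Pool.Agent.Y132.EP

open Pool.Agent.H914 Pool.Agent.H914.VarClass Pool.Agent.H914.VarClass.Obj
  Pool.Agent.H914.WeilCohomology Pool.Agent.H281R3.HT Pool.Agent.W552 Pool.Agent.TH125.Gal
  Pool.Agent.TH118.SG

variable {k : Type u} [Field k] {𝒱 : VarClass k} {ops : CycleOps 𝒱}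
  {W : WeilCohomology.{u, 0} ops} {Γ : Type} [Group Γ]

section tower

variable {ι : Type} {Λ : Type}

theorem isTower_unique {X : ι → DG W Γ} {Z : DG W Γ} {c : Λ → ι} (l : List Λ) :
    ∀ {Y : GVar W Γ}, IsTower (fun i => (X i).toGVar) Z.toGVar (l.map c) Y →
      Y = (tow X Z c l).toGVar := by
  induction l with
  | nil =>
    intro Y h
    cases h
    rfl
  | cons s l ih =>
    intro Y h
    cases h with
    | cons _ h1 h2 =>
      have h3 := ih h1
      subst h3
      exact isProdVar_unique h2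

theorem isTower_tow (X : ι → DG W Γ) (Z : DG W Γ) (c : Λ → ι) (l : List Λ) :
    IsTower (fun i => (X i).toGVar) Z.toGVar (l.map c) (tow X Z c l).toGVar := by
  induction l with
  | nil => exact IsTower.nil
  | cons s l ih => exact IsTower.cons _ ih (isProdVar_prod _ _)

end tower

variable {I : Type} {χ : Γ →* W.Kˣ}

/-- The hypotheses. -/
structure Hy (χ : Γ →* W.Kˣ) (X : I → DG W Γ) : Prop where
  gal : ∀ i, IsGalois W χ (X i).X (X i).act
  hom : ∀ i, HomEqNum W (X i).X
  mid : ∀ i, transcendental W (X i).X ≤ W.gr (X i).X (X i).X.dim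
  odd : ∀ i, Odd (X i).X.dim
  two : ∀ i, transRank W (X i).X = 2
  irr : ∀ i, StronglyIrreducible (X i).act (transcendental W (X i).X)
  hyp : ∀ i, HyperbolicAct (transcendental W (X i).X) (X i).act
  iso : ∀ i j, i ≠ j → ¬AdIso (X i).toGVar (X j).toGVar

theorem Hy.comp {X : I → DG W Γ} (h : Hy χ X) {I' : Type} (e : I' → I)
    (he : Function.Injective e) : Hy χ (fun i => X (e i)) :=
  ⟨fun i => h.gal (e i), fun i => h.hom (e i), fun i => h.mid (e i), fun i => h.odd (e i),
    fun i => h.two (e i), fun i => h.irr (e i), fun i => h.hyp (e i),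
    fun _ _ hij => h.iso _ _ (he.ne hij)⟩

variable {X : I → DG W Γ}

theorem Hy.alt (h : Hy χ X) (i : I) (v : transcendental W (X i).X) :
    rform W (X i).X (transcendental W (X i).X) v v = 0 := by
  have h1 := trans_symm (h.mid i) v.2 v.2
  rw [(h.odd i).neg_one_pow] at h1
  rw [rform_apply]
  have h2 : (2 : W.K) * bil W (X i).X v v = 0 := by linear_combination h1
  exact (mul_eq_zero.1 h2).resolve_left two_ne_zero

theorem conj_iff (h : Hy χ X) (i : I) (g : Γ) (A A' : skewT (X i).toGVar) :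
    IsConjBy (X i).toGVar g A A' ↔
      (A' : transcendental W (X i).X →ₗ[W.K] transcendental W (X i).X) =
        cj (rhoT (h.gal i)) g A := by
  constructor
  · intro h1
    apply LinearMap.ext
    intro t
    apply Subtype.ext
    refine h1 (rhoT (h.gal i) g⁻¹ t) t ?_
    rw [rhoT_apply]
    exact (act_inv _ g _).symm
  · intro h1 t t' ht
    have h2 : t' = rhoT (h.gal i) g t := Subtype.ext ht
    rw [h1, h2, cj_apply, ginv', rhoT_apply]

/-- The adjoint representations. -/
theorem adFam [IsAlgClosed W.K] (h : Hy χ X) : AdFam χ (fun i => (X i).X.dim)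
    (fun i => rform W (X i).X (transcendental W (X i).X)) (fun i => rhoT (h.gal i)) := by
  refine ⟨fun i g x y => bil_act (h.gal i) g x y, fun i U hU hst => ?_, fun i A hA hst => ?_,
    fun i j hij hf => ?_, fun i => ?_⟩
  · exact sk_irr (σ := rhoT (h.gal i)) (h.alt i) (trans_nondeg (h.hom i)) (h.two i)
      (SI_rhoT (P := ⟨(X i).X, 0⟩) (h.gal i) (h.irr i)) U hU hst
  · exact sk_inv (σ := rhoT (h.gal i)) (h.alt i) (trans_nondeg (h.hom i)) (h.two i)
      (SI_rhoT (P := ⟨(X i).X, 0⟩) (h.gal i) (h.irr i)) hA hst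
  · obtain ⟨f, hf⟩ := hf
    refine h.iso i j hij ⟨f, fun g A A' hAA => ?_⟩
    exact (conj_iff h j g (f A) (f A')).2 (hf g A A' ((conj_iff h i g A A').1 hAA))
  · obtain ⟨F, x, hx, y, hy, hx0, hy0, a, b, h1, h2, h3⟩ := h.hyp i
    exact ⟨F, ⟨x, hx⟩, ⟨y, hy⟩, fun h => hx0 (congrArg Subtype.val h),
      fun h => hy0 (congrArg Subtype.val h), a, b, Subtype.ext h1, Subtype.ext h2, h3⟩

/-- the linear action -/
noncomputable def lin (Z : GVar W Γ) : Γ →* (W.H Z.X →ₗ[W.K] W.H Z.X) where
  toFun g := (Z.act g).toLinearMap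
  map_one' := by
    rw [map_one]
    rfl
  map_mul' g g' := by
    rw [map_mul]
    rfl

theorem lin_apply (Z : GVar W Γ) (g : Γ) (x : W.H Z.X) : lin Z g x = Z.act g x := rfl

variable {f : ∀ i, Frame2 (X i).X W} {Z : DG W Γ} {n : ℕ} {c : Fin n → I} {m j : ℕ}
  {F : (Fin n → Fin 2) → W.H Z.X}

/-- The multilinear map. -/
noncomputable def hmul (X : I → DG W Γ) (f : ∀ i, Frame2 (X i).X W) (Z : DG W Γ) {n : ℕ}
    (c : Fin n → I) (F : (Fin n → Fin 2) → W.H Z.X) :
    MultilinearMap W.K (fun s => transcendental W (X (c s)).X) (W.H Z.X) :=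
  ∑ J : Fin n → Fin 2, ((MultilinearMap.mkPiAlgebra W.K (Fin n) W.K).compLinearMap fun s =>
    ((bil W (X (c s)).X).flip ((f (c s)).t (J s))) ∘ₗ
      (transcendental W (X (c s)).X).subtype).smulRight (F J)

theorem hmul_apply (v : ∀ s, transcendental W (X (c s)).X) : hmul X f Z c F v =
    ∑ J : Fin n → Fin 2, (∏ s, bil W (X (c s)).X (v s) ((f (c s)).t (J s))) • F J := by
  rw [hmul, _root_.sum_apply]
  refine Finset.sum_congr rfl fun J _ => ?_
  rw [MultilinearMap.smulRight_apply, MultilinearMap.compLinearMap_apply,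
    MultilinearMap.mkPiAlgebra_apply]
  rfl

/-- **Semi-equivariance.** -/
theorem hmul_tate (h : Hy χ X) (hF : FT χ X f Z c m j F) :
    TateMap χ (fun i => rhoT (h.gal i)) (lin Z.toGVar) c
      ((∑ s, ((X (c s)).X.dim : ℤ)) - j) (hmul X f Z c F) := by
  obtain ⟨Δ, hΔ, hact⟩ := hF.act
  refine ⟨Δ, hΔ, fun g hg v => ?_⟩
  have hχ : (χ g : W.K) ≠ 0 := Units.ne_zero _
  have h1 : (χ g : W.K) ^ j • hmul X f Z c F (fun s => rhoT (h.gal (c s)) g (v s)) =
      (∏ s, (χ g : W.K) ^ (X (c s)).X.dim) • Z.act g (hmul X f Z c F v) := by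
    rw [hmul_apply, hmul_apply, Finset.smul_sum, map_sum, Finset.smul_sum]
    have e1 : ∀ J : Fin n → Fin 2, (χ g : W.K) ^ j • (∏ s, bil W (X (c s)).X
        (rhoT (h.gal (c s)) g (v s) : transcendental W (X (c s)).X) ((f (c s)).t (J s))) • F J =
        ∑ J' : Fin n → Fin 2, (∏ s, bil W (X (c s)).X
          (rhoT (h.gal (c s)) g (v s) : transcendental W (X (c s)).X) ((f (c s)).t (J s)) *
            Nm X c f g s (J s) (J' s)) • Z.act g (F J') := by
      intro J
      rw [smul_comm, ← hact g hg J, Finset.smul_sum]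
      refine Finset.sum_congr rfl fun J' _ => ?_
      rw [smul_smul, ← Finset.prod_mul_distrib]
    rw [Finset.sum_congr rfl fun J _ => e1 J, Finset.sum_comm]
    refine Finset.sum_congr rfl fun J' _ => ?_
    rw [← Finset.sum_smul, map_smul, smul_smul]
    congr 1
    have e2 := Fintype.prod_sum (fun (s : Fin n) (a : Fin 2) => bil W (X (c s)).X
      (rhoT (h.gal (c s)) g (v s) : transcendental W (X (c s)).X) ((f (c s)).t a) *
        Nm X c f g s a (J' s))
    rw [← e2, ← Finset.prod_mul_distrib]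
    refine Finset.prod_congr rfl fun s _ => ?_
    rw [← bil_act (h.gal (c s)) g,
      (f (c s)).expand_t (act_trans (h.gal (c s)) g ((f (c s)).t_mem (J' s))), map_sum]
    refine Finset.sum_congr rfl fun a _ => ?_
    rw [map_smul, smul_eq_mul, mul_comm]
    rfl
  rw [Finset.prod_pow_eq_pow_sum] at h1
  rw [lin_apply]
  apply smul_right_injective _ (pow_ne_zero j hχ)
  beta_reduce
  rw [h1, smul_smul]
  congr 1
  rw [Units.val_zpow_eq_zpow_val, ← zpow_natCast, ← zpow_natCast, ← zpow_add₀ hχ]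
  congr 1
  push_cast
  ring

/-- the dual basis as a basis -/
noncomputable def ub (f : ∀ i, Frame2 (X i).X W) (i : I) :
    Module.Basis (Fin 2) W.K (transcendental W (X i).X) :=
  (f i).s.uT.reindex (finCongr (f i).two)

theorem ub_apply (i : I) (a : Fin 2) : (ub f i a : W.H (X i).X) = (f i).u a := by
  rw [ub, Module.Basis.reindex_apply]
  rfl

theorem hmul_u (J : Fin n → Fin 2) : hmul X f Z c F (fun s => ub f (c s) (J s)) = F J := by
  rw [hmul_apply, Finset.sum_eq_single J]
  · rw [Finset.prod_eq_one, one_smul]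
    intro s _
    rw [ub_apply, Frame2.u_t, if_pos rfl]
  · intro J' _ hJ
    obtain ⟨s, hs⟩ := Function.ne_iff.1 hJ
    rw [Finset.prod_eq_zero (Finset.mem_univ s), zero_smul]
    rw [ub_apply, Frame2.u_t, if_neg hs]
  · intro h
    exact absurd (Finset.mem_univ _) h

theorem basis_ne (h : Hy χ X) (i : I)
    (b : Module.Basis (Fin 2) W.K (transcendental W (X i).X)) :
    rform W (X i).X (transcendental W (X i).X) (b 0) (b 1) ≠ 0 := by
  intro h0
  apply b.ne_zero 0
  refine trans_nondeg (h.hom i) _ fun y => ?_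
  rw [← b.sum_repr y, Fin.sum_univ_two, map_add, map_smul, map_smul, h0, h.alt, smul_zero,
    smul_zero, add_zero]

/-- **The operators on the cohomology of `Z`.** -/
theorem exists_ops [IsAlgClosed W.K] [Fintype I] [DecidableEq I] (h : Hy χ X)
    (f : ∀ i, Frame2 (X i).X W) (Z : DG W Γ)
    (b : ∀ i, Module.Basis (Fin 2) W.K (transcendental W (X i).X)) :
    ∃ De Df Dh : I → (W.H Z.X →ₗ[W.K] W.H Z.X), ∀ (n : ℕ) (c : Fin n → I) (m j : ℕ)
      (F : (Fin n → Fin 2) → W.H Z.X), FT χ X f Z c m j F →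
        SlAct (K := W.K) c (fun J => hmul X f Z c F fun s => b (c s) (J s)) De Df Dh := by
  obtain ⟨De, Df, Dh, hD⟩ := exists_sl (adFam h) (lin Z.toGVar) (fun i => b i) h.alt
    (fun i => basis_ne h i (b i))
  exact ⟨De, Df, Dh, fun n c m j F hF => hD n c _ _ (hmul_tate h hF)⟩

theorem exists_ops_u [IsAlgClosed W.K] [Fintype I] [DecidableEq I] (h : Hy χ X)
    (f : ∀ i, Frame2 (X i).X W) (Z : DG W Γ) :
    ∃ De Df Dh : I → (W.H Z.X →ₗ[W.K] W.H Z.X), ∀ (n : ℕ) (c : Fin n → I) (m j : ℕ)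
      (F : (Fin n → Fin 2) → W.H Z.X), FT χ X f Z c m j F →
        SlAct (K := W.K) c F De Df Dh := by
  obtain ⟨De, Df, Dh, hD⟩ := exists_ops h f Z (ub f)
  refine ⟨De, Df, Dh, fun n c m j F hF => ?_⟩
  have h1 := hD n c m j F hF
  simp only [hmul_u] at h1
  exact h1

end Pool.Agent.Y132.EP
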