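import Pool.Agent.Y132.EP.Bnd

/-!
# Ordinary places
-/

open CategoryTheory AlgebraicGeometry Finset Function

set_option linter.unusedSectionVars false

universe u v w

namespace Pool.Agent.Y132.EP

open Pool.Agent.H914 Pool.Agent.H914.VarClass Pool.Agent.H914.VarClass.Obj
  Pool.Agent.H914.WeilCohomology Pool.Agent.H281R3.HT Pool.Agent.W552 Pool.Agent.TH125.Gal
  Pool.Agent.TH118.SG

/-- eigenvalues of a power -/
theorem exists_root {K E : Type*} [Field K] [IsAlgClosed K] [AddCommGroup E] [Module K E]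
    [FiniteDimensional K E] (A : Module.End K E) {M : ℕ} {z : E} (hz : z ≠ 0) {κ : K}
    (h : (A ^ M) z = κ • z) : ∃ (e : K) (z' : E), z' ≠ 0 ∧ A z' = e • z' ∧ e ^ M = κ := by
  have hU : ∀ x ∈ Module.End.eigenspace (A ^ M) κ, A x ∈ Module.End.eigenspace (A ^ M) κ := by
    intro x hx
    rw [Module.End.mem_eigenspace_iff] at hx ⊢
    rw [← Module.End.mul_apply, pow_mul_comm', Module.End.mul_apply, hx, map_smul]
  have hnt : Nontrivial (Module.End.eigenspace (A ^ M) κ) :=
    ⟨⟨⟨z, Module.End.mem_eigenspace_iff.2 h⟩, 0, fun h0 => hz (congrArg Subtype.val h0)⟩⟩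
  obtain ⟨e, he⟩ := Module.End.exists_eigenvalue (A.restrict hU)
  obtain ⟨v, hv⟩ := he.exists_hasEigenvector
  have hv0 : (v : E) ≠ 0 := fun h0 => hv.2 (Subtype.ext h0)
  have h1 : A v = e • (v : E) := congrArg Subtype.val hv.apply_eq_smul
  refine ⟨e, v, hv0, h1, ?_⟩
  have h2 : ∀ n : ℕ, (A ^ n) (v : E) = e ^ n • (v : E) := by
    intro n
    induction n with
    | zero => rw [pow_zero, pow_zero, one_smul, Module.End.one_apply]
    | succ n ih =>
      rw [pow_succ', Module.End.mul_apply, ih, map_smul, h1, smul_smul, pow_succ]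
  have h3 := Module.End.mem_eigenspace_iff.1 v.2
  rw [h2] at h3
  have h4 : (e ^ M - κ) • (v : E) = 0 := by rw [sub_smul, h3, sub_self]
  exact sub_eq_zero.1 ((smul_eq_zero.1 h4).resolve_right hv0)

variable {k : Type u} [Field k] {𝒱 : VarClass k} {ops : CycleOps 𝒱}
  {W : WeilCohomology.{u, 0} ops} {Γ : Type} [Group Γ] {I : Type} {χ : Γ →* W.Kˣ}
  {X : I → DG W Γ} {f : ∀ i, Frame2 (X i).X W} {Z : DG W Γ} {n : ℕ} {c : Fin n → I} {m j : ℕ}
  {F : (Fin n → Fin 2) → W.H Z.X}

/-- the symmetry in another basis -/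
theorem hmul_sym (hsym : ∀ p q, c p = c q → ∀ J, F (J ∘ Equiv.swap p q) = F J)
    (b : ∀ i, Fin 2 → transcendental W (X i).X) (p q : Fin n) (hc : c p = c q)
    (J : Fin n → Fin 2) : hmul X f Z c F (fun s => b (c s) ((J ∘ Equiv.swap p q) s)) =
      hmul X f Z c F (fun s => b (c s) (J s)) := by
  rw [hmul_apply, hmul_apply]
  let M : I → Fin 2 → Fin 2 → W.K := fun i x y => bil W (X i).X (b i x) ((f i).t y)
  have hM : ∀ (J₁ J₂ : Fin n → Fin 2), ∏ s, bil W (X (c s)).X (b (c s) (J₁ s))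
      ((f (c s)).t (J₂ s)) = ∏ s, M (c s) (J₁ s) (J₂ s) := fun _ _ => rfl
  have hcs : ∀ s, c (Equiv.swap p q s) = c s := by
    intro s
    by_cases h1 : s = p
    · rw [h1, Equiv.swap_apply_left, hc]
    · by_cases h2 : s = q
      · rw [h2, Equiv.swap_apply_right, hc]
      · rw [Equiv.swap_apply_of_ne_of_ne h1 h2]
  let e : (Fin n → Fin 2) ≃ (Fin n → Fin 2) := Equiv.arrowCongr (Equiv.swap p q) (Equiv.refl _)
  have he : ∀ J₂, e J₂ = J₂ ∘ Equiv.swap p q := by
    intro J₂
    funext s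
    simp [e, Equiv.arrowCongr, Equiv.symm_swap]
  symm
  refine Fintype.sum_equiv e _ _ fun J₂ => ?_
  rw [he, hsym p q hc, hM, hM]
  congr 1
  refine (Fintype.prod_equiv (Equiv.swap p q) _ _ fun s => ?_).symm
  simp only [Function.comp_apply]
  rw [hcs]

/-- An eigenvalue on the cohomology of `Z`. -/
theorem exists_eig [IsAlgClosed W.K] (h : Hy χ X) (hF : FT χ X f Z c m j F)
    {ν : Additive W.Kˣ →+ ℚ} {g : Γ} (hχ : ν (Additive.ofMul (χ g)) = 1)
    (a : Fin n → W.Kˣ) (w : ∀ s, transcendental W (X (c s)).X)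
    (hw : ∀ s, (X (c s)).act g (w s : W.H (X (c s)).X) = (a s : W.K) • (w s : W.H (X (c s)).X))
    (h0 : hmul X f Z c F w ≠ 0) : ∃ (e : W.Kˣ) (z : W.H Z.X), z ≠ 0 ∧
      Z.act g z = (e : W.K) • z ∧ ν (Additive.ofMul e) =
        (∑ s, ν (Additive.ofMul (a s))) - ((∑ s, ((X (c s)).X.dim : ℚ)) - j) := by
  obtain ⟨Δ, hΔ, hact⟩ := hmul_tate h hF
  obtain ⟨M, hM, hgM⟩ := exists_pow hΔ g
  set A : ℤ := (∑ s, ((X (c s)).X.dim : ℤ)) - j with hA
  have h1 : ∀ M : ℕ, ∀ s, rhoT (h.gal (c s)) (g ^ M) (w s) = ((a s : W.K) ^ M) • w s := by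
    intro M s
    induction M with
    | zero =>
      rw [pow_zero, map_one, pow_zero, one_smul]
      rfl
    | succ M ih =>
      rw [pow_succ', map_mul, Module.End.mul_apply, ih, map_smul, pow_succ, mul_smul]
      congr 1
      exact Subtype.ext (hw s)
  have h2 := hact _ hgM w
  simp only [h1] at h2
  have h3 := (hmul X f Z c F).map_smul_univ (fun s => (a s : W.K) ^ M) w
  rw [h3] at h2
  set κ : W.Kˣ := (χ g ^ ((M : ℤ) * A))⁻¹ * ∏ s, a s ^ M with hκ
  have h4 : ((lin Z.toGVar g) ^ M) (hmul X f Z c F w) = (κ : W.K) • hmul X f Z c F w := by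
    rw [← map_pow]
    have h5 : (χ (g ^ M) ^ A : W.Kˣ) = χ g ^ ((M : ℤ) * A) := by
      rw [map_pow, ← zpow_natCast, ← zpow_mul]
    rw [h5] at h2
    rw [hκ, Units.val_mul, mul_smul, Units.coe_prod]
    simp only [Units.val_pow_eq_pow_val]
    rw [h2, smul_smul, ← Units.val_mul, inv_mul_cancel, Units.val_one, one_smul]
  obtain ⟨e, z, hz0, hz, hez⟩ := exists_root (lin Z.toGVar g) h0 h4
  have he0 : e ≠ 0 := by
    rintro rfl
    rw [zero_pow hM.ne'] at hez
    exact κ.ne_zero hez.symm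
  refine ⟨Units.mk0 e he0, z, hz0, hz, ?_⟩
  have h5 : (Units.mk0 e he0) ^ M = κ := Units.ext hez
  have h6 := congrArg (fun x => ν (Additive.ofMul x)) h5
  simp only [hκ] at h6
  rw [ofMul_pow, map_nsmul, ofMul_mul, map_add, ofMul_inv, map_neg, ofMul_zpow, map_zsmul, hχ,
    ofMul_prod, map_sum] at h6
  simp only [ofMul_pow, map_nsmul, nsmul_eq_mul, zsmul_eq_mul, mul_one] at h6
  rw [← Finset.mul_sum] at h6
  have hM0 : (M : ℚ) ≠ 0 := by exact_mod_cast hM.ne'
  apply mul_left_cancel₀ hM0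
  rw [h6, hA]
  push_cast
  ring

/-- **The sum of the dimensions.** -/
theorem Occ.ordinary [IsAlgClosed W.K] (hX : Hy χ X) (h : Occ χ X f Z c m j)
    {ν : Val W.K} {g : Γ} (hχ : val ν (χ g) = 1)
    (hZ : SlopesBounded ν g Z.toGVar) (hor : ∀ s, OrdinaryAt ν g (X (c s)).toGVar) :
    ∑ s, (X (c s)).X.dim ≤ m ∧ m + ∑ s, (X (c s)).X.dim ≤ 2 * Z.X.dim := by
  classical
  have hS : ∀ s, c s ∈ univ.image c := fun s => Finset.mem_image_of_mem _ (Finset.mem_univ s)
  obtain ⟨F, hF, hsym, J, hJ⟩ := h.restrict (univ.image c) hS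
  have hX' := hX.comp (fun i : (univ.image c : Finset I) => (i : I)) (subtype_inj _)
  have hor' : ∀ i : (univ.image c : Finset I), OrdinaryAt ν g (X i).toGVar := by
    rintro ⟨i, hi⟩
    obtain ⟨s, -, rfl⟩ := Finset.mem_image.1 hi
    exact hor s
  choose a a' x hx y hy hx0 hy0 h1 h2 h3 h4 using hor'
  have hne : ∀ i, a i ≠ a' i := by
    intro i hii
    have h5 := h3 i
    rw [hii, h4 i] at h5
    have h6 := hX.odd i
    have h7 : (X i).X.dim = 0 := by exact_mod_cast h5
    rw [h7] at h6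
    exact absurd h6 (by decide)
  have hli : ∀ i : (univ.image c : Finset I), LinearIndependent W.K
      ![(⟨x i, hx i⟩ : transcendental W (X i).X), ⟨y i, hy i⟩] := by
    intro i
    rw [LinearIndependent.pair_iff]
    intro r s hrs
    have e1 : r • x i + s • y i = 0 := congrArg Subtype.val hrs
    have e2 := congrArg ((X i).act g) e1
    rw [map_add, map_smul, map_smul, h1, h2, map_zero, smul_smul, smul_smul] at e2
    have e3 : (s * ((a' i : W.K) - a i)) • y i = 0 := by
      have e4 : (s * ((a' i : W.K) - a i)) • y i =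
          ((r * (a i : W.K)) • x i + (s * (a' i : W.K)) • y i) -
            (a i : W.K) • (r • x i + s • y i) := by module
      rw [e4, e2, e1, smul_zero, sub_self]
    have e5 := (smul_eq_zero.1 e3).resolve_right (hy0 i)
    have e6 : (a' i : W.K) - a i ≠ 0 := sub_ne_zero.2 fun h => hne i (Units.ext h.symm)
    have e7 := (mul_eq_zero.1 e5).resolve_right e6
    rw [e7, zero_smul, add_zero] at e1
    exact ⟨(smul_eq_zero.1 e1).resolve_right (hx0 i), e7⟩
  let b : ∀ i : (univ.image c : Finset I), Module.Basis (Fin 2) W.K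
      (transcendental W (X i).X) := fun i =>
    basisOfLinearIndependentOfCardEqFinrank (hli i) (by
      rw [Fintype.card_fin]
      exact (hX.two i).symm)
  have hb0 : ∀ i : (univ.image c : Finset I), (b i 0 : W.H (X i).X) = x i := by
    intro i
    rw [coe_basisOfLinearIndependentOfCardEqFinrank]
    rfl
  have hb1 : ∀ i : (univ.image c : Finset I), (b i 1 : W.H (X i).X) = y i := by
    intro i
    rw [coe_basisOfLinearIndependentOfCardEqFinrank]
    rfl
  obtain ⟨De, Df, Dh, hD⟩ := exists_ops hX' (fun i : (univ.image c : Finset I) => f i) Z b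
  have hD' := hD n _ m j F hF
  set G : (Fin n → Fin 2) → W.H Z.X := fun J => hmul
    (fun i : (univ.image c : Finset I) => X i) (fun i : (univ.image c : Finset I) => f i) Z
      (fun s => (⟨c s, hS s⟩ : (univ.image c : Finset I))) F
        (fun s => b (⟨c s, hS s⟩ : (univ.image c : Finset I)) (J s)) with hG
  have hGsym : Sy (fun s => (⟨c s, hS s⟩ : (univ.image c : Finset I))) G :=
    fun p q hpq J => hmul_sym hsym (fun i => b i) p q hpq J
  have hGne : ∃ J, G J ≠ 0 := by
    by_contra hcon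
    push Not at hcon
    have h5 : hmul (fun i : (univ.image c : Finset I) => X i)
        (fun i : (univ.image c : Finset I) => f i) Z
        (fun s => (⟨c s, hS s⟩ : (univ.image c : Finset I))) F = 0 :=
      Module.Basis.ext_multilinear (fun s => b (⟨c s, hS s⟩ : (univ.image c : Finset I)))
        fun v => hcon v
    apply hJ
    rw [← hmul_u (X := fun i : (univ.image c : Finset I) => X i)
      (f := fun i : (univ.image c : Finset I) => f i) (F := F) J, h5]
    rfl
  obtain ⟨J₀, hJ₀⟩ := hGne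
  have hall := all_ne hGsym hD' hJ₀
  obtain ⟨e, z, hz0, hz, hez⟩ := exists_eig hX' hF hχ (fun s => a ⟨c s, hS s⟩)
    (fun s => b (⟨c s, hS s⟩ : (univ.image c : Finset I)) 0)
    (fun s => by
      rw [hb0]
      exact h1 ⟨c s, hS s⟩) (hall fun _ => 0)
  obtain ⟨e', z', hz0', hz', hez'⟩ := exists_eig hX' hF hχ (fun s => a' ⟨c s, hS s⟩)
    (fun s => b (⟨c s, hS s⟩ : (univ.image c : Finset I)) 1)
    (fun s => by
      rw [hb1]
      exact h2 ⟨c s, hS s⟩) (hall fun _ => 1)
  have h5 := (hZ e z hz0 hz).1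
  have h6 := (hZ e' z' hz0' hz').2
  rw [val, hez] at h5
  rw [val, hez'] at h6
  simp only [val] at h3 h4
  simp only [h3, h4] at h5 h6
  have h7 : (m : ℚ) + ∑ s, ((X (c s)).X.dim : ℚ) = 2 * j := by
    have h8 := hF.deg
    exact_mod_cast h8
  rw [Finset.sum_const_zero] at h5
  constructor
  · have h9 : (∑ s, ((X (c s)).X.dim : ℚ)) ≤ m := by linarith
    exact_mod_cast h9
  · have h9 : (m : ℚ) + ∑ s, ((X (c s)).X.dim : ℚ) ≤ 2 * Z.X.dim := by linarith
    exact_mod_cast h9

end Pool.Agent.Y132.EP
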