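import Pool.Agent.TH125.Gal.Tate
import Pool.Agent.TH125.Gal.Pub2

/-!
# Products of varieties with actions on the cohomology
-/

open CategoryTheory AlgebraicGeometry Finset

set_option linter.unusedSectionVars false

universe u v w

namespace Pool.Agent.Y132.EP

open Pool.Agent.H914 Pool.Agent.H914.VarClass Pool.Agent.H914.VarClass.Obj
  Pool.Agent.H914.WeilCohomology Pool.Agent.H281R3.HT Pool.Agent.W552 Pool.Agent.TH125.Gal

variable {k : Type u} [Field k] {𝒱 : VarClass k} {ops : CycleOps 𝒱}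
  {W : WeilCohomology.{u, v} ops} {Γ : Type w} [Group Γ]

section aut

variable {A B : 𝒱.Obj}

/-- The product of two linear automorphisms. -/
noncomputable def prodLin (ρ : W.H A ≃ₐ[W.K] W.H A) (τ : W.H B ≃ₐ[W.K] W.H B) :
    W.H (A.prod B) ≃ₗ[W.K] W.H (A.prod B) :=
  (kEquiv W A B).symm.trans
    ((TensorProduct.congr ρ.toLinearEquiv τ.toLinearEquiv).trans (kEquiv W A B))

theorem prodLin_ext (ρ : W.H A ≃ₐ[W.K] W.H A) (τ : W.H B ≃ₐ[W.K] W.H B) (a : W.H A)
    (b : W.H B) : prodLin ρ τ (W.map (fst A B) a * W.map (snd A B) b) =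
      W.map (fst A B) (ρ a) * W.map (snd A B) (τ b) := by
  rw [prodLin, LinearEquiv.trans_apply, LinearEquiv.trans_apply, kEquiv_symm,
    TensorProduct.congr_tmul, kEquiv_tmul]
  rfl

theorem ext_mul_ext {i j i' j' : ℕ} {a : W.H A} {b : W.H B} {a' : W.H A} {b' : W.H B}
    (_ : a ∈ W.gr A i) (hb : b ∈ W.gr B j) (ha' : a' ∈ W.gr A i') (_ : b' ∈ W.gr B j') :
    (W.map (fst A B) a * W.map (snd A B) b) * (W.map (fst A B) a' * W.map (snd A B) b') =
      (-1 : W.K) ^ (j * i') • (W.map (fst A B) (a * a') * W.map (snd A B) (b * b')) := by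
  have h1 : W.map (snd A B) b * W.map (fst A B) a' =
      (-1 : W.K) ^ (j * i') • (W.map (fst A B) a' * W.map (snd A B) b) :=
    W.comm (W.map_mem _ hb) (W.map_mem _ ha')
  rw [map_mul, map_mul, mul_assoc, ← mul_assoc (W.map (snd A B) b), h1, smul_mul_assoc,
    mul_smul_comm, mul_assoc, mul_assoc]

/-- The product of two automorphisms which preserve the degrees. -/
noncomputable def prodAut (ρ : W.H A ≃ₐ[W.K] W.H A) (τ : W.H B ≃ₐ[W.K] W.H B)
    (hρ : ∀ i, ∀ a ∈ W.gr A i, ρ a ∈ W.gr A i) (hτ : ∀ i, ∀ a ∈ W.gr B i, τ a ∈ W.gr B i) :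
    W.H (A.prod B) ≃ₐ[W.K] W.H (A.prod B) :=
  AlgEquiv.ofLinearEquiv (prodLin ρ τ)
    (by
      have h1 := prodLin_ext ρ τ (1 : W.H A) (1 : W.H B)
      simpa using h1)
    (by
      intro x y
      refine W.kunneth_induction (p := fun x => prodLin ρ τ (x * y) =
        prodLin ρ τ x * prodLin ρ τ y) ?_ ?_ x
      · intro a b ha hb
        rw [add_mul, map_add, map_add, add_mul, ha, hb]
      intro i j a ha b hb
      refine W.kunneth_induction (p := fun y => prodLin ρ τ (W.map (fst A B) a *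
        W.map (snd A B) b * y) = prodLin ρ τ (W.map (fst A B) a * W.map (snd A B) b) *
          prodLin ρ τ y) ?_ ?_ y
      · intro a' b' ha' hb'
        rw [mul_add, map_add, map_add, mul_add, ha', hb']
      intro i' j' a' ha' b' hb'
      rw [ext_mul_ext ha hb ha' hb', map_smul, prodLin_ext, prodLin_ext, prodLin_ext,
        ext_mul_ext (hρ i a ha) (hτ j b hb) (hρ i' a' ha') (hτ j' b' hb'), map_mul ρ,
        map_mul τ])

theorem prodAut_ext (ρ : W.H A ≃ₐ[W.K] W.H A) (τ : W.H B ≃ₐ[W.K] W.H B)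
    (hρ : ∀ i, ∀ a ∈ W.gr A i, ρ a ∈ W.gr A i) (hτ : ∀ i, ∀ a ∈ W.gr B i, τ a ∈ W.gr B i)
    (a : W.H A) (b : W.H B) : prodAut ρ τ hρ hτ (W.map (fst A B) a * W.map (snd A B) b) =
      W.map (fst A B) (ρ a) * W.map (snd A B) (τ b) := prodLin_ext ρ τ a b

theorem prodAut_fst (ρ : W.H A ≃ₐ[W.K] W.H A) (τ : W.H B ≃ₐ[W.K] W.H B)
    (hρ : ∀ i, ∀ a ∈ W.gr A i, ρ a ∈ W.gr A i) (hτ : ∀ i, ∀ a ∈ W.gr B i, τ a ∈ W.gr B i)
    (a : W.H A) : prodAut ρ τ hρ hτ (W.map (fst A B) a) = W.map (fst A B) (ρ a) := by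
  have h := prodAut_ext ρ τ hρ hτ a 1
  rwa [map_one, map_one, map_one, mul_one, mul_one] at h

theorem prodAut_snd (ρ : W.H A ≃ₐ[W.K] W.H A) (τ : W.H B ≃ₐ[W.K] W.H B)
    (hρ : ∀ i, ∀ a ∈ W.gr A i, ρ a ∈ W.gr A i) (hτ : ∀ i, ∀ a ∈ W.gr B i, τ a ∈ W.gr B i)
    (b : W.H B) : prodAut ρ τ hρ hτ (W.map (snd A B) b) = W.map (snd A B) (τ b) := by
  have h := prodAut_ext ρ τ hρ hτ 1 b
  rwa [map_one, map_one, map_one, one_mul, one_mul] at h

/-- Algebra automorphisms of the cohomology of a product are determined on the factors. -/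
theorem aut_ext {f f' : W.H (A.prod B) ≃ₐ[W.K] W.H (A.prod B)}
    (h1 : ∀ a, f (W.map (fst A B) a) = f' (W.map (fst A B) a))
    (h2 : ∀ b, f (W.map (snd A B) b) = f' (W.map (snd A B) b)) : f = f' := by
  apply AlgEquiv.ext
  intro c
  refine W.kunneth_induction (p := fun c => f c = f' c) ?_ ?_ c
  · intro a b ha hb
    rw [map_add, map_add, ha, hb]
  · intro i j a _ b _
    rw [map_mul, map_mul, h1, h2]

theorem prodAut_gr (ρ : W.H A ≃ₐ[W.K] W.H A) (τ : W.H B ≃ₐ[W.K] W.H B)
    (hρ : ∀ i, ∀ a ∈ W.gr A i, ρ a ∈ W.gr A i) (hτ : ∀ i, ∀ a ∈ W.gr B i, τ a ∈ W.gr B i)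
    (m : ℕ) (x : W.H (A.prod B)) (hx : x ∈ W.gr (A.prod B) m) :
    prodAut ρ τ hρ hτ x ∈ W.gr (A.prod B) m := by
  have h1 : ∀ x, prodAut ρ τ hρ hτ (proj (W.isInternal (A.prod B)) m x) =
      proj (W.isInternal (A.prod B)) m (prodAut ρ τ hρ hτ x) := by
    intro x
    refine W.kunneth_induction (p := fun x => prodAut ρ τ hρ hτ
      (proj (W.isInternal (A.prod B)) m x) =
      proj (W.isInternal (A.prod B)) m (prodAut ρ τ hρ hτ x)) ?_ ?_ x
    · intro a b ha hb
      rw [map_add, map_add, map_add, map_add, ha, hb]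
    · intro i j a ha b hb
      have e1 : W.map (fst A B) a * W.map (snd A B) b ∈ W.gr (A.prod B) (i + j) :=
        W.mul_mem (W.map_mem _ ha) (W.map_mem _ hb)
      have e2 : W.map (fst A B) (ρ a) * W.map (snd A B) (τ b) ∈ W.gr (A.prod B) (i + j) :=
        W.mul_mem (W.map_mem _ (hρ i a ha)) (W.map_mem _ (hτ j b hb))
      rw [prodAut_ext]
      by_cases hm : i + j = m
      · subst hm
        rw [proj_same _ e1, proj_same _ e2, prodAut_ext]
      · rw [proj_ne _ e1 hm, proj_ne _ e2 hm, map_zero]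
  have h2 := h1 x
  rw [proj_same _ hx] at h2
  rw [h2]
  exact proj_mem _ _ _

end aut

/-- A variety with an action which preserves the degrees. -/
structure DG (W : WeilCohomology.{u, v} ops) (Γ : Type w) [Group Γ] extends GVar W Γ where
  deg : ∀ g i, ∀ a ∈ W.gr X i, act g a ∈ W.gr X i

/-- The product. -/
noncomputable abbrev DG.prod (A B : DG W Γ) : DG W Γ where
  X := A.X.prod B.X
  act :=
    { toFun := fun g => prodAut (A.act g) (B.act g) (A.deg g) (B.deg g)
      map_one' := by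
        apply aut_ext
        · intro a
          rw [prodAut_fst, map_one]
          rfl
        · intro b
          rw [prodAut_snd, map_one]
          rfl
      map_mul' := fun g g' => by
        apply aut_ext
        · intro a
          rw [prodAut_fst, AlgEquiv.mul_apply, prodAut_fst, prodAut_fst, map_mul]
          rfl
        · intro b
          rw [prodAut_snd, AlgEquiv.mul_apply, prodAut_snd, prodAut_snd, map_mul]
          rfl }
  deg := fun g i a ha => prodAut_gr _ _ (A.deg g) (B.deg g) i a ha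

theorem DG.act_fst (A B : DG W Γ) (g : Γ) (a : W.H A.X) :
    (A.prod B).act g (W.map (fst A.X B.X) a) = W.map (fst A.X B.X) (A.act g a) :=
  prodAut_fst _ _ (A.deg g) (B.deg g) a

theorem DG.act_snd (A B : DG W Γ) (g : Γ) (b : W.H B.X) :
    (A.prod B).act g (W.map (snd A.X B.X) b) = W.map (snd A.X B.X) (B.act g b) :=
  prodAut_snd _ _ (A.deg g) (B.deg g) b

theorem DG.act_ext (A B : DG W Γ) (g : Γ) (a : W.H A.X) (b : W.H B.X) :
    (A.prod B).act g (W.map (fst A.X B.X) a * W.map (snd A.X B.X) b) =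
      W.map (fst A.X B.X) (A.act g a) * W.map (snd A.X B.X) (B.act g b) :=
  prodAut_ext _ _ (A.deg g) (B.deg g) a b

/-- The action on a product is unique. -/
theorem isProdVar_unique {A B : DG W Γ} {C : GVar W Γ} (h : IsProdVar A.toGVar B.toGVar C) :
    C = (A.prod B).toGVar := by
  obtain ⟨υ, h1, h2⟩ := h
  have h3 : υ = (A.prod B).act := by
    apply MonoidHom.ext
    intro g
    apply aut_ext
    · intro a
      rw [DG.act_fst]
      exact h1 g a
    · intro b
      rw [DG.act_snd]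
      exact h2 g b
  subst h3
  rfl

theorem isProdVar_prod (A B : DG W Γ) : IsProdVar A.toGVar B.toGVar (A.prod B).toGVar :=
  IsProdVar.mk _ (fun g a => DG.act_fst A B g a) (fun g b => DG.act_snd A B g b)

section tow

variable {ι : Type} {Λ : Type}

/-- The products over a list of labels. -/
@[reducible] noncomputable def tow (X : ι → DG W Γ) (Z : DG W Γ) (c : Λ → ι) : List Λ → DG W Γ
  | [] => Z
  | s :: l => (X (c s)).prod (tow X Z c l)

end tow

end Pool.Agent.Y132.EP
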